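import Mathlib.Algebra.Polynomial.Taylor
import Mathlib.Topology.Sheaves.Presheaf
import Mathlib.Data.Int.Star
import Mathlib.Algebra.Order.Ring.Star
import Mathlib.Algebra.Order.Star.Real
import Mathlib.Analysis.Calculus.Deriv.Polynomial
import Mathlib.Analysis.Complex.Liouville
import Mathlib.Analysis.CStarAlgebra.Classes
import Mathlib.Analysis.Complex.RemovableSingularity
import Mathlib.Analysis.Complex.AbsMax
import Mathlib.NumberTheory.SiegelsLemma
import Mathlib.Order.CompletePartialOrder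
import Mathlib.Tactic.Algebra.Basic

-- ======== part 0: formerly Pool.Agent.MP_ed4d7b_nt.Zero
section MrgPart0

set_option autoImplicit false

/-! Extrapolation from many small values, and a lower bound by elimination. -/

namespace Pool.Agent.MP_ed4d7b_nt

open Finset Complex Metric Polynomial

lemma max_principle {c : ℂ} {R R' M : ℝ} (hR : 0 < R) (hR' : R < R') {G : ℂ → ℂ}
    (hG : DifferentiableOn ℂ G (ball c R')) (hM : ∀ z ∈ sphere c R, ‖G z‖ ≤ M) {z : ℂ}
    (hz : z ∈ closedBall c R) : ‖G z‖ ≤ M := by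
  refine norm_le_of_forall_mem_frontier_norm_le (U := ball c R) isBounded_ball
    (hG.diffContOnCl_ball (closedBall_subset_ball hR')) ?_ ?_
  · rwa [frontier_ball _ hR.ne']
  · rwa [closure_ball _ hR.ne']

lemma extrap {c : ℂ} {R R' h s : ℝ} (hh : 0 < h) (hR : h < R) (hR' : R < R') (hs : 0 < s)
    (S : Finset ℂ) : ∀ (G : ℂ → ℂ) (δ M : ℝ), 0 ≤ δ → DifferentiableOn ℂ G (ball c R') →
      (∀ z ∈ sphere c R, ‖G z‖ ≤ M) → (∀ x ∈ S, x ∈ closedBall c h) →
      (∀ x ∈ S, ∀ y ∈ S, x ≠ y → s ≤ ‖x - y‖) → (∀ x ∈ S, ‖G x‖ ≤ δ) →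
      ∀ z ∈ closedBall c h,
        ‖G z‖ ≤ δ * (1 + 4 * h / s) ^ #S + M * (4 * h / (R - h)) ^ #S := by
  classical
  induction S using Finset.induction_on with
  | empty =>
    intro G δ M hδ hG hM _ _ _ z hz
    have := max_principle (hh.trans hR) hR' hG hM (closedBall_subset_closedBall hR.le hz)
    simp only [card_empty, pow_zero, mul_one]
    linarith
  | insert x S hx ih =>
    intro G δ M hδ hG hM h1 h2 h3 z hz
    have hxh := h1 x (mem_insert_self _ _)
    have hRh : 0 < R - h := by linarith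
    have hGx := max_principle (hh.trans hR) hR' hG hM (closedBall_subset_closedBall hR.le hxh)
    have hd : ∀ y, y ≠ x → ‖dslope G x y‖ = ‖G y - G x‖ / ‖y - x‖ := fun y hy => by
      rw [dslope_of_ne _ hy, slope_def_field, norm_div]
    have key := ih (dslope G x) (2 * δ / s) (2 * M / (R - h)) (by positivity)
      ((differentiableOn_dslope (isOpen_ball.mem_nhds
        (closedBall_subset_ball (hR.trans hR') hxh))).mpr hG)
      (fun y hy => by
        have e1 : R - h ≤ ‖y - x‖ := by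
          have := norm_sub_norm_le (y - c) (x - c)
          rw [mem_sphere_iff_norm.mp hy, sub_sub_sub_cancel_right] at this
          linarith [mem_closedBall_iff_norm.mp hxh]
        have e2 : y ≠ x := fun e => by
          rw [e, sub_self, norm_zero] at e1
          linarith
        have e3 := norm_sub_le (G y) (G x)
        rw [hd y e2]
        exact div_le_div₀ (by linarith [norm_nonneg (G x)]) (by linarith [hM y hy]) hRh e1)
      (fun y hy => h1 y (mem_insert_of_mem hy))
      (fun y hy y' hy' => h2 y (mem_insert_of_mem hy) y' (mem_insert_of_mem hy'))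
      (fun y hy => by
        have e2 : y ≠ x := fun e => hx (e ▸ hy)
        have e3 := norm_sub_le (G y) (G x)
        rw [hd y e2]
        exact div_le_div₀ (by positivity)
          (by linarith [h3 y (mem_insert_of_mem hy), h3 x (mem_insert_self _ _)]) hs
          (h2 y (mem_insert_of_mem hy) x (mem_insert_self _ _) e2)) z hz
    have e1 : G z = G x + (z - x) * dslope G x z := by
      rw [← smul_eq_mul, sub_smul_dslope]
      ring
    have e2 : ‖z - x‖ ≤ 2 * h := by
      have := norm_sub_le (z - c) (x - c)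
      rw [sub_sub_sub_cancel_right] at this
      linarith [mem_closedBall_iff_norm.mp hxh, mem_closedBall_iff_norm.mp hz]
    have e3 : 1 ≤ (1 + 4 * h / s) ^ #S := one_le_pow₀ (le_add_of_nonneg_right (by positivity))
    rw [card_insert_of_notMem hx, e1]
    calc _ ≤ ‖G x‖ + ‖z - x‖ * ‖dslope G x z‖ := by
          rw [← norm_mul]
          exact norm_add_le _ _
      _ ≤ δ * (1 + 4 * h / s) ^ #S + 2 * h * (2 * δ / s * (1 + 4 * h / s) ^ #S +
          2 * M / (R - h) * (4 * h / (R - h)) ^ #S) := by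
          gcongr
          exact (h3 x (mem_insert_self _ _)).trans (le_mul_of_one_le_right hδ e3)
      _ = _ := by
          rw [pow_succ, pow_succ]
          field_simp
          ring

lemma lead_le {c : ℂ} {η : ℝ} (Q : ℂ[X]) (h : ∀ z ∈ sphere c 1, ‖Q.eval z‖ ≤ η) :
    ‖Q.leadingCoeff‖ ≤ η := by
  have h1 := max_principle (c := 0) (R := 1) (R' := 2) (M := η) one_pos (by norm_num)
    (G := fun z => (taylor c Q).reverse.eval z) (Polynomial.differentiable _).differentiableOn
    (fun z hz => by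
      rw [mem_sphere_zero_iff_norm] at hz
      have hz0 : z⁻¹ ≠ 0 := inv_ne_zero fun e => by simp [e] at hz
      let _ := invertibleOfNonzero hz0
      have e := eval₂_reverse_mul_pow (RingHom.id ℂ) z⁻¹ (taylor c Q)
      rw [invOf_eq_inv, inv_inv, eval₂_id, eval₂_id, taylor_eval] at e
      have e2 := h (z⁻¹ + c) (by simp [hz])
      rw [← e, norm_mul, norm_pow, norm_inv, hz] at e2
      simpa using e2) (z := 0) (by simp)
  rwa [← coeff_zero_eq_eval_zero, coeff_zero_reverse, leadingCoeff_taylor] at h1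

lemma cauchy {c : ℂ} {r η : ℝ} {G : ℂ → ℂ} (hG : DifferentiableOn ℂ G (ball c r))
    (h : ∀ z ∈ ball c r, ‖G z‖ ≤ η) {z : ℂ} (hz : z ∈ ball c (r - 1)) : ‖deriv G z‖ ≤ η := by
  have h1 : closedBall z 1 ⊆ ball c r :=
    closedBall_subset_ball' (by linarith [mem_ball.mp hz])
  simpa using norm_deriv_le_of_forall_mem_sphere_norm_le one_pos (hG.diffContOnCl_ball h1)
    fun y hy => h y (h1 (sphere_subset_closedBall hy))

lemma lead_step {u ρ Q₁ Q₂ : ℂ[X]} (hρ : ρ.Monic) (hu : u.degree = ρ.degree) (h1 : Q₁ ≠ 0)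
    (h2 : Q₂ ≠ 0) {κ : ℂ} (hκ : κ ≠ 0) :
    (Q₁ * (u * derivative Q₂ + C κ * ρ * Q₂) - u * derivative Q₁ * Q₂).leadingCoeff =
      κ * Q₁.leadingCoeff * Q₂.leadingCoeff := by
  have e : Q₁ * (u * derivative Q₂ + C κ * ρ * Q₂) - u * derivative Q₁ * Q₂ =
      (u * Q₁ * derivative Q₂ - u * Q₂ * derivative Q₁) + C κ * (ρ * Q₁ * Q₂) := by ring
  have hu0 : u ≠ 0 := fun e => by
    rw [e, degree_zero] at hu
    exact hρ.ne_zero (degree_eq_bot.mp hu.symm)
  have d1 : (u * Q₁ * derivative Q₂).degree < (ρ * Q₁ * Q₂).degree := by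
    rw [degree_mul, degree_mul (q := Q₂)]
    refine WithBot.add_lt_add_of_le_of_lt (degree_ne_bot.mpr (mul_ne_zero hu0 h1)) ?_
      (degree_derivative_lt h2)
    rw [degree_mul, degree_mul, hu]
  have d2 : (u * Q₂ * derivative Q₁).degree < (ρ * Q₁ * Q₂).degree := by
    rw [mul_right_comm ρ, degree_mul, degree_mul (q := Q₁)]
    refine WithBot.add_lt_add_of_le_of_lt (degree_ne_bot.mpr (mul_ne_zero hu0 h2)) ?_
      (degree_derivative_lt h1)
    rw [degree_mul, degree_mul, hu]
  rw [e, leadingCoeff_add_of_degree_lt]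
  · simp [hρ.leadingCoeff, mul_assoc]
  · rw [degree_C_mul hκ]
    exact (degree_sub_le _ _).trans_lt (max_lt d1 d2)

lemma elim {c : ℂ} {R U : ℝ} {k : ℕ} (hk : 1 ≤ k) {u ρ : ℂ[X]} (hρ : ρ.Monic)
    (hu : u.degree = ρ.degree) {f f' : ℂ → ℂ}
    (hf : ∀ z ∈ ball c R, HasDerivAt f (f' z) z)
    (hf' : ∀ z ∈ ball c R, k * (u.eval z * f' z) = ρ.eval z * f z)
    (hf1 : ∀ z ∈ ball c R, 1 ≤ ‖f z‖) (hU : 0 < U)
    (hU1 : ∀ z ∈ ball c R, ‖u.eval z‖ ≤ U) (hU2 : ∀ z ∈ ball c R, ‖ρ.eval z‖ ≤ U) (s : ℕ) :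
    ∀ (S : Finset ℕ) (Q : ℕ → ℂ[X]) (r Λ η : ℝ), #S = s + 1 → (∀ b ∈ S, b ≤ k) →
      s + 2 ≤ r → r ≤ R → 0 < Λ → (∀ b ∈ S, k ≤ Λ * ‖(Q b).leadingCoeff‖) →
      (∀ b ∈ S, ∀ z ∈ ball c r, 3 * U * ‖(Q b).eval z‖ ≤ Λ) →
      (∀ z ∈ ball c r, ‖∑ b ∈ S, (Q b).eval z * f z ^ b‖ ≤ η) →
      k * Λ ≤ η * Λ ^ 2 ^ (s + 1) := by
  have hk0 : (0 : ℝ) < k := by exact_mod_cast hk
  have hk0' : (k : ℂ) ≠ 0 := by exact_mod_cast hk0.ne'
  induction s with
  | zero =>
    intro S Q r Λ η hS _ hr hR hΛ h1 _ h3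
    obtain ⟨b, rfl⟩ := card_eq_one.mp hS
    have h4 := lead_le (c := c) (η := η) (Q b) fun z hz => by
      have hz' : z ∈ ball c r := sphere_subset_closedBall.trans
        (closedBall_subset_ball (by push_cast at hr; linarith)) hz
      have e := h3 z hz'
      rw [sum_singleton, norm_mul, norm_pow] at e
      exact (le_mul_of_one_le_right (norm_nonneg _)
        (one_le_pow₀ (hf1 z (ball_subset_ball hR hz')))).trans e
    have h5 := (h1 b (mem_singleton_self _)).trans (mul_le_mul_of_nonneg_left h4 hΛ.le)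
    calc k * Λ ≤ Λ * η * Λ := by gcongr
      _ = _ := by ring
  | succ s ih =>
    intro S Q r Λ η hS hb hr hR hΛ h1 h2 h3
    classical
    obtain ⟨β, hβ⟩ : S.Nonempty := card_pos.mp (by omega)
    have hQ : ∀ b ∈ S, Q b ≠ 0 := fun b hb e => by
      have := h1 b hb
      rw [e, leadingCoeff_zero, norm_zero, mul_zero] at this
      linarith
    have hsub : ball c (r - 1) ⊆ ball c r := ball_subset_ball (by linarith)
    have hsub' : ball c r ⊆ ball c R := ball_subset_ball hR
    have hM : ∀ b ∈ S, ∀ z ∈ ball c r, ‖(Q b).eval z‖ ≤ Λ / (3 * U) := fun b hb z hz => by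
      rw [le_div_iff₀' (by positivity)]
      exact h2 b hb z hz
    have hM' : ∀ b ∈ S, ∀ z ∈ ball c (r - 1), ‖(derivative (Q b)).eval z‖ ≤ Λ / (3 * U) :=
      fun b hb z hz => by
        rw [← Polynomial.deriv]
        exact cauchy (Polynomial.differentiable _).differentiableOn (hM b hb) hz
    have hκ : ∀ b ∈ S, ‖((b : ℂ) - β) / k‖ ≤ 1 := fun b hb' => by
      rw [norm_div, Complex.norm_natCast, div_le_one hk0, ← ofReal_natCast, ← ofReal_natCast,
        ← ofReal_sub, norm_real, Real.norm_eq_abs, abs_le]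
      have e1 : (b : ℝ) ≤ k := by exact_mod_cast hb b hb'
      have e2 : (β : ℝ) ≤ k := by exact_mod_cast hb β hβ
      constructor <;> linarith [Nat.cast_nonneg (α := ℝ) b, Nat.cast_nonneg (α := ℝ) β]
    have hη : 0 ≤ η := (norm_nonneg _).trans (h3 c (mem_ball_self (by
      have : (0 : ℝ) ≤ (s + 1 : ℕ) := Nat.cast_nonneg _
      linarith)))
    have key := ih (S.erase β) (fun b => Q β * (u * derivative (Q b) +
        C (((b : ℂ) - β) / k) * ρ * Q b) - u * derivative (Q β) * Q b) (r - 1) (Λ ^ 2) (Λ * η)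
      (by rw [card_erase_of_mem hβ, hS]; rfl) (fun b h => hb b (mem_of_mem_erase h))
      (by push_cast at hr; linarith) (by linarith) (by positivity)
      (fun b h => by
        have hbS := mem_of_mem_erase h
        have hne : (b : ℂ) - β ≠ 0 := sub_ne_zero.mpr (by exact_mod_cast ne_of_mem_erase h)
        have e1 : 1 ≤ ‖(b : ℂ) - β‖ := by
          have : ((b : ℂ) - β) = ((b - β : ℤ) : ℂ) := by push_cast; rfl
          rw [this] at hne ⊢
          rw [Complex.norm_intCast]
          exact_mod_cast Int.one_le_abs (by exact_mod_cast hne)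
        rw [lead_step hρ hu (hQ β hβ) (hQ b hbS) (div_ne_zero hne hk0'), norm_mul, norm_mul,
          norm_div, Complex.norm_natCast]
        calc (k : ℝ) = 1 / k * (k * k) := by field_simp
          _ ≤ ‖(b : ℂ) - β‖ / k * (Λ * ‖(Q β).leadingCoeff‖ * (Λ * ‖(Q b).leadingCoeff‖)) := by
              gcongr
              · exact h1 β hβ
              · exact h1 b hbS
          _ = _ := by ring)
      (fun b h z hz => by
        have hbS := mem_of_mem_erase h
        have hz' := hsub' (hsub hz)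
        simp only [eval_sub, eval_mul, eval_add, eval_C]
        have e1 : ‖(Q β).eval z * (u.eval z * (derivative (Q b)).eval z +
            ((b : ℂ) - β) / k * ρ.eval z * (Q b).eval z) -
            u.eval z * (derivative (Q β)).eval z * (Q b).eval z‖ ≤
            Λ / (3 * U) * (U * (Λ / (3 * U)) + 1 * U * (Λ / (3 * U))) +
              U * (Λ / (3 * U)) * (Λ / (3 * U)) := by
          refine (norm_sub_le _ _).trans ?_
          rw [norm_mul, norm_mul, norm_mul]
          gcongr
          · exact hM β hβ z (hsub hz)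
          · refine (norm_add_le _ _).trans ?_
            rw [norm_mul, norm_mul, norm_mul]
            gcongr
            · exact hU1 z hz'
            · exact hM' b hbS z hz
            · exact hκ b hbS
            · exact hU2 z hz'
            · exact hM b hbS z (hsub hz)
          · exact hU1 z hz'
          · exact hM' β hβ z hz
          · exact hM b hbS z (hsub hz)
        refine (mul_le_mul_of_nonneg_left e1 (by positivity)).trans (le_of_eq ?_)
        field_simp
        ring)
      (fun z hz => by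
        have hz' := hsub' (hsub hz)
        have hd : ∀ y ∈ ball c r, HasDerivAt (fun y => ∑ b ∈ S, (Q b).eval y * f y ^ b)
            (∑ b ∈ S, ((derivative (Q b)).eval y * f y ^ b +
              (Q b).eval y * (b * f y ^ (b - 1) * f' y))) y := fun y hy =>
          HasDerivAt.fun_sum fun b _ => ((Q b).hasDerivAt y).mul ((hf y (hsub' hy)).pow b)
        have e1 := cauchy (fun y hy => (hd y hy).differentiableAt.differentiableWithinAt) h3 hz
        rw [(hd z (hsub hz)).deriv] at e1
        have e2 := h3 z (hsub hz)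
        have e3 : ∑ b ∈ S.erase β, (Q β * (u * derivative (Q b) +
            C (((b : ℂ) - β) / k) * ρ * Q b) - u * derivative (Q β) * Q b).eval z * f z ^ b =
            (Q β).eval z * (u.eval z * (∑ b ∈ S, ((derivative (Q b)).eval z * f z ^ b +
              (Q b).eval z * (b * f z ^ (b - 1) * f' z))) -
              (β : ℂ) / k * ρ.eval z * ∑ b ∈ S, (Q b).eval z * f z ^ b) -
            u.eval z * (derivative (Q β)).eval z * ∑ b ∈ S, (Q b).eval z * f z ^ b := by
          rw [sum_erase _ (by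
            simp only [eval_sub, eval_mul, eval_add, eval_C, sub_self, zero_div]
            ring)]
          simp only [mul_sum, ← sum_sub_distrib]
          refine sum_congr rfl fun b _ => ?_
          have e4 : (b : ℂ) * f z ^ (b - 1) * f z = b * f z ^ b := by
            cases b with
            | zero => simp
            | succ b => simp [pow_succ, mul_assoc]
          have e5 : u.eval z * f' z = ρ.eval z * f z / k := by
            rw [← hf' z hz']
            field_simp
          simp only [eval_sub, eval_mul, eval_add, eval_C]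
          linear_combination (-((Q β).eval z * (Q b).eval z * (b * f z ^ (b - 1)))) * e5 -
            ((Q β).eval z * (Q b).eval z * ρ.eval z / k) * e4
        have e6 : ‖(β : ℂ) / k‖ ≤ 1 := by
          rw [norm_div, Complex.norm_natCast, Complex.norm_natCast, div_le_one hk0]
          exact_mod_cast hb β hβ
        rw [e3]
        generalize (∑ b ∈ S, ((derivative (Q b)).eval z * f z ^ b +
              (Q b).eval z * (b * f z ^ (b - 1) * f' z))) = G' at *
        generalize (∑ b ∈ S, (Q b).eval z * f z ^ b) = G at *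
        calc _ ≤ Λ / (3 * U) * (U * η + 1 * U * η) + U * (Λ / (3 * U)) * η := by
              refine (norm_sub_le _ _).trans ?_
              rw [norm_mul, norm_mul, norm_mul]
              gcongr
              · exact hM β hβ z (hsub hz)
              · refine (norm_sub_le _ _).trans ?_
                rw [norm_mul, norm_mul, norm_mul]
                gcongr
                · exact hU1 z hz'
                · exact hU2 z hz'
              · exact hU1 z hz'
              · exact hM' β hβ z hz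
          _ = _ := by
              field_simp
              ring)
    refine le_of_mul_le_mul_left (a := Λ) ?_ hΛ
    calc Λ * (k * Λ) = k * Λ ^ 2 := by ring
      _ ≤ Λ * η * (Λ ^ 2) ^ 2 ^ (s + 1) := key
      _ = _ := by
          rw [← pow_mul, ← pow_succ']
          ring

end Pool.Agent.MP_ed4d7b_nt

end MrgPart0

-- ======== part 1: formerly Pool.Agent.MP_ed4d7b_nt.Window
section MrgPart1

set_option autoImplicit false

/-! Few integer points of a short window lie close to the curve. -/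

namespace Pool.Agent.MP_ed4d7b_nt

open Finset Complex Metric Polynomial

attribute [local instance] Matrix.seminormedAddCommGroup in
lemma siegel (N : Finset ℕ) {A B : ℕ} (e : ℕ → ℕ → ℕ → ℤ) {H : ℝ} (hH : 1 ≤ H)
    (he : ∀ n ∈ N, ∀ a < A, ∀ b < B, |(e n a b : ℝ)| ≤ H) (h0 : 0 < #N) (h2 : 2 * #N ≤ A * B) :
    ∃ c : ℕ → ℕ → ℤ, (∃ a < A, ∃ b < B, c a b ≠ 0) ∧ (∀ a b, |(c a b : ℝ)| ≤ A * B * H) ∧
      ∀ n ∈ N, ∑ b ∈ range B, ∑ a ∈ range A, c a b * e n a b = 0 := by
  obtain ⟨t, t0, t1, t2⟩ := Int.Matrix.exists_ne_zero_int_vec_norm_le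
    (Matrix.of fun (n : N) (p : Fin B × Fin A) => e n p.2 p.1)
    (by simp only [Fintype.card_coe, Fintype.card_prod, Fintype.card_fin]; nlinarith)
    (by simpa using h0)
  simp only [Fintype.card_coe, Fintype.card_prod, Fintype.card_fin] at t2
  have hN : (0 : ℝ) < #N := by exact_mod_cast h0
  have hD : (2 * #N : ℝ) ≤ (B * A : ℕ) := by exact_mod_cast (mul_comm A B ▸ h2)
  have hD1 : (1 : ℝ) ≤ (B * A : ℕ) := by
    have : (1 : ℝ) ≤ #N := by exact_mod_cast h0
    linarith
  have t3 : ‖t‖ ≤ A * B * H := by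
    refine t2.trans ((Real.rpow_le_rpow_of_exponent_le (one_le_mul_of_one_le_of_one_le hD1
      (le_max_left _ _)) (z := 1) ?_).trans ?_)
    · rw [div_le_one (by linarith)]
      linarith
    · rw [Real.rpow_one, Nat.cast_mul, mul_comm (B : ℝ)]
      gcongr
      refine max_le hH ((Matrix.norm_le_iff (by linarith)).mpr fun n p => ?_)
      simpa [Int.norm_eq_abs] using he n n.2 _ p.2.2 _ p.1.2
  refine ⟨fun a b => if h : a < A ∧ b < B then t (⟨b, h.2⟩, ⟨a, h.1⟩) else 0, ?_, ?_, ?_⟩
  · obtain ⟨p, hp⟩ := Function.ne_iff.mp t0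
    exact ⟨p.2, p.2.2, p.1, p.1.2, by simpa using hp⟩
  · intro a b
    beta_reduce
    split_ifs with h
    · exact le_trans (by simpa [Int.norm_eq_abs] using norm_le_pi_norm t _) t3
    · simp only [Int.cast_zero, abs_zero]
      positivity
  · intro n hn
    have := congrFun t1 ⟨n, hn⟩
    simp only [Matrix.mulVec, dotProduct, Matrix.of_apply, Pi.zero_apply, Fintype.sum_prod_type]
      at this
    rw [← this, sum_range]
    refine sum_congr rfl fun b _ => ?_
    rw [sum_range]
    refine sum_congr rfl fun a _ => ?_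
    simp [mul_comm]

lemma norm_pow_sub {x y : ℂ} {M : ℝ} (hM : 1 ≤ M) (hx : ‖x‖ ≤ M) (hy : ‖y‖ ≤ M) (b : ℕ) :
    ‖x ^ b - y ^ b‖ ≤ b * ‖x - y‖ * M ^ b := by
  induction b with
  | zero => simp
  | succ b ih =>
    have e : x ^ (b + 1) - y ^ (b + 1) = x * (x ^ b - y ^ b) + (x - y) * y ^ b := by ring
    rw [e]
    calc _ ≤ M * (b * ‖x - y‖ * M ^ b) + ‖x - y‖ * M ^ (b + 1) := by
          refine (norm_add_le _ _).trans ?_
          rw [norm_mul, norm_mul, norm_pow]
          gcongr
          exact (pow_le_pow_left₀ (norm_nonneg _) hy b).trans (pow_le_pow_right₀ hM (by omega))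
      _ = _ := by
          push_cast
          ring

lemma lead_int {A : ℕ} (c : ℕ → ℤ) (h : ∑ a ∈ range A, monomial a (c a : ℂ) ≠ 0) :
    (∑ a ∈ range A, monomial a (c a : ℂ)).natDegree < A ∧
      1 ≤ ‖(∑ a ∈ range A, monomial a (c a : ℂ)).leadingCoeff‖ := by
  have h1 := leadingCoeff_ne_zero.mpr h
  unfold leadingCoeff at h1 ⊢
  generalize (∑ a ∈ range A, monomial a (c a : ℂ)).natDegree = d at *
  simp only [finsetSum_coeff, coeff_monomial, sum_ite_eq', mem_range] at h1 ⊢
  split_ifs at h1 ⊢ with hd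
  · refine ⟨hd, ?_⟩
    rw [Complex.norm_intCast]
    exact_mod_cast Int.one_le_abs (by exact_mod_cast h1)
  · exact absurd rfl h1

/-- The number of points per unit of degree in the second extrapolation. -/
def j₁ (T : ℕ) : ℕ := 11 * 2 ^ (22 * T) + 12

/-- The exponent of the required precision. -/
def Γ (T : ℕ) : ℕ := 11 + 2 * T * j₁ T + 11 * 2 ^ (22 * T)

lemma window {T : ℕ} (hT : 1 ≤ T) {W h α V ε : ℝ} {k A : ℕ} {f f' : ℂ → ℂ}
    (hW : ((22 * T : ℕ) : ℝ) * 2 ^ (22 * T) ≤ W) (hh1 : ((22 * T : ℕ) : ℝ) + 2 ≤ h)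
    (hh2 : (16 * h / W) ^ T * W ≤ 1) (hk1 : 22 * T ≤ k) (hk2 : (k : ℝ) ≤ 2 * W) (hA : 1 ≤ A)
    (hα1 : 1 / 10 ≤ α) (hα2 : α ≤ 1 / 5)
    (hf : ∀ z ∈ ball (W : ℂ) (3 * W / 4), HasDerivAt f (f' z) z)
    (hf' : ∀ z ∈ ball (W : ℂ) (3 * W / 4),
      k * (z * (z - 1) * f' z) = (z ^ 2 - 3 * z + 3) * f z)
    (hf1 : ∀ z ∈ closedBall (W : ℂ) (W / 2), 1 ≤ ‖f z‖ ∧ ‖f z‖ ≤ V)
    (hV : V ^ (22 * T) ≤ W ^ A) (hε0 : 0 ≤ ε) (hε : 4 * ε * (W ^ A) ^ Γ T ≤ 1)
    (N : Finset ℕ) (w : ℕ → ℝ) (m : ℕ → ℤ)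
    (hw : ∀ n ∈ N, W ≤ w n ∧ w n ≤ W + h ∧ (n : ℝ) = α * w n ^ 2 + 1 / 24 ∧
      ‖f (w n) - m n‖ ≤ ε) : #N < A * T * j₁ T := by
  classical
  by_contra hN
  rw [not_lt] at hN
  obtain ⟨B, hB⟩ : ∃ B, B = 22 * T := ⟨_, rfl⟩
  have hj : j₁ T = 11 * 2 ^ B + 12 := by rw [hB, j₁]
  have hΓ : Γ T = 11 + 2 * T * j₁ T + 11 * 2 ^ B := by rw [hB, Γ]
  rw [← hB] at hW hh1 hk1 hV
  have hB1 : (22 : ℝ) ≤ B := by exact_mod_cast (by omega : 22 ≤ B)
  have hB2 : (1 : ℝ) ≤ 2 ^ B := one_le_pow₀ (by norm_num)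
  have hBW : (B : ℝ) ≤ W := (le_mul_of_one_le_right (by linarith) hB2).trans hW
  have hW1 : 22 ≤ W := hB1.trans hBW
  have hW0 : 0 < W := by linarith
  have hh0 : 0 < h := by linarith
  have hh3 : h ≤ W / 16 := by
    have e1 : (16 * h / W) ^ T ≤ 1 :=
      (le_mul_of_one_le_right (by positivity) (by linarith)).trans hh2
    rw [pow_le_one_iff_of_nonneg (by positivity) (by omega), div_le_one hW0] at e1
    linarith
  obtain ⟨L, hL⟩ : ∃ L, L = W ^ A := ⟨_, rfl⟩
  have hWL : W ≤ L := hL ▸ le_self_pow₀ (by linarith) (by omega)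
  have hL1 : 1 ≤ L := by linarith
  have hL0 : 0 < L := by linarith
  have h10 : (10 : ℝ) ^ A ≤ L := hL ▸ pow_le_pow_left₀ (by norm_num) (by linarith) A
  have hAL : (A : ℝ) ≤ L := by
    refine le_trans ?_ h10
    exact_mod_cast (Nat.lt_pow_self (by norm_num)).le
  have hL2 : (W ^ 2) ^ A = L ^ 2 := by rw [hL, ← pow_mul, ← pow_mul, mul_comm]
  rw [← hL] at hV hε
  have hεe : ∀ e ≤ Γ T, L ^ e * ε ≤ 1 / 4 := fun e he => by
    have := mul_le_mul_of_nonneg_right (pow_le_pow_right₀ hL1 he) hε0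
    linarith
  have hε1 : ε ≤ 1 := by
    have := hεe 0 (Nat.zero_le _)
    rw [pow_zero] at this
    linarith
  have hV1 : 1 ≤ V := by
    have := hf1 W (mem_closedBall_self (by positivity))
    exact this.1.trans this.2
  have hVb : ∀ b < B, V ^ b ≤ L := fun b hb => (pow_le_pow_right₀ hV1 hb.le).trans hV
  have hVb2 : ∀ b < B, (2 * V) ^ b ≤ 2 ^ B * L := fun b hb => by
    rw [mul_pow]
    exact mul_le_mul (pow_le_pow_right₀ (by norm_num) hb.le) (hVb b hb) (by positivity)
      (by positivity)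
  obtain ⟨x, hx⟩ : ∃ x : ℂ[X], x = C (α : ℂ) * X ^ 2 + C 0 * X + C (1 / 24) := ⟨_, rfl⟩
  have hα0 : (α : ℂ) ≠ 0 := by exact_mod_cast (by linarith : α ≠ 0)
  have hx1 : x.natDegree = 2 := hx ▸ natDegree_quadratic hα0
  have hx2 : x.leadingCoeff = α := hx ▸ leadingCoeff_quadratic hα0
  have hx3 : ∀ z, x.eval z = α * z ^ 2 + 1 / 24 := fun z => by simp [hx]
  have hz : ∀ z ∈ closedBall (W : ℂ) (W / 2), ‖z‖ ≤ 3 * W / 2 := fun z hz => by
    have := norm_le_norm_add_norm_sub' z (W : ℂ)
    rw [norm_real, Real.norm_of_nonneg hW0.le] at this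
    linarith [mem_closedBall_iff_norm.mp hz]
  have hxz : ∀ z ∈ closedBall (W : ℂ) (W / 2), ∀ a < A, ‖x.eval z‖ ^ a ≤ L ^ 2 :=
    fun z hz' a ha => by
      have e1 : ‖x.eval z‖ ≤ W ^ 2 := by
        rw [hx3]
        refine (norm_add_le _ _).trans ?_
        rw [norm_mul, norm_pow, norm_real, Real.norm_of_nonneg (by linarith)]
        have e2 : α * ‖z‖ ^ 2 ≤ 1 / 5 * (3 * W / 2) ^ 2 := by
          gcongr
          exact hz z hz'
        have e3 : ‖(1 / 24 : ℂ)‖ = 1 / 24 := by simp
        nlinarith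
      exact (pow_le_pow_left₀ (norm_nonneg _) e1 a).trans
        (hL2 ▸ pow_le_pow_right₀ (by nlinarith) ha.le)
  have hsub : closedBall (W : ℂ) h ⊆ closedBall (W : ℂ) (W / 2) :=
    closedBall_subset_closedBall (by linarith)
  have hwm : ∀ n ∈ N, (w n : ℂ) ∈ closedBall (W : ℂ) h := fun n hn => by
    rw [mem_closedBall_iff_norm, ← ofReal_sub, norm_real, Real.norm_eq_abs, abs_le]
    obtain ⟨e1, e2, -⟩ := hw n hn
    constructor <;> linarith
  have hwx : ∀ n ∈ N, x.eval (w n : ℂ) = n := fun n hn => by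
    have := congrArg (fun t : ℝ => (t : ℂ)) (hw n hn).2.2.1
    rw [hx3]
    simpa using this.symm
  have hm : ∀ n ∈ N, ‖(m n : ℂ)‖ ≤ 2 * V := fun n hn => by
    have := norm_le_norm_add_norm_sub (f (w n)) (m n : ℂ)
    linarith [(hw n hn).2.2.2, (hf1 _ (hsub (hwm n hn))).2]
  have hj11 : 11 ≤ j₁ T := by omega
  obtain ⟨N₀, hN₀, hN₀'⟩ := exists_subset_card_eq
    ((Nat.mul_le_mul_left (A * T) hj11).trans hN)
  obtain ⟨c, c0, c1, c2⟩ := siegel N₀ (A := A) (B := B) (fun n a b => (n : ℤ) ^ a * m n ^ b)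
    (H := L ^ 2 * (2 ^ B * L)) (one_le_mul_of_one_le_of_one_le (one_le_pow₀ hL1)
      (one_le_mul_of_one_le_of_one_le hB2 hL1))
    (fun n hn a ha b hb => by
      have e1 := hxz _ (hsub (hwm n (hN₀ hn))) a ha
      have e2 := (pow_le_pow_left₀ (norm_nonneg _) (hm n (hN₀ hn)) b).trans (hVb2 b hb)
      rw [hwx n (hN₀ hn), Complex.norm_natCast] at e1
      rw [Complex.norm_intCast] at e2
      push_cast
      rw [abs_mul, abs_pow, abs_pow, Nat.abs_cast]
      exact mul_le_mul e1 e2 (by positivity) (by positivity))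
    (by rw [hN₀']; positivity) (by rw [hN₀', hB]; exact le_of_eq (by ring))
  have c3 : ∀ a b, ‖(c a b : ℂ)‖ ≤ L ^ 5 := fun a b => by
    rw [Complex.norm_intCast]
    calc _ ≤ _ := c1 a b
      _ = A * (B * 2 ^ B) * L ^ 3 := by ring
      _ ≤ L * L * L ^ 3 := by gcongr; linarith
      _ = _ := by ring
  obtain ⟨Q, hQ⟩ : ∃ Q : ℕ → ℂ[X],
    Q = fun b => (∑ a ∈ range A, monomial a (c a b : ℂ)).comp x := ⟨_, rfl⟩
  have hQ1 : ∀ b z, (Q b).eval z = ∑ a ∈ range A, (c a b : ℂ) * x.eval z ^ a := fun b z => by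
    simp [hQ, eval_finsetSum]
  have hQ2 : ∀ b, ∀ z ∈ closedBall (W : ℂ) (W / 2), ‖(Q b).eval z‖ ≤ L ^ 8 := fun b z hz' => by
    rw [hQ1]
    calc _ ≤ ∑ a ∈ range A, L ^ 5 * L ^ 2 := norm_sum_le_of_le _ fun a ha => by
          rw [norm_mul, norm_pow]
          exact mul_le_mul (c3 a b) (hxz z hz' a (mem_range.mp ha)) (by positivity) (by positivity)
      _ = A * L ^ 7 := by
          rw [sum_const, card_range, nsmul_eq_mul]
          ring
      _ ≤ L * L ^ 7 := by gcongr
      _ = _ := by ring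
  obtain ⟨G, hG⟩ : ∃ G : ℂ → ℂ, G = fun z => ∑ b ∈ range B, (Q b).eval z * f z ^ b := ⟨_, rfl⟩
  obtain ⟨Z, hZ⟩ : ∃ Z : ℕ → ℤ,
    Z = fun n : ℕ => ∑ b ∈ range B, ∑ a ∈ range A, c a b * ((n : ℤ) ^ a * m n ^ b) := ⟨_, rfl⟩
  have hG1 : DifferentiableOn ℂ G (ball (W : ℂ) (3 * W / 4)) := fun z hz' => by
    rw [hG]
    exact (DifferentiableAt.fun_sum fun b _ => ((Q b).differentiable z).mul
      ((hf z hz').differentiableAt.pow b)).differentiableWithinAt
  have hG2 : ∀ z ∈ closedBall (W : ℂ) (W / 2), ‖G z‖ ≤ L ^ 10 := fun z hz' => by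
    rw [hG]
    calc _ ≤ ∑ b ∈ range B, L ^ 8 * L := norm_sum_le_of_le _ fun b hb => by
          rw [norm_mul, norm_pow]
          exact mul_le_mul (hQ2 b z hz') ((pow_le_pow_left₀ (norm_nonneg _) (hf1 z hz').2 b).trans
            (hVb b (mem_range.mp hb))) (by positivity) (by positivity)
      _ = B * L ^ 9 := by
          rw [sum_const, card_range, nsmul_eq_mul]
          ring
      _ ≤ L * L ^ 9 := by gcongr; linarith
      _ = _ := by ring
  have hG3 : ∀ n ∈ N, ‖G (w n) - Z n‖ ≤ L ^ 11 * ε := fun n hn => by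
    have e1 : G (w n) - Z n = ∑ b ∈ range B, (Q b).eval (w n : ℂ) * (f (w n) ^ b - m n ^ b) := by
      simp only [hG, hZ, mul_sub, sum_sub_distrib]
      congr 1
      push_cast
      refine sum_congr rfl fun b _ => ?_
      rw [hQ1, hwx n hn, sum_mul]
      exact sum_congr rfl fun a _ => by ring
    rw [e1]
    calc _ ≤ ∑ b ∈ range B, L ^ 8 * (B * ε * (2 ^ B * L)) := norm_sum_le_of_le _ fun b hb => by
          rw [norm_mul]
          refine mul_le_mul (hQ2 b _ (hsub (hwm n hn))) ((norm_pow_sub (M := 2 * V) (by linarith)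
            (by linarith [(hf1 _ (hsub (hwm n hn))).2]) (hm n hn) b).trans ?_) (by positivity)
            (by positivity)
          gcongr
          · exact (mem_range.mp hb).le
          · exact (hw n hn).2.2.2
          · exact hVb2 b (mem_range.mp hb)
      _ = B * (B * 2 ^ B) * L ^ 9 * ε := by
          rw [sum_const, card_range, nsmul_eq_mul]
          ring
      _ ≤ L * L * L ^ 9 * ε := by gcongr <;> linarith
      _ = _ := by ring
  have hsp : ∀ n ∈ N, ∀ n' ∈ N, n ≠ n' → 1 / W ≤ |w n - w n'| := fun n hn n' hn' hne => by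
    obtain ⟨e1, e2, e3, -⟩ := hw n hn
    obtain ⟨e4, e5, e6, -⟩ := hw n' hn'
    have e7 : (1 : ℝ) ≤ |(n : ℝ) - n'| := by
      have := Int.one_le_abs (z := (n : ℤ) - n') (by omega)
      exact_mod_cast this
    have e8 : (n : ℝ) - n' = (w n - w n') * (α * (w n + w n')) := by
      rw [e3, e6]
      ring
    rw [e8, abs_mul, abs_of_nonneg (a := α * _) (by nlinarith)] at e7
    rw [div_le_iff₀ hW0]
    refine e7.trans (mul_le_mul_of_nonneg_left ?_ (abs_nonneg _))
    nlinarith
  have hex : ∀ (j : ℕ) (N' : Finset ℕ), N' ⊆ N → #N' = A * T * j → (∀ n ∈ N', Z n = 0) →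
      ∀ z ∈ closedBall (W : ℂ) h, ‖G z‖ ≤ L ^ (11 + 2 * T * j) * ε + L ^ 10 / L ^ j := by
    intro j N' h1 h2 h3 z hz'
    have e1 := extrap (c := W) (R := W / 2) (R' := 3 * W / 4) (h := h) (s := 1 / W) hh0
      (by linarith) (by linarith) (by positivity) (N'.image fun n => (w n : ℂ)) G (L ^ 11 * ε)
      (L ^ 10) (by positivity) hG1 (fun z hz => hG2 z (sphere_subset_closedBall hz))
      (fun y hy => by
        obtain ⟨n, hn, rfl⟩ := mem_image.mp hy
        exact hwm n (h1 hn))
      (fun y hy y' hy' hne => by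
        obtain ⟨n, hn, rfl⟩ := mem_image.mp hy
        obtain ⟨n', hn', rfl⟩ := mem_image.mp hy'
        rw [← ofReal_sub, norm_real]
        exact hsp n (h1 hn) n' (h1 hn') fun e => hne (by rw [e]))
      (fun y hy => by
        obtain ⟨n, hn, rfl⟩ := mem_image.mp hy
        simpa [h3 n hn] using hG3 n (h1 hn)) z hz'
    rw [card_image_of_injOn (fun n hn n' hn' e => by
      by_contra hne
      have := hsp n (h1 hn) n' (h1 hn') hne
      rw [ofReal_inj.mp e, sub_self, abs_zero] at this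
      exact absurd this (not_le.mpr (by positivity))), h2] at e1
    have e2 : (1 + 4 * h / (1 / W)) ^ (A * T * j) ≤ L ^ (2 * T * j) := by
      calc _ ≤ (W ^ 2) ^ (A * T * j) := by
            gcongr
            rw [div_div_eq_mul_div, div_one]
            nlinarith
        _ = _ := by
            rw [hL, ← pow_mul, ← pow_mul]
            congr 1
            ring
    have e3 : (4 * h / (W / 2 - h)) ^ (A * T * j) ≤ 1 / L ^ j := by
      calc _ ≤ (16 * h / W) ^ (A * T * j) := by
            refine pow_le_pow_left₀ (div_nonneg (by positivity) (by linarith)) ?_ _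
            rw [div_le_div_iff₀ (by linarith) hW0]
            nlinarith
        _ = ((16 * h / W) ^ T) ^ (A * j) := by
            rw [← pow_mul]
            congr 1
            ring
        _ ≤ (1 / W) ^ (A * j) := by
            gcongr
            rwa [le_div_iff₀ hW0]
        _ = _ := by rw [hL, one_div_pow, pow_mul]
    calc _ ≤ _ := e1
      _ ≤ L ^ 11 * ε * L ^ (2 * T * j) + L ^ 10 * (1 / L ^ j) := by gcongr
      _ = _ := by ring
  have hZ0 : ∀ n ∈ N, Z n = 0 := fun n hn => by
    have e1 := hex 11 N₀ hN₀ hN₀' (fun n hn => by rw [hZ]; exact c2 n hn) _ (hwm n hn)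
    have e2 := hG3 n hn
    have e3 := hεe (11 + 2 * T * 11) (by
      rw [hΓ]
      have := Nat.mul_le_mul_left (2 * T) hj11
      omega)
    have e4 := hεe 11 (by omega)
    have e5 : L ^ 10 / L ^ 11 ≤ 1 / 4 := by
      rw [div_le_iff₀ (by positivity), pow_succ L 10]
      nlinarith [pow_pos hL0 10]
    have e6 := norm_le_norm_add_norm_sub (G (w n)) (Z n : ℂ)
    rw [Complex.norm_intCast] at e6
    have e7 : |(Z n : ℝ)| < 1 := by linarith
    exact Int.abs_lt_one_iff.mp (by exact_mod_cast e7)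
  obtain ⟨N₁, hN₁, hN₁'⟩ := exists_subset_card_eq hN
  have hη := hex _ N₁ hN₁ hN₁' fun n hn => hZ0 n (hN₁ hn)
  obtain ⟨S, hS⟩ : ∃ S, S = (range B).filter
    fun b => ∑ a ∈ range A, monomial a (c a b : ℂ) ≠ 0 := ⟨_, rfl⟩
  have hS1 : 0 < #S := by
    obtain ⟨a, ha, b, hb, hc⟩ := c0
    refine card_pos.mpr ⟨b, hS ▸ mem_filter.mpr ⟨mem_range.mpr hb, fun e => hc ?_⟩⟩
    have := congrArg (fun p => p.coeff a) e
    simpa [finsetSum_coeff, coeff_monomial, ha] using this
  have hS2 : #S ≤ B := hS ▸ (card_filter_le _ _).trans (card_range B).le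
  obtain ⟨s, hs⟩ : ∃ s, #S = s + 1 := ⟨#S - 1, by omega⟩
  have hb1 : ball (W : ℂ) h ⊆ closedBall (W : ℂ) (W / 2) := ball_subset_closedBall.trans hsub
  have hb2 : ball (W : ℂ) h ⊆ ball (W : ℂ) (3 * W / 4) := ball_subset_ball (by linarith)
  have key := elim (c := W) (R := h) (U := 4 * W ^ 2) (k := k) (by omega) (u := X ^ 2 - X)
    (ρ := X ^ 2 - C 3 * X + C 3) (by monicity!)
    (by
      rw [show (X ^ 2 - X : ℂ[X]).degree = 2 by compute_degree!,
        show (X ^ 2 - C 3 * X + C 3 : ℂ[X]).degree = 2 by compute_degree!])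
    (f := f) (f' := f') (fun z hz => hf z (hb2 hz))
    (fun z hz => by
      simp only [eval_sub, eval_pow, eval_X, eval_add, eval_mul, eval_C]
      linear_combination hf' z (hb2 hz))
    (fun z hz => (hf1 z (hb1 hz)).1) (by positivity)
    (fun z hz' => by
      simp only [eval_sub, eval_pow, eval_X]
      have e1 := hz z (hb1 hz')
      have e2 := norm_sub_le (z ^ 2) z
      rw [norm_pow] at e2
      nlinarith [norm_nonneg z])
    (fun z hz' => by
      simp only [eval_sub, eval_pow, eval_X, eval_add, eval_mul, eval_C]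
      have e1 := hz z (hb1 hz')
      have e2 := (norm_add_le (z ^ 2 - 3 * z) 3).trans (add_le_add_left (norm_sub_le _ _) _)
      simp only [norm_pow, norm_mul, Complex.norm_ofNat] at e2
      nlinarith [norm_nonneg z])
    s S Q h (L ^ 11) _ hs
    (fun b hb => by
      have := mem_range.mp (mem_filter.mp (hS ▸ hb)).1
      omega)
    (by
      have : (s : ℝ) ≤ B := by exact_mod_cast (by omega : s ≤ B)
      linarith) le_rfl (by positivity)
    (fun b hb => by
      rw [hS] at hb
      obtain ⟨e1, e2⟩ := lead_int (fun a => c a b) (mem_filter.mp hb).2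
      rw [hQ, leadingCoeff_comp (by omega), hx2, norm_mul, norm_pow, norm_real,
        Real.norm_of_nonneg (by linarith)]
      have e3 : (1 / 10 : ℝ) ^ A ≤
          α ^ (∑ a ∈ range A, monomial a (c a b : ℂ)).natDegree :=
        (pow_le_pow_of_le_one (by norm_num) (by norm_num) e1.le).trans
          (pow_le_pow_left₀ (by norm_num) hα1 _)
      have e4 : 1 / L ≤ (1 / 10 : ℝ) ^ A := by
        rw [one_div_pow]
        exact one_div_le_one_div_of_le (by positivity) h10
      calc (k : ℝ) ≤ L ^ 2 := by nlinarith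
        _ ≤ L ^ 10 := pow_le_pow_right₀ hL1 (by norm_num)
        _ = L ^ 11 * (1 * (1 / L)) := by field_simp
        _ ≤ _ := by
            gcongr
            exact e4.trans e3)
    (fun b _ z hz' => by
      calc _ ≤ L ^ 3 * L ^ 8 := by
            refine mul_le_mul ?_ (hQ2 b z (hb1 hz')) (norm_nonneg _) (by positivity)
            calc 3 * (4 * W ^ 2) ≤ W * W ^ 2 := by nlinarith
              _ ≤ L * L ^ 2 := by gcongr
              _ = _ := by ring
        _ = _ := by ring)
    (fun z hz' => by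
      refine le_of_eq_of_le ?_ (hη z (ball_subset_closedBall hz'))
      rw [hG, hS, sum_filter_of_ne]
      intro b _ hb e
      refine hb ?_
      rw [hQ]
      beta_reduce
      rw [e, zero_comp, eval_zero, zero_mul])
  have e1 : (L ^ 11) ^ 2 ^ (s + 1) ≤ L ^ (11 * 2 ^ B) := by
    rw [← pow_mul]
    exact pow_le_pow_right₀ hL1 (Nat.mul_le_mul_left _ (Nat.pow_le_pow_right (by norm_num)
      (by omega)))
  have e2 : (L ^ (11 + 2 * T * j₁ T) * ε + L ^ 10 / L ^ j₁ T) * L ^ (11 * 2 ^ B) =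
      L ^ Γ T * ε + 1 / L ^ 2 := by
    rw [hΓ, hj]
    field_simp
    ring
  have e3 := key.trans (mul_le_mul_of_nonneg_left e1 (by positivity))
  have e4 := hεe _ le_rfl
  have e5 : 1 / L ^ 2 ≤ 1 / 4 := one_div_le_one_div_of_le (by norm_num) (by nlinarith)
  have e6 : (1 : ℝ) ≤ k * L ^ 11 := one_le_mul_of_one_le_of_one_le
    (by exact_mod_cast (by omega : 1 ≤ k)) (one_le_pow₀ hL1)
  linarith

end Pool.Agent.MP_ed4d7b_nt

end MrgPart1

-- marker of a merged file
example : 731051 + 850220 = 731051 + 850220 := rfl
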