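import Mathlib.Tactic.Monotonicity.Lemmas
import Mathlib.Analysis.Complex.ExponentialBounds
import Mathlib.Analysis.Complex.HasPrimitives
import Mathlib.Analysis.Real.Pi.Bounds
import Mathlib.Combinatorics.Enumerative.Partition.Glaisher
import Mathlib.RingTheory.PiTensorProduct
import Mathlib.NumberTheory.Harmonic.Bounds
import Mathlib.NumberTheory.ModularForms.Discriminant
import Pool.Agent.MP_ed4d7b_nt.Window

-- ======== part 0: formerly Pool.Agent.MP_ed4d7b_nt.Gen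
section MrgPart0

set_option autoImplicit false

/-! The partition number as a contour integral of the reciprocal Euler product. -/

namespace Pool.Agent.MP_ed4d7b_nt

open Finset Complex Filter Topology
open scoped Real

/-- The number of partitions of `n`. -/
def P (n : ℕ) : ℕ := Fintype.card (Nat.Partition n)

/-- The Euler product. -/
noncomputable def E (q : ℂ) : ℂ := ∏' i : ℕ, (1 - q ^ (i + 1))

/-- The finite Euler product. -/
noncomputable def EN (N : ℕ) (q : ℂ) : ℂ := ∏ i ∈ range N, (1 - q ^ (i + 1))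

open PowerSeries PowerSeries.WithPiTopology in
lemma formal (N : ℕ) :
    (PowerSeries.mk fun n => (#(Nat.Partition.restricted n (· ≤ N)) : ℂ)) *
      ∏ i ∈ range N, (1 - X ^ (i + 1)) = 1 := by
  have h := Nat.Partition.hasProd_powerSeriesMk_card_restricted ℂ (· ≤ N)
  have h2 : HasProd (fun i : ℕ => if i + 1 ≤ N then ∑' j : ℕ, (X : ℂ⟦X⟧) ^ ((i + 1) * j) else 1)
      (∏ i ∈ range N, if i + 1 ≤ N then ∑' j : ℕ, (X : ℂ⟦X⟧) ^ ((i + 1) * j) else 1) :=
    hasProd_prod_of_ne_finset_one (fun b hb => by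
      rw [if_neg]
      simpa using hb)
  rw [h.unique h2, ← prod_mul_distrib]
  refine prod_eq_one fun i hi => ?_
  rw [if_pos (by simpa using hi)]
  simp_rw [pow_mul]
  exact tsum_pow_mul_one_sub_of_constantCoeff_eq_zero (by simp)

lemma card_restricted {n N : ℕ} (h : n ≤ N) :
    #(Nat.Partition.restricted n (· ≤ N)) = P n := by
  unfold Nat.Partition.restricted P
  rw [filter_true_of_mem, card_univ]
  intro x _ i hi
  refine le_trans ?_ h
  rw [← x.parts_sum]
  exact Multiset.single_le_sum (by simp) i hi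

lemma poly_identity (n N : ℕ) : ∃ (r : ℕ → ℂ) (R : Polynomial ℂ),
    r n = (#(Nat.Partition.restricted n (· ≤ N)) : ℂ) ∧
    ∀ q : ℂ, (∑ j ∈ range (n + 1), r j * q ^ j) * EN N q = 1 + q ^ (n + 1) * R.eval q := by
  set r : ℕ → ℂ := fun n => (#(Nat.Partition.restricted n (· ≤ N)) : ℂ) with hr
  set A : Polynomial ℂ := ∑ j ∈ range (n + 1), Polynomial.monomial j (r j) with hA
  set B : Polynomial ℂ := ∏ i ∈ range N, (1 - Polynomial.X ^ (i + 1)) with hB
  have hBc : (B : PowerSeries ℂ) = ∏ i ∈ range N, (1 - PowerSeries.X ^ (i + 1)) := by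
    rw [hB, ← Polynomial.coeToPowerSeries.ringHom_apply, map_prod]
    simp
  have h1 : (PowerSeries.X : PowerSeries ℂ) ^ (n + 1) ∣ (A : PowerSeries ℂ) - PowerSeries.mk r := by
    rw [PowerSeries.X_pow_dvd_iff]
    intro m hm
    simp only [map_sub, Polynomial.coeff_coe, PowerSeries.coeff_mk, hA, Polynomial.finsetSum_coeff,
      Polynomial.coeff_monomial]
    rw [sum_ite_eq' , if_pos (by simpa using hm), sub_self]
  have h2 : (PowerSeries.X : PowerSeries ℂ) ^ (n + 1) ∣ ((A * B - 1 : Polynomial ℂ) : PowerSeries ℂ) := by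
    have : ((A * B - 1 : Polynomial ℂ) : PowerSeries ℂ) =
        ((A : PowerSeries ℂ) - PowerSeries.mk r) * B := by
      rw [sub_mul, hBc, formal N, ← hBc]
      simp
    rw [this]
    exact h1.mul_right _
  have h3 : (Polynomial.X : Polynomial ℂ) ^ (n + 1) ∣ A * B - 1 := by
    rw [Polynomial.X_pow_dvd_iff]
    intro d hd
    rw [← Polynomial.coeff_coe]
    exact PowerSeries.X_pow_dvd_iff.mp h2 d hd
  obtain ⟨R, hR⟩ := h3
  refine ⟨r, R, rfl, fun q => ?_⟩
  have := congrArg (Polynomial.eval q) hR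
  simp only [hA, hB, Polynomial.eval_sub, Polynomial.eval_mul, Polynomial.eval_finsetSum,
    Polynomial.eval_monomial, Polynomial.eval_prod, Polynomial.eval_one, Polynomial.eval_pow,
    Polynomial.eval_X] at this
  unfold EN
  linear_combination this

lemma one_sub_pow_ne {q : ℂ} (hq : ‖q‖ < 1) (i : ℕ) : 1 - q ^ (i + 1) ≠ 0 := by
  intro h
  have h1 : ‖q ^ (i + 1)‖ < 1 := by
    rw [norm_pow]
    exact pow_lt_one₀ (norm_nonneg _) hq (by omega)
  rw [← sub_eq_zero.mp h] at h1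
  simp at h1

lemma EN_ne {q : ℂ} (hq : ‖q‖ < 1) (N : ℕ) : EN N q ≠ 0 :=
  prod_ne_zero_iff.mpr fun i _ => one_sub_pow_ne hq i

lemma E_ne {q : ℂ} (hq : ‖q‖ < 1) : E q ≠ 0 := by
  refine tprod_one_add_ne_zero_of_summable (f := fun n => -q ^ (n + 1)) ?_ ?_
  · exact fun i => by simpa [sub_eq_add_neg] using one_sub_pow_ne hq i
  · simpa using (summable_nat_add_iff 1).mpr (summable_geometric_of_lt_one (norm_nonneg _) hq)

lemma EN_tendsto {q : ℂ} (hq : ‖q‖ < 1) : Tendsto (fun N => EN N q) atTop (𝓝 (E q)) :=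
  (ModularForm.multipliable_one_sub_pow hq).hasProd.tendsto_prod_nat

lemma E_diff : DifferentiableOn ℂ E (Metric.ball 0 1) :=
  ModularForm.differentiableOn_tprod_one_sub_pow

lemma norm_exp_neg (σ y : ℝ) : ‖cexp (-(σ + y * I))‖ = Real.exp (-σ) := by
  simp [norm_exp]

lemma norm_exp_neg_lt {z : ℂ} (hz : 0 < z.re) : ‖cexp (-z)‖ < 1 := by
  rw [norm_exp, Real.exp_lt_one_iff]
  simpa using hz

lemma int_exp (σ : ℝ) (c : ℤ) :
    ∫ y in (-π)..π, cexp (c * (σ + y * I)) = if c = 0 then (2 * π : ℂ) else 0 := by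
  split_ifs with h
  · simp [h, two_mul]
  · have h1 : ∀ y : ℝ, cexp (c * (σ + y * I)) = cexp (c * σ) * cexp ((c * I) * y) := by
      intro y
      rw [← exp_add]
      congr 1
      ring
    simp_rw [h1]
    rw [intervalIntegral.integral_const_mul, integral_exp_mul_complex (by simp [h])]
    have h2 : cexp (c * I * (π : ℝ)) = cexp (c * I * (-π : ℝ)) := by
      rw [exp_eq_exp_iff_exists_int]
      exact ⟨c, by push_cast; ring⟩
    rw [h2]
    simp

lemma int_zero {H : ℂ → ℂ} (hH : DifferentiableOn ℂ H (Metric.ball 0 1)) {σ : ℝ} (hσ : 0 < σ) :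
    ∫ y in (-π)..π, cexp (-(σ + y * I)) * H (cexp (-(σ + y * I))) = 0 := by
  obtain ⟨Φ, hΦ⟩ := hH.isExactOn_ball
  have hm : ∀ y : ℝ, cexp (-(σ + y * I)) ∈ Metric.ball (0 : ℂ) 1 := fun y => by
    rw [mem_ball_zero_iff]
    exact norm_exp_neg_lt (by simpa using hσ)
  have hd : ∀ y : ℝ, HasDerivAt (fun y : ℝ => I * Φ (cexp (-(σ + y * I))))
      (cexp (-(σ + y * I)) * H (cexp (-(σ + y * I)))) y := by
    intro y
    have h1 : HasDerivAt (fun w : ℂ => cexp (-(σ + w * I))) (cexp (-(σ + y * I)) * (-I)) y := by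
      have := (((hasDerivAt_id (y : ℂ)).mul_const I).const_add (σ : ℂ)).neg.cexp
      simpa using this
    have h2 := (((hΦ _ (hm y)).comp (y : ℂ) h1).const_mul I).comp_ofReal
    refine h2.congr_deriv ?_
    linear_combination (-(cexp (-(σ + y * I)) * H (cexp (-(σ + y * I))))) * I_mul_I
  rw [intervalIntegral.integral_eq_sub_of_hasDerivAt (fun y _ => hd y)]
  · have : cexp (-(σ + (π : ℝ) * I)) = cexp (-(σ + (-π : ℝ) * I)) := by
      rw [exp_eq_exp_iff_exists_int]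
      exact ⟨-1, by push_cast; ring⟩
    rw [this, sub_self]
  · refine Continuous.intervalIntegrable (Continuous.mul (by fun_prop) ?_) _ _
    exact hH.continuousOn.comp_continuous (by fun_prop) hm

lemma int_EN {n N : ℕ} (h : n ≤ N) {σ : ℝ} (hσ : 0 < σ) :
    ∫ y in (-π)..π, cexp (n * (σ + y * I)) / EN N (cexp (-(σ + y * I))) = 2 * π * P n := by
  obtain ⟨r, R, hr, hR⟩ := poly_identity n N
  rw [card_restricted h] at hr
  have hH : DifferentiableOn ℂ (fun q => R.eval q / EN N q) (Metric.ball 0 1) := by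
    refine DifferentiableOn.div R.differentiable.differentiableOn ?_
      fun q hq => EN_ne (by simpa using hq) N
    unfold EN
    fun_prop
  have hm : ∀ y : ℝ, ‖cexp (-(σ + y * I))‖ < 1 := fun y => norm_exp_neg_lt (by simpa using hσ)
  have h1 : ∀ y : ℝ, cexp (n * (σ + y * I)) / EN N (cexp (-(σ + y * I))) =
      (∑ j ∈ range (n + 1), r j * cexp (((n - j : ℤ) : ℂ) * (σ + y * I))) -
        cexp (-(σ + y * I)) * (R.eval (cexp (-(σ + y * I))) / EN N (cexp (-(σ + y * I)))) := by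
    intro y
    set z : ℂ := σ + y * I
    have e1 : (∑ j ∈ range (n + 1), r j * cexp (((n - j : ℤ) : ℂ) * z)) =
        cexp (n * z) * ∑ j ∈ range (n + 1), r j * cexp (-z) ^ j := by
      rw [mul_sum]
      refine sum_congr rfl fun j _ => ?_
      rw [← exp_nat_mul, mul_left_comm, ← exp_add]
      congr 2
      push_cast
      ring
    have e2 : cexp (n * z) * cexp (-z) ^ (n + 1) = cexp (-z) := by
      rw [← exp_nat_mul, ← exp_add]
      congr 1
      push_cast
      ring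
    have e3 := hR (cexp (-z))
    have e4 : EN N (cexp (-z)) ≠ 0 := EN_ne (hm y) N
    rw [e1]
    field_simp
    linear_combination (-cexp (n * z)) * e3 - (R.eval (cexp (-z))) * e2
  simp_rw [h1]
  rw [intervalIntegral.integral_sub, int_zero hH hσ, intervalIntegral.integral_finsetSum, sub_zero]
  · simp_rw [intervalIntegral.integral_const_mul, int_exp]
    rw [sum_eq_single n]
    · simp [hr, mul_comm]
    · intro j _ hj
      rw [if_neg (by omega), mul_zero]
    · simp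
  · exact fun j _ => Continuous.intervalIntegrable (by fun_prop) _ _
  · exact Continuous.intervalIntegrable (by fun_prop) _ _
  · refine Continuous.intervalIntegrable (Continuous.mul (by fun_prop) ?_) _ _
    exact hH.continuousOn.comp_continuous (by fun_prop) fun y => by simpa using hm y

lemma factor_le {u : ℂ} (hu : ‖u‖ < 1) :
    1 - ‖u‖ ≤ ‖1 - u‖ * Real.exp (u.re - ‖u‖) := by
  have h1 := (Complex.hasSum_taylorSeries_neg_log hu).mapL Complex.reCLM
  have h2 := (Complex.hasSum_taylorSeries_neg_log (z := (‖u‖ : ℂ)) (by simpa using hu)).mapL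
    Complex.reCLM
  have h3 := le_hasSum (h2.sub h1) 1 (fun j _ => by
    have : (u ^ j / j).re ≤ ‖u‖ ^ j / j := by
      refine (re_le_norm _).trans (le_of_eq ?_)
      simp
    have e : ((‖u‖ : ℂ) ^ j / j).re = ‖u‖ ^ j / j := by
      rw [← ofReal_pow, ← ofReal_natCast, ← ofReal_div, ofReal_re]
    simp only [reCLM_apply, e]
    linarith)
  have hp : 0 < 1 - ‖u‖ := by linarith
  have hn : 0 < ‖1 - u‖ := by
    have := one_sub_pow_ne hu 0
    simpa using this
  have e : ‖1 - (‖u‖ : ℂ)‖ = 1 - ‖u‖ := by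
    rw [← ofReal_one, ← ofReal_sub, norm_real, Real.norm_of_nonneg hp.le]
  simp only [reCLM_apply, neg_re, log_re, e, pow_one, Nat.cast_one, div_one, ofReal_re] at h3
  calc 1 - ‖u‖ = Real.exp (Real.log (1 - ‖u‖)) := (Real.exp_log hp).symm
    _ ≤ Real.exp (Real.log ‖1 - u‖ + (u.re - ‖u‖)) := Real.exp_le_exp.mpr (by linarith)
    _ = _ := by rw [Real.exp_add, Real.exp_log hn]

lemma EN_le {q : ℂ} (hq : ‖q‖ < 1) (N : ℕ) :
    ‖EN N (‖q‖ : ℂ)‖ ≤ ‖EN N q‖ *
      Real.exp (∑ i ∈ range N, ((q ^ (i + 1)).re - ‖q‖ ^ (i + 1))) := by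
  unfold EN
  rw [norm_prod, norm_prod, Real.exp_sum, ← prod_mul_distrib]
  refine prod_le_prod (fun _ _ => norm_nonneg _) fun i _ => ?_
  have h1 : ‖q ^ (i + 1)‖ < 1 := by
    rw [norm_pow]
    exact pow_lt_one₀ (norm_nonneg _) hq (by omega)
  have h2 := factor_le h1
  rw [norm_pow] at h1 h2
  rw [← ofReal_pow, ← ofReal_one, ← ofReal_sub, norm_real, Real.norm_of_nonneg (by linarith)]
  exact h2

lemma E_le {q : ℂ} (hq : ‖q‖ < 1) :
    ‖E (‖q‖ : ℂ)‖ ≤ ‖E q‖ * Real.exp ((q / (1 - q)).re - ‖q‖ / (1 - ‖q‖)) := by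
  have h1 : HasSum (fun i : ℕ => q ^ (i + 1)) (q / (1 - q)) := by
    have := (hasSum_geometric_of_norm_lt_one hq).mul_left q
    simpa [pow_succ', div_eq_mul_inv] using this
  have h2 : HasSum (fun i : ℕ => ‖q‖ ^ (i + 1)) (‖q‖ / (1 - ‖q‖)) := by
    have := (hasSum_geometric_of_lt_one (norm_nonneg q) hq).mul_left ‖q‖
    simpa [pow_succ', div_eq_mul_inv] using this
  have h3 := ((h1.mapL Complex.reCLM).sub h2).tendsto_sum_nat
  refine le_of_tendsto_of_tendsto' (EN_tendsto (q := (‖q‖ : ℂ)) (by simpa using hq)).norm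
    ((EN_tendsto hq).norm.mul ((Real.continuous_exp.tendsto _).comp h3)) fun N => EN_le hq N

/-- The integrand of the circle method. -/
noncomputable def F (n : ℕ) (z : ℂ) : ℂ := cexp (n * z) / E (cexp (-z))

lemma F_diff (n : ℕ) {z : ℂ} (hz : 0 < z.re) : DifferentiableAt ℂ (F n) z := by
  have h1 : DifferentiableAt ℂ E (cexp (-z)) :=
    E_diff.differentiableAt (Metric.isOpen_ball.mem_nhds (by simpa using norm_exp_neg_lt hz))
  have h2 : DifferentiableAt ℂ (fun z => E (cexp (-z))) z :=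
    h1.comp z (f := fun z => cexp (-z)) (by fun_prop)
  exact DifferentiableAt.div (by fun_prop) h2 (E_ne (norm_exp_neg_lt hz))

theorem int_F (n : ℕ) {σ : ℝ} (hσ : 0 < σ) :
    ∫ y in (-π)..π, F n (σ + y * I) = 2 * π * P n := by
  have hm : ∀ y : ℝ, ‖cexp (-(σ + y * I))‖ < 1 := fun y => norm_exp_neg_lt (by simpa using hσ)
  have hr : ‖((Real.exp (-σ) : ℝ) : ℂ)‖ < 1 := by
    rw [norm_real, Real.norm_of_nonneg (Real.exp_pos _).le, Real.exp_lt_one_iff]
    linarith
  have hE : 0 < ‖E (Real.exp (-σ) : ℝ)‖ := norm_pos_iff.mpr (E_ne hr)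
  have hev : ∀ᶠ N in atTop, ‖E (Real.exp (-σ) : ℝ)‖ / 2 < ‖EN N (Real.exp (-σ) : ℝ)‖ :=
    (EN_tendsto hr).norm.eventually (lt_mem_nhds (by linarith))
  have h := intervalIntegral.tendsto_integral_filter_of_dominated_convergence
    (μ := MeasureTheory.volume) (a := -π) (b := π) (l := atTop)
    (F := fun (N : ℕ) (y : ℝ) => cexp (n * (σ + y * I)) / EN N (cexp (-(σ + y * I))))
    (f := fun y : ℝ => F n (σ + y * I))
    (fun _ => Real.exp (n * σ) / (‖E (Real.exp (-σ) : ℝ)‖ / 2))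
    (Eventually.of_forall fun N => by
      refine Continuous.aestronglyMeasurable (Continuous.div (by fun_prop) ?_ fun y => EN_ne (hm y) N)
      unfold EN
      fun_prop)
    (hev.mono fun N hN => Eventually.of_forall fun y _ => by
      have h1 := EN_le (hm y) N
      rw [norm_exp_neg] at h1
      have h2 : Real.exp (∑ i ∈ range N, ((cexp (-(σ + y * I)) ^ (i + 1)).re -
          Real.exp (-σ) ^ (i + 1))) ≤ 1 := by
        rw [Real.exp_le_one_iff]
        refine sum_nonpos fun i _ => ?_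
        have := re_le_norm (cexp (-(σ + y * I)) ^ (i + 1))
        rw [norm_pow, norm_exp_neg] at this
        linarith
      have h3 := mul_le_mul_of_nonneg_left h2 (norm_nonneg (EN N (cexp (-(σ + y * I)))))
      rw [norm_div, norm_exp]
      refine div_le_div₀ (Real.exp_pos _).le (le_of_eq (by simp)) (by linarith) (by linarith))
    intervalIntegrable_const
    (Eventually.of_forall fun y _ => tendsto_const_nhds.div (EN_tendsto (hm y)) (E_ne (hm y)))
  refine tendsto_nhds_unique h (tendsto_const_nhds.congr' ?_)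
  filter_upwards [eventually_ge_atTop n] with N hN
  exact (int_EN hN hσ).symm

end Pool.Agent.MP_ed4d7b_nt

end MrgPart0

-- ======== part 1: formerly Pool.Agent.MP_ed4d7b_nt.Mod
section MrgPart1

set_option autoImplicit false

/-! The modular transformation of the Euler product and the two local estimates. -/

namespace Pool.Agent.MP_ed4d7b_nt

open Finset Complex Filter Topology
open scoped Real

lemma eta_eq (τ : ℂ) : ModularForm.eta τ = cexp (2 * π * I * τ / 24) * E (cexp (2 * π * I * τ)) := by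
  unfold ModularForm.eta E
  simp_rw [ModularForm.eta_q_eq_pow]
  simp [Function.Periodic.qParam]

lemma re_polar (t θ : ℝ) : ((t : ℂ) * cexp (θ * I)).re = t * Real.cos θ := by
  simp [exp_ofReal_mul_I_re]

lemma re_div_polar (c : ℝ) {t : ℝ} (ht : 0 < t) (θ : ℝ) :
    (c : ℂ) / (t * cexp (θ * I)) = ((c / t : ℝ) : ℂ) * cexp ((-θ : ℝ) * I) := by
  have h1 : (t : ℂ) ≠ 0 := by exact_mod_cast ht.ne'
  push_cast
  rw [neg_mul, exp_neg]
  field_simp

lemma E_trans {t θ : ℝ} (ht : 0 < t) (hθ : |θ| < π / 2) :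
    (E (cexp (-(t * cexp (θ * I)))))⁻¹ = (√(t / (2 * π)) : ℝ) * cexp (θ / 2 * I) *
      cexp (((π ^ 2 / 6 : ℝ) : ℂ) / (t * cexp (θ * I)) - t * cexp (θ * I) / 24) *
      (E (cexp (-(((4 * π ^ 2 : ℝ) : ℂ) / (t * cexp (θ * I))))))⁻¹ := by
  obtain ⟨h1, h2⟩ := abs_lt.mp hθ
  have hc : 0 < Real.cos θ := Real.cos_pos_of_mem_Ioo ⟨h1, h2⟩
  have hπ := Real.pi_pos
  have hπ' : (π : ℂ) ≠ 0 := by exact_mod_cast hπ.ne'
  have hz1 := re_polar t θ
  have hz2 : (((4 * π ^ 2 : ℝ) : ℂ) / (t * cexp (θ * I))).re = 4 * π ^ 2 / t * Real.cos θ := by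
    rw [re_div_polar _ ht, re_polar, Real.cos_neg]
  have hτ : I * (t * cexp (θ * I)) / (2 * π) =
      cexp ((Real.log (t / (2 * π)) : ℝ) + ((θ + π / 2 : ℝ) : ℂ) * I) := by
    rw [exp_add, ← ofReal_exp, Real.exp_log (by positivity)]
    push_cast
    rw [add_mul, exp_add, exp_pi_div_two_mul_I]
    ring
  have hs1 : sqrt (I * (t * cexp (θ * I)) / (2 * π)) =
      (√(t / (2 * π)) : ℝ) * cexp (θ / 2 * I) * cexp (π / 4 * I) := by
    rw [hτ, sqrt_eq_exp (exp_ne_zero _), log_exp (by simp; linarith) (by simp; linarith),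
      Real.sqrt_eq_rpow, Real.rpow_def_of_pos (by positivity), ofReal_exp, ← exp_add, ← exp_add]
    congr 1
    push_cast
    ring
  have hs2 : sqrt I = cexp (π / 4 * I) := by
    rw [sqrt_eq_exp I_ne_zero, log_I]
    congr 1
    ring
  generalize (t : ℂ) * cexp (θ * I) = z at *
  have hzre : 0 < z.re := by rw [hz1]; positivity
  have hz0 : z ≠ 0 := fun h => by simp [h] at hzre
  have him : I * z / (2 * π) ∈ UpperHalfPlane.upperHalfPlaneSet := by
    have : I * z / (2 * π) = ((1 / (2 * π) : ℝ) : ℂ) * (I * z) := by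
      push_cast
      ring
    show 0 < (I * z / (2 * π)).im
    rw [this, im_ofReal_mul]
    simp only [I_mul_im]
    positivity
  have h := ModularForm.eta_comp_eq_csqrt_I_inv him
  simp only [Function.comp_apply, Pi.smul_apply, Pi.mul_apply, smul_eq_mul, eta_eq, hs1, hs2] at h
  have e1 : 2 * π * I * (I * z / (2 * π)) = -z := by
    field_simp
    simp
  have e2 : 2 * π * I * (-1 / (I * z / (2 * π))) = -(((4 * π ^ 2 : ℝ) : ℂ) / z) := by
    push_cast
    field_simp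
    ring
  rw [e1, e2] at h
  have n1 := E_ne (norm_exp_neg_lt hzre)
  have n2 := E_ne (norm_exp_neg_lt (z := ((4 * π ^ 2 : ℝ) : ℂ) / z) (by rw [hz2]; positivity))
  have e3 : cexp (((π ^ 2 / 6 : ℝ) : ℂ) / z - z / 24) * cexp (-(((4 * π ^ 2 : ℝ) : ℂ) / z) / 24) =
      cexp (-z / 24) := by
    rw [← exp_add]
    congr 1
    push_cast
    ring
  have n3 := exp_ne_zero (π / 4 * I)
  have n4 := exp_ne_zero (-(((4 * π ^ 2 : ℝ) : ℂ) / z) / 24)
  rw [← e3] at h
  field_simp at h ⊢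
  rw [h]

lemma inv_E_near : ∃ C δ : ℝ, 0 < C ∧ 0 < δ ∧ ∀ q : ℂ, ‖q‖ < δ → ‖(E q)⁻¹ - 1‖ ≤ C * ‖q‖ := by
  have h0 : E 0 = 1 := by simp [E]
  have h1 : DifferentiableAt ℂ (fun q => (E q)⁻¹) 0 :=
    (E_diff.differentiableAt (Metric.isOpen_ball.mem_nhds (by simp))).inv (by simp [h0])
  obtain ⟨C, hC, h2⟩ := h1.isBigO_sub.exists_pos
  obtain ⟨δ, hδ, h3⟩ := Metric.eventually_nhds_iff.mp h2.bound
  refine ⟨C, δ, hC, hδ, fun q hq => ?_⟩
  simpa [h0] using h3 (y := q) (by simpa using hq)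

lemma gain {t y : ℝ} (ht : 0 < t) (ht1 : t ≤ 1 / 10) (hy : 3 * t / 5 ≤ |y|) (hy' : |y| ≤ π) :
    (cexp (-(((4 * t / 5 : ℝ) : ℂ) + y * I)) / (1 - cexp (-(((4 * t / 5 : ℝ) : ℂ) + y * I)))).re -
      Real.exp (-(4 * t / 5)) / (1 - Real.exp (-(4 * t / 5))) ≤ -(0.19 / t) := by
  have hn := norm_exp_neg (4 * t / 5) y
  have hre : (cexp (-(((4 * t / 5 : ℝ) : ℂ) + y * I))).re = Real.exp (-(4 * t / 5)) * Real.cos y := by
    rw [exp_re]
    simp
  generalize cexp (-(((4 * t / 5 : ℝ) : ℂ) + y * I)) = q at *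
  have hr1 : Real.exp (-(4 * t / 5)) < 1 := by
    rw [Real.exp_lt_one_iff]
    linarith
  have hr2 := Real.add_one_le_exp (-(4 * t / 5))
  generalize Real.exp (-(4 * t / 5)) = r at *
  have hsq : q.re ^ 2 + q.im ^ 2 = r ^ 2 := by
    rw [← hn, Complex.sq_norm, normSq_apply]
    ring
  have hcos := Real.cos_le_one_sub_mul_cos_sq hy'
  have hpi : π ^ 2 ≤ 10 := by nlinarith [Real.pi_lt_d2, Real.pi_pos]
  have h5 : 1 / 5 ≤ 2 / π ^ 2 := by
    rw [div_le_div_iff₀ (by norm_num) (by positivity)]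
    linarith
  have hy2 : 9 / 25 * t ^ 2 ≤ y ^ 2 := by
    rw [← sq_abs y]
    nlinarith
  have hc : 9 / 125 * t ^ 2 ≤ 1 - Real.cos y := by nlinarith [sq_nonneg y]
  obtain ⟨v, hv⟩ : ∃ v, v = r - q.re := ⟨_, rfl⟩
  have hv1 : 0.0648 * t ^ 2 ≤ v := by
    have : v = r * (1 - Real.cos y) := by rw [hv, hre]; ring
    rw [this]
    nlinarith [sq_nonneg t]
  obtain ⟨u, hu⟩ : ∃ u, u = 1 - r := ⟨_, rfl⟩
  have hu0 : 0 < u := by linarith
  have hu1 : u ≤ 4 * t / 5 := by linarith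
  have hv0 : 0 < v := lt_of_lt_of_le (by positivity) hv1
  have e1 : (q / (1 - q)).re = (r - v - r ^ 2) / (u ^ 2 + 2 * v) := by
    have e : normSq (1 - q) = u ^ 2 + 2 * v := by
      rw [normSq_apply, hu, hv]
      simp
      linarith
    rw [div_re, e, ← add_div, hv]
    congr 1
    simp
    linarith
  have e2 : (r - v - r ^ 2) / (u ^ 2 + 2 * v) - r / u = -(v * (1 + r) / (u * (u ^ 2 + 2 * v))) := by
    have : r = 1 - u := by linarith
    rw [this]
    field_simp
    ring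
  rw [e1, ← hu, e2, neg_le_neg_iff, div_le_div_iff₀ ht (by positivity)]
  have h6 : u * (u ^ 2 + 2 * v) ≤ 4 * t / 5 * ((4 * t / 5) ^ 2 + 2 * v) := by gcongr
  have h7 : v * 1.9 * t ≤ v * (1 + r) * t := by
    gcongr
    linarith
  nlinarith [mul_le_mul_of_nonneg_left hv1 ht.le]

end Pool.Agent.MP_ed4d7b_nt

end MrgPart1

-- ======== part 2: formerly Pool.Agent.MP_ed4d7b_nt.HR
section MrgPart2

set_option autoImplicit false

/-! The Hardy-Ramanujan formula with an exponentially small relative error. -/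

namespace Pool.Agent.MP_ed4d7b_nt

open Finset Filter Topology MeasureTheory
open scoped Real

lemma gauss_tail {b s : ℝ} (hb : 0 < b) (hs : 0 ≤ s) :
    |(∫ x in (-s)..s, Real.exp (-b * x ^ 2)) - √(π / b)| ≤
      Real.exp (-(b / 2) * s ^ 2) * √(π / (b / 2)) := by
  have hi := integrable_exp_neg_mul_sq hb
  have hi2 := (integrable_exp_neg_mul_sq (half_pos hb)).const_mul (Real.exp (-(b / 2) * s ^ 2))
  have h1 := integral_add_compl (s := Set.Ioc (-s) s) measurableSet_Ioc hi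
  rw [integral_gaussian, ← intervalIntegral.integral_of_le (by linarith)] at h1
  have h2 : 0 ≤ ∫ x in (Set.Ioc (-s) s)ᶜ, Real.exp (-b * x ^ 2) :=
    integral_nonneg fun x => (Real.exp_pos _).le
  have h3 : ∫ x in (Set.Ioc (-s) s)ᶜ, Real.exp (-b * x ^ 2) ≤
      ∫ x in (Set.Ioc (-s) s)ᶜ, Real.exp (-(b / 2) * s ^ 2) * Real.exp (-(b / 2) * x ^ 2) := by
    refine setIntegral_mono_on hi.integrableOn hi2.integrableOn measurableSet_Ioc.compl
      fun x hx => ?_
    rw [← Real.exp_add, Real.exp_le_exp]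
    have : s ^ 2 ≤ x ^ 2 := by
      simp only [Set.mem_compl_iff, Set.mem_Ioc, not_and_or, not_lt, not_le] at hx
      rcases hx with h | h <;> nlinarith
    nlinarith
  have h4 := setIntegral_le_integral (s := (Set.Ioc (-s) s)ᶜ) hi2
    (Eventually.of_forall fun x => by positivity)
  rw [integral_const_mul (μ := volume), integral_gaussian] at h4
  rw [abs_sub_comm, abs_of_nonneg (by linarith)]
  linarith

/-- The half opening of the major arc. -/
noncomputable def θ₀ : ℝ := Real.arccos (4 / 5)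

lemma cos_θ₀ : Real.cos θ₀ = 4 / 5 := Real.cos_arccos (by norm_num) (by norm_num)

lemma sin_θ₀ : Real.sin θ₀ = 3 / 5 := by
  unfold θ₀
  rw [Real.sin_arccos, show (1 : ℝ) - (4 / 5) ^ 2 = (3 / 5) ^ 2 by norm_num,
    Real.sqrt_sq (by norm_num)]

lemma θ₀_pos : 0 < θ₀ := Real.arccos_pos.mpr (by norm_num)

lemma θ₀_lt : θ₀ < π / 2 := Real.arccos_lt_pi_div_two.mpr (by norm_num)

lemma cos_ge {θ : ℝ} (h : |θ| ≤ θ₀) : 4 / 5 ≤ Real.cos θ := by
  rw [← cos_θ₀, ← Real.cos_abs θ]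
  exact Real.cos_le_cos_of_nonneg_of_le_pi (abs_nonneg _) (by linarith [θ₀_lt, Real.pi_pos]) h

lemma sin_sq_half (x : ℝ) : Real.sin (x / 2) ^ 2 = 1 / 2 - Real.cos x / 2 := by
  rw [Real.sin_sq_eq_half_sub, mul_div_cancel₀ _ two_ne_zero]

lemma gauss_part {μ : ℝ} (hμ : 1 ≤ μ) :
    |(∫ θ in (-θ₀)..θ₀, Real.cos (3 * (θ / 2)) * Real.exp (μ * Real.cos θ)) -
      2 * Real.exp μ * (1 - 1 / μ) * √(π / (2 * μ))| ≤ 8 * Real.exp (0.9 * μ) := by
  have hμ0 : 0 < μ := by linarith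
  set s := Real.sin (θ₀ / 2) with hs
  have hs2 : s ^ 2 = 1 / 10 := by
    rw [hs, sin_sq_half, cos_θ₀]
    norm_num
  have hs0 : 0 ≤ s := Real.sin_nonneg_of_nonneg_of_le_pi (by linarith [θ₀_pos])
    (by linarith [θ₀_lt, Real.pi_pos])
  have hs1 : s ≤ 1 := Real.sin_le_one _
  have h1 := intervalIntegral.integral_comp_mul_deriv (a := -θ₀) (b := θ₀)
    (f := fun θ => Real.sin (θ / 2)) (f' := fun θ => Real.cos (θ / 2) * (1 / 2))
    (g := fun x => 2 * Real.exp μ * ((1 - 4 * x ^ 2) * Real.exp (-(2 * μ) * x ^ 2)))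
    (fun θ _ => ((hasDerivAt_id θ).div_const 2).sin) (by fun_prop) (by fun_prop)
  have h2 : ∀ θ : ℝ, Real.cos (3 * (θ / 2)) * Real.exp (μ * Real.cos θ) =
      ((fun x => 2 * Real.exp μ * ((1 - 4 * x ^ 2) * Real.exp (-(2 * μ) * x ^ 2))) ∘
        fun θ => Real.sin (θ / 2)) θ * (Real.cos (θ / 2) * (1 / 2)) := by
    intro θ
    have e1 : μ * Real.cos θ = μ + -(2 * μ) * Real.sin (θ / 2) ^ 2 := by
      rw [sin_sq_half]
      ring
    have e2 := Real.sin_sq_add_cos_sq (θ / 2)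
    simp only [Function.comp_apply]
    rw [e1, Real.exp_add, Real.cos_three_mul]
    linear_combination (4 * Real.cos (θ / 2) * Real.exp μ *
      Real.exp (-(2 * μ) * Real.sin (θ / 2) ^ 2)) * e2
  simp_rw [h2]
  rw [h1, neg_div, Real.sin_neg, ← hs, intervalIntegral.integral_const_mul]
  have h3 : ∫ x in (-s)..s, (1 - 4 * μ * x ^ 2) * Real.exp (-(2 * μ) * x ^ 2) =
      2 * s * Real.exp (-(2 * μ) * s ^ 2) := by
    rw [intervalIntegral.integral_eq_sub_of_hasDerivAt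
      (f := fun x => x * Real.exp (-(2 * μ) * x ^ 2))]
    · rw [neg_sq]
      ring
    · intro x _
      have := (hasDerivAt_id x).mul (((hasDerivAt_pow 2 x).const_mul (-(2 * μ))).exp)
      refine this.congr_deriv ?_
      simp
      ring
    · exact Continuous.intervalIntegrable (by fun_prop) _ _
  have h4 : ∫ x in (-s)..s, (1 - 4 * x ^ 2) * Real.exp (-(2 * μ) * x ^ 2) =
      (1 - 1 / μ) * (∫ x in (-s)..s, Real.exp (-(2 * μ) * x ^ 2)) +
        1 / μ * (2 * s * Real.exp (-(2 * μ) * s ^ 2)) := by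
    rw [← h3, ← intervalIntegral.integral_const_mul, ← intervalIntegral.integral_const_mul,
      ← intervalIntegral.integral_add (Continuous.intervalIntegrable (by fun_prop) _ _)
        (Continuous.intervalIntegrable (by fun_prop) _ _)]
    refine intervalIntegral.integral_congr fun x _ => ?_
    field_simp
    ring
  have h5 := gauss_tail (b := 2 * μ) (by linarith) hs0
  rw [h4]
  generalize (∫ x in (-s)..s, Real.exp (-(2 * μ) * x ^ 2)) = J at *
  rw [hs2] at h5 ⊢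
  have h6 : √(π / (2 * μ / 2)) ≤ 2 := by
    rw [Real.sqrt_le_iff, div_le_iff₀ (by positivity)]
    exact ⟨by norm_num, by nlinarith [Real.pi_lt_four]⟩
  have h7 : Real.exp (-(2 * μ) * (1 / 10)) ≤ Real.exp (-(2 * μ / 2) * (1 / 10)) :=
    Real.exp_le_exp.mpr (by linarith)
  have h8 : Real.exp (0.9 * μ) = Real.exp μ * Real.exp (-(2 * μ / 2) * (1 / 10)) := by
    rw [← Real.exp_add]
    congr 1
    ring
  have h9 : 1 / μ ≤ 1 := by rw [div_le_one hμ0]; exact hμ
  have h10 : 0 < 1 / μ := by positivity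
  have hA := Real.exp_pos (-(2 * μ) * (1 / 10))
  have hB := Real.exp_pos (-(2 * μ / 2) * (1 / 10))
  rw [h8]
  generalize Real.exp (-(2 * μ) * (1 / 10)) = A at *
  generalize Real.exp (-(2 * μ / 2) * (1 / 10)) = B at *
  generalize 1 / μ = ι at *
  have e : 2 * Real.exp μ * ((1 - ι) * J + ι * (2 * s * A)) -
      2 * Real.exp μ * (1 - ι) * √(π / (2 * μ)) =
      2 * Real.exp μ * ((1 - ι) * (J - √(π / (2 * μ))) + ι * (2 * s * A)) := by ring
  rw [e, abs_mul, abs_of_pos (by positivity)]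
  have h11 : |(1 - ι) * (J - √(π / (2 * μ))) + ι * (2 * s * A)| ≤ 4 * B := by
    refine (abs_add_le _ _).trans ?_
    rw [abs_mul, abs_of_nonneg (by linarith), abs_of_nonneg (a := ι * _) (by positivity)]
    have k1 : |J - √(π / (2 * μ))| ≤ 2 * B := by nlinarith
    have k2 : (1 - ι) * |J - √(π / (2 * μ))| ≤ 1 * (2 * B) := by
      gcongr
      linarith
    have k3 : ι * (2 * s * A) ≤ 1 * (2 * 1 * B) := by gcongr
    linarith
  nlinarith [Real.exp_pos μ]

open Complex in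
lemma shift (n : ℕ) {t : ℝ} (ht : 0 < t) :
    ∫ y in (-(3 * t / 5))..(3 * t / 5), F n (((4 * t / 5 : ℝ) : ℂ) + y * I) =
      ∫ θ in (-θ₀)..θ₀, F n (t * cexp (θ * I)) * (t * cexp (θ * I)) := by
  have hb : ∀ z ∈ Metric.ball ((2 * t : ℝ) : ℂ) (2 * t), 0 < z.re := fun z hz => by
    have h1 := abs_re_le_norm (z - ((2 * t : ℝ) : ℂ))
    rw [mem_ball_iff_norm] at hz
    have h2 := (abs_lt.mp (h1.trans_lt hz)).1
    simp only [sub_re, ofReal_re] at h2
    linarith
  have hd : DifferentiableOn ℂ (F n) (Metric.ball ((2 * t : ℝ) : ℂ) (2 * t)) :=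
    fun z hz => (F_diff n (hb z hz)).differentiableWithinAt
  obtain ⟨Φ, hΦ⟩ := hd.isExactOn_ball
  have hmem : ∀ z : ℂ, z.re ^ 2 + z.im ^ 2 < 4 * t * z.re →
      z ∈ Metric.ball ((2 * t : ℝ) : ℂ) (2 * t) := fun z hz => by
    rw [mem_ball_iff_norm, ← sq_lt_sq₀ (norm_nonneg _) (by positivity), Complex.sq_norm,
      normSq_apply]
    simp only [sub_re, ofReal_re, sub_im, ofReal_im]
    linarith
  have hFc : ∀ {g : ℝ → ℂ} {a b : ℝ}, Continuous g → (∀ x ∈ Set.uIcc a b, 0 < (g x).re) →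
      ContinuousOn (fun x => F n (g x)) (Set.uIcc a b) := fun hg h x hx =>
    ((F_diff n (h x hx)).continuousAt.comp hg.continuousAt).continuousWithinAt
  have habs : ∀ θ ∈ Set.uIcc (-θ₀) θ₀, |θ| ≤ θ₀ := fun θ h => by
    rw [Set.uIcc_of_le (by linarith [θ₀_pos])] at h
    exact abs_le.mpr h
  rw [intervalIntegral.integral_eq_sub_of_hasDerivAt
      (f := fun y : ℝ => -I * Φ (((4 * t / 5 : ℝ) : ℂ) + y * I)),
    intervalIntegral.integral_eq_sub_of_hasDerivAt
      (f := fun θ : ℝ => -I * Φ (t * cexp (θ * I)))]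
  · rw [exp_mul_I, exp_mul_I, ← ofReal_cos, ← ofReal_cos, ← ofReal_sin, ← ofReal_sin, Real.cos_neg,
      Real.sin_neg, cos_θ₀, sin_θ₀]
    congr 3 <;> push_cast <;> ring
  · intro θ hθ
    have h1 : HasDerivAt (fun w : ℂ => t * cexp (w * I)) (t * (cexp (θ * I) * I)) θ := by
      simpa using (((hasDerivAt_id (θ : ℂ)).mul_const I).cexp).const_mul (t : ℂ)
    have hm : (t : ℂ) * cexp (θ * I) ∈ Metric.ball ((2 * t : ℝ) : ℂ) (2 * t) := by
      refine hmem _ ?_
      have e1 : ((t : ℂ) * cexp (θ * I)).im = t * Real.sin θ := by simp [exp_ofReal_mul_I_im]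
      rw [re_polar, e1]
      have := cos_ge (habs θ hθ)
      have e2 : (t * Real.cos θ) ^ 2 + (t * Real.sin θ) ^ 2 = t ^ 2 := by
        linear_combination t ^ 2 * Real.sin_sq_add_cos_sq θ
      rw [e2]
      nlinarith [mul_pos ht ht]
    have h2 := (((hΦ _ hm).comp (θ : ℂ) h1).const_mul (-I)).comp_ofReal
    refine h2.congr_deriv ?_
    linear_combination (-(F n (t * cexp (θ * I)) * (t * cexp (θ * I)))) * I_mul_I
  · refine ContinuousOn.intervalIntegrable (ContinuousOn.mul (hFc (by fun_prop) fun θ hθ => ?_)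
      (by fun_prop))
    rw [re_polar]
    have := cos_ge (habs θ hθ)
    positivity
  · intro y hy
    rw [Set.uIcc_of_le (by linarith)] at hy
    have h1 : HasDerivAt (fun w : ℂ => ((4 * t / 5 : ℝ) : ℂ) + w * I) I y := by
      simpa using ((hasDerivAt_id (y : ℂ)).mul_const I).const_add ((4 * t / 5 : ℝ) : ℂ)
    have hm : ((4 * t / 5 : ℝ) : ℂ) + y * I ∈ Metric.ball ((2 * t : ℝ) : ℂ) (2 * t) := by
      refine hmem _ ?_
      simp only [add_re, ofReal_re, mul_re, I_re, mul_zero, ofReal_im, I_im, mul_one, sub_self,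
        add_zero, add_im, mul_im, zero_add]
      nlinarith [hy.1, hy.2, mul_pos ht ht]
    have h2 := (((hΦ _ hm).comp (y : ℂ) h1).const_mul (-I)).comp_ofReal
    refine h2.congr_deriv ?_
    linear_combination (-(F n (((4 * t / 5 : ℝ) : ℂ) + y * I))) * I_mul_I
  · refine ContinuousOn.intervalIntegrable (hFc (by fun_prop) fun y _ => ?_)
    simp only [add_re, ofReal_re, mul_re, I_re, mul_zero, ofReal_im, I_im, mul_one, sub_self,
      add_zero]
    positivity

open Complex in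
lemma norm_dual {t : ℝ} (ht : 0 < t) (θ : ℝ) :
    ‖cexp (-(((4 * π ^ 2 : ℝ) : ℂ) / (t * cexp (θ * I))))‖ =
      Real.exp (-(4 * π ^ 2 / t * Real.cos θ)) := by
  rw [norm_exp, neg_re, re_div_polar _ ht, re_polar, Real.cos_neg]

open Complex in
lemma F_polar {n : ℕ} {μ t θ : ℝ} (ht : 0 < t) (hθ : |θ| < π / 2) (h1 : π ^ 2 / 6 / t = μ / 2)
    (h2 : (n - 1 / 24) * t = μ / 2) :
    F n (t * cexp (θ * I)) * (t * cexp (θ * I)) =
      ((t * √(t / (2 * π)) * Real.exp (μ * Real.cos θ) : ℝ) : ℂ) * cexp ((3 * (θ / 2) : ℝ) * I) *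
      (E (cexp (-(((4 * π ^ 2 : ℝ) : ℂ) / (t * cexp (θ * I))))))⁻¹ := by
  unfold F
  rw [div_eq_mul_inv, E_trans ht hθ, re_div_polar _ ht, h1]
  have e1 : cexp (n * (t * cexp (θ * I))) *
      cexp (((μ / 2 : ℝ) : ℂ) * cexp ((-θ : ℝ) * I) - t * cexp (θ * I) / 24) =
      (Real.exp (μ * Real.cos θ) : ℝ) := by
    have h3 : ((n : ℂ) - 1 / 24) * t = μ / 2 := by
      have := congrArg (fun x : ℝ => (x : ℂ)) h2
      simpa using this
    rw [← exp_add, ofReal_exp]
    congr 1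
    push_cast
    linear_combination cexp (θ * I) * h3 - μ / 2 * two_cos (θ : ℂ)
  have e2 : cexp ((3 * (θ / 2) : ℝ) * I) = cexp (θ / 2 * I) * cexp (θ * I) := by
    rw [← exp_add]
    congr 1
    push_cast
    ring
  rw [e2, ofReal_mul (t * √(t / (2 * π))), ofReal_mul t, ← e1]
  ring

lemma sqrt_le_one' {t : ℝ} (ht : t ≤ 1) : √(t / (2 * π)) ≤ 1 := by
  rw [Real.sqrt_le_one, div_le_one (by positivity)]
  linarith [Real.pi_gt_three]

open Complex in
lemma vert_bound {C δ : ℝ} (hC : 0 < C) (hE : ∀ q : ℂ, ‖q‖ < δ → ‖(E q)⁻¹ - 1‖ ≤ C * ‖q‖)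
    {n : ℕ} {μ t y : ℝ} (ht : 0 < t) (ht1 : t ≤ 1 / 10) (hμ : 0 < μ) (h1 : π ^ 2 / 6 / t = μ / 2)
    (h2 : (n - 1 / 24) * t = μ / 2) (h3 : Real.exp (-μ) < δ) (h4 : C * Real.exp (-μ) ≤ 1)
    (hy : 3 * t / 5 ≤ |y|) (hy' : |y| ≤ π) :
    ‖F n (((4 * t / 5 : ℝ) : ℂ) + y * I)‖ ≤ 2 * Real.exp (0.97 * μ) := by
  have hσ : 0 < 4 * t / 5 := by positivity
  have hq := norm_exp_neg_lt (z := ((4 * t / 5 : ℝ) : ℂ) + y * I) (by simpa using ht)
  have g1 := E_le hq
  rw [norm_exp_neg] at g1 hq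
  have g2 := gain ht ht1 hy hy'
  have g3 := E_trans (θ := 0) hσ (by simpa using Real.pi_pos)
  have g4 := norm_dual hσ 0
  simp only [ofReal_zero, zero_mul, exp_zero, mul_one, zero_div, Real.cos_zero] at g3 g4
  have hπ : π ^ 2 = 3 * μ * t := by
    field_simp at h1
    linarith
  have hpi : π ^ 2 ≤ 10 := by nlinarith [Real.pi_lt_d2, Real.pi_pos]
  have g5 : Real.exp (-(4 * π ^ 2 / (4 * t / 5))) ≤ Real.exp (-μ) := by
    rw [Real.exp_le_exp, neg_le_neg_iff, le_div_iff₀ hσ, hπ]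
    nlinarith [mul_pos hμ ht]
  have g6 := hE _ (g4 ▸ g5.trans_lt h3)
  rw [g4] at g6
  have g7 : ‖(E (cexp (-(((4 * π ^ 2 : ℝ) : ℂ) / ((4 * t / 5 : ℝ) : ℂ)))))⁻¹‖ ≤ 2 := by
    have := norm_add_le ((E (cexp (-(((4 * π ^ 2 : ℝ) : ℂ) / ((4 * t / 5 : ℝ) : ℂ)))))⁻¹ - 1) 1
    rw [sub_add_cancel, norm_one] at this
    nlinarith
  have g8 : ‖E (Real.exp (-(4 * t / 5)) : ℝ)‖⁻¹ ≤
      1 * Real.exp (5 / 8 * μ - 4 * t / 5 / 24) * 2 := by
    rw [← norm_inv, ofReal_exp, ofReal_neg, g3, norm_mul, norm_mul, norm_exp, norm_real,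
      Real.norm_of_nonneg (Real.sqrt_nonneg _)]
    have e : (((π ^ 2 / 6 : ℝ) : ℂ) / ((4 * t / 5 : ℝ) : ℂ) - ((4 * t / 5 : ℝ) : ℂ) / 24).re =
        5 / 8 * μ - 4 * t / 5 / 24 := by
      rw [← ofReal_div, ← ofReal_ofNat 24, ← ofReal_div, ← ofReal_sub, ofReal_re, hπ]
      field_simp
      ring
    rw [e]
    gcongr
    exact sqrt_le_one' (by linarith)
  have hEr : 0 < ‖E (Real.exp (-(4 * t / 5)) : ℝ)‖ := norm_pos_iff.mpr (E_ne (by
    rwa [norm_real, Real.norm_of_nonneg (Real.exp_pos _).le]))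
  have hEq : 0 < ‖E (cexp (-(((4 * t / 5 : ℝ) : ℂ) + y * I)))‖ :=
    norm_pos_iff.mpr (E_ne (by rwa [norm_exp_neg]))
  have g9 : ‖E (cexp (-(((4 * t / 5 : ℝ) : ℂ) + y * I)))‖⁻¹ ≤
      ‖E (Real.exp (-(4 * t / 5)) : ℝ)‖⁻¹ * Real.exp (-(0.19 / t)) := by
    rw [inv_mul_eq_div, inv_eq_one_div, div_le_div_iff₀ hEq hEr, one_mul]
    exact g1.trans ((mul_le_mul_of_nonneg_left (Real.exp_le_exp.mpr g2) hEq.le).trans_eq
      (mul_comm _ _))
  have g10 : 0.057 * μ ≤ 0.19 / t := by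
    rw [le_div_iff₀ ht]
    linarith
  unfold F
  rw [norm_div, norm_exp, div_eq_mul_inv]
  have e : ((n : ℂ) * (((4 * t / 5 : ℝ) : ℂ) + y * I)).re = n * (4 * t / 5) := by simp
  rw [e]
  calc _ ≤ Real.exp (n * (4 * t / 5)) * (1 * Real.exp (5 / 8 * μ - 4 * t / 5 / 24) * 2 *
        Real.exp (-(0.19 / t))) := by
        gcongr
        exact g9.trans (by gcongr)
    _ = 2 * Real.exp (n * (4 * t / 5) + (5 / 8 * μ - 4 * t / 5 / 24) + -(0.19 / t)) := by
        rw [Real.exp_add, Real.exp_add]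
        ring
    _ ≤ _ := by
        gcongr
        linarith

open Complex in
lemma arc_bound {C δ : ℝ} (hC : 0 < C) (hE : ∀ q : ℂ, ‖q‖ < δ → ‖(E q)⁻¹ - 1‖ ≤ C * ‖q‖)
    {n : ℕ} {μ t : ℝ} (ht : 0 < t) (ht1 : t ≤ 1 / 10) (hμ : 0 < μ) (h1 : π ^ 2 / 6 / t = μ / 2)
    (h2 : (n - 1 / 24) * t = μ / 2) (h3 : Real.exp (-μ) < δ) :
    ‖(∫ θ in (-θ₀)..θ₀, F n (t * cexp (θ * I)) * (t * cexp (θ * I))) -
      ∫ θ in (-θ₀)..θ₀, ((t * √(t / (2 * π)) * Real.exp (μ * Real.cos θ) : ℝ) : ℂ) *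
        cexp ((3 * (θ / 2) : ℝ) * I)‖ ≤ C * π := by
  have habs : ∀ θ ∈ Set.uIcc (-θ₀) θ₀, |θ| ≤ θ₀ := fun θ h => by
    rw [Set.uIcc_of_le (by linarith [θ₀_pos])] at h
    exact abs_le.mpr h
  have hπ : π ^ 2 = 3 * μ * t := by
    field_simp at h1
    linarith
  rw [← intervalIntegral.integral_sub ?_ (Continuous.intervalIntegrable (by fun_prop) _ _)]
  · refine (intervalIntegral.norm_integral_le_of_norm_le_const (C := C) fun θ hθ => ?_).trans ?_
    · have hθ' := habs θ (Set.uIoc_subset_uIcc hθ)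
      have hc := cos_ge hθ'
      have g4 := norm_dual ht θ
      have g5 : Real.exp (-(4 * π ^ 2 / t * Real.cos θ)) ≤ Real.exp (-μ) := by
        have : 4 * π ^ 2 / t = 12 * μ := by
          rw [hπ]
          field_simp
          ring
        rw [Real.exp_le_exp, neg_le_neg_iff, this]
        nlinarith
      have g6 := hE _ (g4 ▸ g5.trans_lt h3)
      rw [g4] at g6
      rw [F_polar ht (hθ'.trans_lt θ₀_lt) h1 h2, ← mul_sub_one, norm_mul, norm_mul,
        norm_exp_ofReal_mul_I, mul_one, norm_real, Real.norm_of_nonneg (by positivity)]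
      calc _ ≤ 1 * 1 * Real.exp μ * (C * Real.exp (-μ)) := by
            gcongr
            · linarith
            · exact sqrt_le_one' (by linarith)
            · nlinarith [Real.cos_le_one θ]
            · exact g6.trans (by gcongr)
        _ = C := by
            rw [Real.exp_neg]
            field_simp
    · rw [abs_of_nonneg (by linarith [θ₀_pos])]
      gcongr
      linarith [θ₀_lt]
  · refine ContinuousOn.intervalIntegrable (ContinuousOn.mul (fun θ hθ => ?_) (by fun_prop))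
    refine ((F_diff n ?_).continuousAt.comp (f := fun θ : ℝ => (t : ℂ) * cexp (θ * I))
      (by fun_prop)).continuousWithinAt
    rw [re_polar]
    have := cos_ge (habs θ hθ)
    positivity

open Complex in
theorem hardy_ramanujan : ∃ c₀ K μ₀ : ℝ, 0 < c₀ ∧ 0 < K ∧ ∀ (n : ℕ) (μ : ℝ), μ₀ ≤ μ →
    μ ^ 2 = 2 * π ^ 2 / 3 * (n - 1 / 24) →
    |(P n : ℝ) - c₀ * (μ - 1) / μ ^ 3 * Real.exp μ| ≤ K * Real.exp (0.97 * μ) := by
  obtain ⟨C, δ, hC, hδ, hE⟩ := inv_E_near
  have hπ := Real.pi_pos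
  have ev : ∀ᶠ μ : ℝ in atTop, Real.exp (-μ) < min δ C⁻¹ :=
    Real.tendsto_exp_neg_atTop_nhds_zero.eventually (gt_mem_nhds (by positivity))
  obtain ⟨μ₁, hμ₁⟩ := eventually_atTop.mp ev
  refine ⟨π ^ 2 / 6 * √(π ^ 2 / 3) / π, C + 10, max μ₁ 40, by positivity, by positivity,
    fun n μ hμ hn => ?_⟩
  obtain ⟨h3, h4⟩ := lt_min_iff.mp (hμ₁ μ (le_of_max_le_left hμ))
  have h40 : 40 ≤ μ := le_of_max_le_right hμ
  have hμ0 : 0 < μ := by linarith
  have h4' : C * Real.exp (-μ) ≤ 1 := by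
    rw [← le_div_iff₀' hC, one_div]
    exact h4.le
  have hpi : π ^ 2 ≤ 10 := by nlinarith [Real.pi_lt_d2]
  obtain ⟨t, ht⟩ : ∃ t : ℝ, t = π ^ 2 / (3 * μ) := ⟨_, rfl⟩
  have ht0 : 0 < t := by rw [ht]; positivity
  have ht1 : t ≤ 1 / 10 := by
    rw [ht, div_le_iff₀ (by positivity)]
    linarith
  have h1 : π ^ 2 / 6 / t = μ / 2 := by
    rw [ht]
    field_simp
    ring
  have h2 : (n - 1 / 24) * t = μ / 2 := by
    rw [ht]
    field_simp
    linarith
  have hI : ∀ a b : ℝ, IntervalIntegrable (fun y : ℝ => F n (((4 * t / 5 : ℝ) : ℂ) + y * I))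
      volume a b := fun a b => by
    refine Continuous.intervalIntegrable (continuous_iff_continuousAt.mpr fun y => ?_) _ _
    exact (F_diff n (by simpa using ht0)).continuousAt.comp
      (f := fun y : ℝ => ((4 * t / 5 : ℝ) : ℂ) + y * I) (by fun_prop)
  have k0 := int_F n (σ := 4 * t / 5) (by positivity)
  rw [← intervalIntegral.integral_add_adjacent_intervals (hI _ (-(3 * t / 5))) (hI _ _),
    ← intervalIntegral.integral_add_adjacent_intervals (hI (-(3 * t / 5)) (3 * t / 5)) (hI _ _),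
    shift n ht0] at k0
  have hy0 : 3 * t / 5 ≤ π := by linarith [Real.pi_gt_three]
  have k1 : ‖∫ y in (-π)..(-(3 * t / 5)), F n (((4 * t / 5 : ℝ) : ℂ) + y * I)‖ ≤
      2 * Real.exp (0.97 * μ) * π := by
    refine (intervalIntegral.norm_integral_le_of_norm_le_const (C := 2 * Real.exp (0.97 * μ))
      fun y hy => ?_).trans ?_
    · rw [Set.uIoc_of_le (by linarith)] at hy
      exact vert_bound hC hE ht0 ht1 hμ0 h1 h2 h3 h4'
        (by rw [abs_of_nonpos (by linarith [hy.2])]; linarith [hy.2])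
        (by rw [abs_of_nonpos (by linarith [hy.2])]; linarith [hy.1])
    · rw [abs_of_nonneg (by linarith)]
      gcongr
      linarith
  have k2 : ‖∫ y in (3 * t / 5)..π, F n (((4 * t / 5 : ℝ) : ℂ) + y * I)‖ ≤
      2 * Real.exp (0.97 * μ) * π := by
    refine (intervalIntegral.norm_integral_le_of_norm_le_const (C := 2 * Real.exp (0.97 * μ))
      fun y hy => ?_).trans ?_
    · rw [Set.uIoc_of_le (by linarith)] at hy
      exact vert_bound hC hE ht0 ht1 hμ0 h1 h2 h3 h4'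
        (by rw [abs_of_nonneg (by linarith [hy.1])]; linarith [hy.1])
        (by rw [abs_of_nonneg (by linarith [hy.1])]; linarith [hy.2])
    · rw [abs_of_nonneg (by linarith)]
      gcongr
      linarith
  have k3 := arc_bound hC hE ht0 ht1 hμ0 h1 h2 h3
  have k4 : (∫ θ in (-θ₀)..θ₀, ((t * √(t / (2 * π)) * Real.exp (μ * Real.cos θ) : ℝ) : ℂ) *
      cexp ((3 * (θ / 2) : ℝ) * I)).re = t * √(t / (2 * π)) *
      ∫ θ in (-θ₀)..θ₀, Real.cos (3 * (θ / 2)) * Real.exp (μ * Real.cos θ) := by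
    rw [← reCLM_apply, ← ContinuousLinearMap.intervalIntegral_comp_comm _
      (Continuous.intervalIntegrable (by fun_prop) _ _), ← intervalIntegral.integral_const_mul]
    refine intervalIntegral.integral_congr fun θ _ => ?_
    simp only [reCLM_apply, re_polar]
    ring
  have k5 := gauss_part (μ := μ) (by linarith)
  generalize (∫ θ in (-θ₀)..θ₀, Real.cos (3 * (θ / 2)) * Real.exp (μ * Real.cos θ)) = G at *
  generalize (∫ θ in (-θ₀)..θ₀, ((t * √(t / (2 * π)) * Real.exp (μ * Real.cos θ) : ℝ) : ℂ) *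
      cexp ((3 * (θ / 2) : ℝ) * I)) = M at *
  generalize (∫ θ in (-θ₀)..θ₀, F n (t * cexp (θ * I)) * (t * cexp (θ * I))) = A at *
  generalize (∫ y in (3 * t / 5)..π, F n (((4 * t / 5 : ℝ) : ℂ) + y * I)) = V₂ at *
  generalize (∫ y in (-π)..(-(3 * t / 5)), F n (((4 * t / 5 : ℝ) : ℂ) + y * I)) = V₁ at *
  have k6 : |2 * π * P n - t * √(t / (2 * π)) * G| ≤
      2 * Real.exp (0.97 * μ) * π + C * π + 2 * Real.exp (0.97 * μ) * π := by
    have e : 2 * π * P n - t * √(t / (2 * π)) * G = (V₁ + (A - M) + V₂).re := by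
      have := congrArg re k0
      simp only [add_re, mul_re, re_ofNat, ofReal_re, im_ofNat, ofReal_im, mul_zero, sub_zero,
        natCast_re, natCast_im, sub_re] at this ⊢
      linarith
    rw [e]
    exact (abs_re_le_norm _).trans (norm_add₃_le.trans (by linarith))
  have k7 : √(t / (2 * π)) * √(π / (2 * μ)) = √(π ^ 2 / 3) / (2 * μ) := by
    have e : t / (2 * π) * (π / (2 * μ)) = π ^ 2 / 3 / (2 * μ) ^ 2 := by
      rw [ht]
      field_simp
    rw [← Real.sqrt_mul (by positivity), e, Real.sqrt_div (by positivity),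
      Real.sqrt_sq (by positivity)]
  have k8 : 2 * π * (π ^ 2 / 6 * √(π ^ 2 / 3) / π * (μ - 1) / μ ^ 3 * Real.exp μ) =
      t * √(t / (2 * π)) * (2 * Real.exp μ * (1 - 1 / μ) * √(π / (2 * μ))) := by
    have : t * √(t / (2 * π)) * (2 * Real.exp μ * (1 - 1 / μ) * √(π / (2 * μ))) =
        t * (2 * Real.exp μ * (1 - 1 / μ)) * (√(t / (2 * π)) * √(π / (2 * μ))) := by ring
    rw [this, k7, ht]
    field_simp
    ring
  have k9 : |t * √(t / (2 * π)) * G - t * √(t / (2 * π)) *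
      (2 * Real.exp μ * (1 - 1 / μ) * √(π / (2 * μ)))| ≤ 1 * 1 * (8 * Real.exp (0.97 * μ)) := by
    rw [← mul_sub, abs_mul, abs_of_nonneg (by positivity)]
    gcongr
    · linarith
    · exact sqrt_le_one' (by linarith)
    · exact k5.trans (by gcongr; norm_num)
  have k10 := (abs_sub_le _ _ _).trans (add_le_add k6 k9)
  rw [← k8, ← mul_sub, abs_mul, abs_of_pos (by positivity)] at k10
  have k11 : 1 ≤ Real.exp (0.97 * μ) := Real.one_le_exp (by positivity)
  refine le_of_mul_le_mul_left (k10.trans ?_) (by positivity : 0 < 2 * π)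
  have k12 : C * π * 1 ≤ C * π * Real.exp (0.97 * μ) := by gcongr
  nlinarith [Real.pi_gt_three, mul_pos hC hπ]

end Pool.Agent.MP_ed4d7b_nt

end MrgPart2

-- ======== part 3: formerly Pool.Agent.MP_ed4d7b_nt.Count
section MrgPart3

set_option autoImplicit false

/-! Counting the indices `n` for which `p n` is close to a high perfect power. -/

namespace Pool.Agent.MP_ed4d7b_nt

open Finset Filter Topology Metric
open scoped Real

lemma ev_pow_le (C : ℝ) (j : ℕ) {b : ℝ} (hb : 0 < b) :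
    ∀ᶠ x : ℝ in atTop, C * x ^ j ≤ Real.exp (b * x) := by
  filter_upwards [(tendsto_exp_mul_div_rpow_atTop j b hb).eventually_ge_atTop C,
    eventually_gt_atTop 0] with x h hx
  rwa [Real.rpow_natCast, le_div_iff₀ (by positivity)] at h

/-- The main term. -/
noncomputable def g (c μ : ℝ) : ℝ := c * (μ - 1) / μ ^ 3 * Real.exp μ

/-- The `k`-th root of the main term. -/
noncomputable def fk (c : ℝ) (k : ℕ) (z : ℂ) : ℂ :=
  Complex.exp ((z + Complex.log (z - 1) - 3 * Complex.log z + Real.log c) / k)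

lemma fk_deriv (c : ℝ) (k : ℕ) {z : ℂ} (hz : 1 < z.re) :
    HasDerivAt (fk c k) (fk c k z * ((1 + 1 / (z - 1) - 3 * (1 / z)) / k)) z := by
  have h1 := ((hasDerivAt_id z).sub_const 1).clog (Or.inl (by simpa using hz))
  have h2 := (hasDerivAt_id z).clog (Or.inl (by simp; linarith))
  exact (((((hasDerivAt_id z).add h1).sub (h2.const_mul 3)).add_const _).div_const _).cexp

lemma fk_norm (c : ℝ) (k : ℕ) (z : ℂ) : ‖fk c k z‖ =
    Real.exp ((z.re + Real.log ‖z - 1‖ - 3 * Real.log ‖z‖ + Real.log c) / k) := by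
  unfold fk
  rw [Complex.norm_exp, Complex.div_natCast_re]
  simp [Complex.log_re]

lemma fk_real {c : ℝ} (hc : 0 < c) {k : ℕ} (hk : 1 ≤ k) {μ : ℝ} (hμ : 1 < μ) :
    ∃ r : ℝ, 0 < r ∧ fk c k μ = r ∧ r ^ k = g c μ := by
  have h1 : 0 < μ - 1 := by linarith
  have h0 : 0 < μ := by linarith
  refine ⟨Real.exp ((μ + Real.log (μ - 1) - 3 * Real.log μ + Real.log c) / k), Real.exp_pos _,
    ?_, ?_⟩
  · unfold fk
    rw [Complex.ofReal_exp]
    push_cast
    rw [Complex.ofReal_log h1.le, Complex.ofReal_log h0.le]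
    push_cast
    rfl
  · have hk0 : (k : ℝ) ≠ 0 := by exact_mod_cast (by omega : k ≠ 0)
    have e : Real.exp (3 * Real.log μ) = μ ^ 3 := by
      rw [show (3 : ℝ) = (3 : ℕ) by norm_num, Real.exp_nat_mul, Real.exp_log h0]
    rw [← Real.exp_nat_mul, mul_div_cancel₀ _ hk0, Real.exp_add, Real.exp_sub, Real.exp_add,
      Real.exp_log h1, Real.exp_log hc, e, g]
    ring

lemma fk_bound {c : ℝ} (hc : 0 < c) : ∀ᶠ W : ℝ in atTop, ∀ k : ℕ, 1 ≤ k →
    ∀ z ∈ closedBall (W : ℂ) (W / 2), 1 ≤ ‖fk c k z‖ ∧ ‖fk c k z‖ ≤ Real.exp (2 * W / k) := by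
  filter_upwards [ev_pow_le (27 / 8 / c) 3 one_half_pos, eventually_ge_atTop 4,
    eventually_ge_atTop (2 * Real.log c)] with W h1 h2 h3 k hk z hz
  have hk0 : (0 : ℝ) < k := by exact_mod_cast hk
  rw [mem_closedBall_iff_norm] at hz
  have e1 := abs_le.mp ((Complex.abs_re_le_norm _).trans hz)
  simp only [Complex.sub_re, Complex.ofReal_re] at e1
  have e2 : ‖z‖ ≤ 3 * W / 2 := by
    have := norm_le_norm_add_norm_sub' z (W : ℂ)
    rw [Complex.norm_real, Real.norm_of_nonneg (by linarith)] at this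
    linarith
  have e3 : 2 ≤ ‖z‖ := by linarith [Complex.re_le_norm z]
  have e4 : 1 ≤ ‖z - 1‖ := by
    have := Complex.re_le_norm (z - 1)
    simp only [Complex.sub_re, Complex.one_re] at this
    linarith
  have e5 : Real.log ‖z - 1‖ ≤ 3 * Real.log ‖z‖ := by
    rw [show (3 : ℝ) = (3 : ℕ) by norm_num, ← Real.log_pow]
    refine Real.log_le_log (by linarith) ((norm_sub_le _ _).trans ?_)
    rw [norm_one]
    nlinarith [sq_nonneg (‖z‖ - 2)]
  have e6 : 3 * Real.log ‖z‖ - Real.log c ≤ W / 2 := by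
    rw [show (3 : ℝ) = (3 : ℕ) by norm_num, ← Real.log_pow, ← Real.log_div (by positivity) hc.ne',
      Real.log_le_iff_le_exp (by positivity)]
    calc _ ≤ (3 * W / 2) ^ 3 / c := by gcongr
      _ = 27 / 8 / c * W ^ 3 := by ring
      _ ≤ _ := h1.trans_eq (by ring_nf)
  rw [fk_norm]
  refine ⟨Real.one_le_exp (div_nonneg ?_ hk0.le), Real.exp_le_exp.mpr ?_⟩
  · linarith [Real.log_nonneg e4]
  · gcongr
    linarith

lemma root_close {u r δ : ℝ} {k : ℕ} (hk : 1 ≤ k) (hu : 0 ≤ u) (hr : 0 < r)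
    (h : |u ^ k - r ^ k| ≤ r ^ k * δ) : |r - u| ≤ r * δ := by
  obtain ⟨j, rfl⟩ : ∃ j, k = j + 1 := ⟨k - 1, by omega⟩
  refine le_of_mul_le_mul_left (a := r ^ j) (le_trans ?_ (h.trans_eq (by ring))) (by positivity)
  rcases le_total u r with h1 | h1
  · have := pow_le_pow_left₀ hu h1 j
    rw [abs_of_nonneg (by linarith), abs_sub_comm, pow_succ, pow_succ]
    refine le_trans ?_ (le_abs_self _)
    nlinarith
  · have := pow_le_pow_left₀ hr.le h1 j
    rw [abs_of_nonpos (by linarith), pow_succ, pow_succ]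
    refine le_trans ?_ (le_abs_self _)
    nlinarith

lemma approx {θ : ℝ} (hθ : θ < 1) : ∃ c γ : ℝ, 0 < c ∧ 0 < γ ∧ ∀ d : ℝ, ∀ᶠ μ : ℝ in atTop,
    ∀ n : ℕ, μ ^ 2 = 2 * π ^ 2 / 3 * (n - 1 / 24) → ∀ k : ℕ, 1 ≤ k → ∀ m : ℤ,
      |(P n : ℝ) - (m : ℝ) ^ k| ≤ d * (P n : ℝ) ^ θ →
      (k : ℝ) * 0.69 ≤ μ ∧ |(|(m : ℝ)|) ^ k - g c μ| ≤ g c μ * Real.exp (-(γ * μ)) := by
  obtain ⟨c, K, μ₀, hc, hK, h⟩ := hardy_ramanujan
  obtain ⟨l, hl⟩ : ∃ l : ℝ, l = max θ 0.97 := ⟨_, rfl⟩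
  have hl1 : l < 1 := hl ▸ max_lt hθ (by norm_num)
  have hl2 : 0.97 ≤ l := hl ▸ le_max_right _ _
  have hl3 : θ ≤ l := hl ▸ le_max_left _ _
  refine ⟨c, (1 - l) / 2, hc, by linarith, fun d => ?_⟩
  filter_upwards [eventually_ge_atTop μ₀, eventually_ge_atTop 2, eventually_ge_atTop (2 * c),
    eventually_ge_atTop (2 / (1 - l)),
    ev_pow_le (2 * (|d| * (1 + c + K) + K) / c) 2 (b := (1 - l) / 2) (by linarith),
    ev_pow_le (6 / c) 2 one_pos] with μ h0 h2 h3 h4 h5 h6 n hn k hk m hm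
  have hμ : 0 < μ := by linarith
  have e0 := h n μ h0 hn
  change |(P n : ℝ) - g c μ| ≤ _ at e0
  have g1 : g c μ ≤ c / μ * Real.exp μ := by
    refine mul_le_mul_of_nonneg_right ?_ (Real.exp_pos μ).le
    rw [div_le_div_iff₀ (by positivity) hμ]
    have : (μ - 1) * μ ≤ μ ^ 3 := by nlinarith [mul_pos hμ hμ]
    nlinarith
  have g2 : c / (2 * μ ^ 2) * Real.exp μ ≤ g c μ := by
    refine mul_le_mul_of_nonneg_right ?_ (Real.exp_pos μ).le
    rw [div_le_div_iff₀ (by positivity) (by positivity)]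
    have : μ ^ 3 ≤ (μ - 1) * (2 * μ ^ 2) := by nlinarith [mul_pos hμ hμ]
    nlinarith
  have hP : (1 : ℝ) ≤ P n := by exact_mod_cast Fintype.card_pos (α := Nat.Partition n)
  have e1 : Real.exp (0.97 * μ) ≤ Real.exp (l * μ) := by gcongr
  have e2 : (P n : ℝ) ≤ (1 + c + K) * Real.exp μ := by
    have k1 : Real.exp (l * μ) ≤ Real.exp μ := Real.exp_le_exp.mpr (by nlinarith)
    have k2 : c / μ ≤ c := div_le_self hc.le (by linarith)
    have k3 := mul_le_mul_of_nonneg_right k2 (Real.exp_pos μ).le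
    have k4 := mul_le_mul_of_nonneg_left (e1.trans k1) hK.le
    linarith [(abs_le.mp e0).2, Real.exp_pos μ]
  have e3 : (P n : ℝ) ^ θ ≤ (1 + c + K) * Real.exp (l * μ) := by
    calc _ ≤ (P n : ℝ) ^ l := Real.rpow_le_rpow_of_exponent_le hP hl3
      _ ≤ ((1 + c + K) * Real.exp μ) ^ l := by gcongr
      _ = (1 + c + K) ^ l * Real.exp (l * μ) := by
          rw [Real.mul_rpow (by positivity) (by positivity), ← Real.exp_mul, mul_comm μ]
      _ ≤ _ := by
          gcongr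
          exact Real.rpow_le_self_of_one_le (by linarith) hl1.le
  have e4 : |(|(m : ℝ)|) ^ k - g c μ| ≤ (|d| * (1 + c + K) + K) * Real.exp (l * μ) := by
    have k1 := abs_abs_sub_abs_le_abs_sub ((m : ℝ) ^ k) (P n)
    rw [abs_pow, Nat.abs_cast, abs_sub_comm ((m : ℝ) ^ k)] at k1
    have k2 : d * (P n : ℝ) ^ θ ≤ |d| * ((1 + c + K) * Real.exp (l * μ)) :=
      mul_le_mul (le_abs_self _) e3 (by positivity) (abs_nonneg _)
    have k3 := abs_sub_le (|(m : ℝ)| ^ k) (P n) (g c μ)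
    have k4 := mul_le_mul_of_nonneg_left e1 hK.le
    linarith
  have e5 : |(|(m : ℝ)|) ^ k - g c μ| ≤ g c μ * Real.exp (-((1 - l) / 2 * μ)) := by
    calc _ ≤ _ := e4
      _ = c / (2 * μ ^ 2) * (2 * (|d| * (1 + c + K) + K) / c * μ ^ 2) * Real.exp (l * μ) := by
          field_simp
      _ ≤ c / (2 * μ ^ 2) * Real.exp ((1 - l) / 2 * μ) * Real.exp (l * μ) := by gcongr
      _ = c / (2 * μ ^ 2) * Real.exp μ * Real.exp (-((1 - l) / 2 * μ)) := by
          rw [mul_assoc, mul_assoc, ← Real.exp_add, ← Real.exp_add]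
          congr 2
          ring
      _ ≤ _ := by gcongr
  refine ⟨?_, e5⟩
  have g3 : 3 ≤ g c μ := by
    refine le_trans ?_ g2
    rw [one_mul] at h6
    calc (3 : ℝ) = c / (2 * μ ^ 2) * (6 / c * μ ^ 2) := by
          field_simp
          norm_num
      _ ≤ _ := by gcongr
  have e6 : Real.exp (-((1 - l) / 2 * μ)) ≤ 1 / 2 := by
    rw [div_le_iff₀ (by linarith)] at h4
    rw [Real.exp_neg, one_div]
    refine inv_anti₀ (by norm_num) ?_
    linarith [Real.add_one_le_exp ((1 - l) / 2 * μ)]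
  obtain ⟨e7, e8⟩ := abs_le.mp (e5.trans (mul_le_mul_of_nonneg_left e6 (by linarith)))
  have e9 : (2 : ℝ) ≤ |(m : ℝ)| := by
    by_contra hcon
    have k1 : |m| < 2 := by exact_mod_cast not_le.mp hcon
    have k2 : |(m : ℝ)| ≤ 1 := by exact_mod_cast (by omega : |m| ≤ 1)
    linarith [pow_le_one₀ (n := k) (abs_nonneg _) k2]
  have e10 : (2 : ℝ) ^ k ≤ Real.exp μ := by
    have k1 : c / μ ≤ 1 / 2 := by
      rw [div_le_iff₀ hμ]
      linarith
    have k2 := mul_le_mul_of_nonneg_right k1 (Real.exp_pos μ).le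
    linarith [pow_le_pow_left₀ (by norm_num) e9 k]
  rw [← Real.log_le_iff_le_exp (by positivity), Real.log_pow] at e10
  refine le_trans ?_ e10
  gcongr
  linarith [Real.log_two_gt_d9]

lemma sum_inv_le {K : ℕ} (hK : 1 ≤ K) {W : ℝ} (hW : 3 ≤ W) :
    ∑ k ∈ Icc K ⌊2 * W⌋₊, (1 / k : ℝ) ≤ 3 * Real.log W := by
  have h1 := harmonic_le_one_add_log ⌊2 * W⌋₊
  rw [harmonic_eq_sum_Icc] at h1
  push_cast at h1
  have h2 : 1 ≤ Real.log W := by
    rw [Real.le_log_iff_exp_le (by linarith)]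
    linarith [Real.exp_one_lt_d9]
  have h3 : Real.log ⌊2 * W⌋₊ ≤ Real.log (W ^ 2) := by
    refine Real.log_le_log (Nat.cast_pos.mpr (Nat.floor_pos.mpr (by linarith))) ?_
    nlinarith [Nat.floor_le (a := 2 * W) (by linarith)]
  rw [Real.log_pow] at h3
  push_cast at h3
  simp only [one_div]
  refine (sum_le_sum_of_subset_of_nonneg (Icc_subset_Icc_left hK) fun _ _ _ => by positivity).trans
    (by linarith)

open Classical in
lemma window_count {θ : ℝ} (hθ : θ < 1) {T : ℕ} (hT : 2 ≤ T) : ∃ (K : ℕ) (C : ℝ), ∀ d : ℝ,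
    ∀ᶠ W : ℝ in atTop, ∀ (N : Finset ℕ) (w : ℕ → ℝ),
      (∀ n ∈ N, W ≤ w n ∧ w n ≤ W + W ^ (1 - 1 / T : ℝ) / 16 ∧
        w n ^ 2 = 2 * π ^ 2 / 3 * (n - 1 / 24) ∧
        ∃ k : ℕ, K ≤ k ∧ ∃ m : ℤ, |(P n : ℝ) - (m : ℝ) ^ k| ≤ d * (P n : ℝ) ^ θ) →
      (#N : ℝ) ≤ C * W := by
  obtain ⟨c, γ, hc, hγ, h⟩ := approx hθ
  obtain ⟨B, hB⟩ : ∃ B, B = 22 * T := ⟨_, rfl⟩
  refine ⟨max B ⌈(4 + 4 * B * Γ T) / γ⌉₊, (6 * B + 2) * (T * j₁ T), fun d => ?_⟩
  obtain ⟨μ₁, hμ₁⟩ := eventually_atTop.mp (h d)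
  have hT0 : (2 : ℝ) ≤ T := by exact_mod_cast hT
  have hT1 : 0 < (1 - 1 / T : ℝ) := by
    rw [sub_pos, div_lt_one (by linarith)]
    linarith
  filter_upwards [eventually_ge_atTop μ₁, eventually_ge_atTop ((B : ℝ) * 2 ^ B),
    eventually_ge_atTop 8, (tendsto_rpow_atTop hT1).eventually_ge_atTop (16 * (B + 2)),
    fk_bound hc, ev_pow_le 4 (Γ T) (half_pos hγ)] with W h1 h2 h3 h4 h5 h6 N w hw
  have hW0 : 0 < W := by linarith
  have hlog : 1 ≤ Real.log W := by
    rw [Real.le_log_iff_exp_le hW0]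
    linarith [Real.exp_one_lt_d9]
  have hh : W ^ (1 - 1 / T : ℝ) ≤ W := Real.rpow_le_self_of_one_le (by linarith)
    (sub_le_self _ (by positivity))
  have hπ := Real.pi_pos
  have hB0 : (0 : ℝ) < B := by exact_mod_cast (by omega : 0 < B)
  have key : ∀ k ∈ Icc (max B ⌈(4 + 4 * B * Γ T) / γ⌉₊) ⌊2 * W⌋₊,
      (#{n ∈ N | ∃ m : ℤ, |(P n : ℝ) - (m : ℝ) ^ k| ≤ d * (P n : ℝ) ^ θ} : ℝ) ≤
        (2 * B * W / Real.log W * (1 / k) + 1) * (T * j₁ T) := by
    intro k hk
    obtain ⟨k1, k2⟩ := mem_Icc.mp hk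
    have k3 : B ≤ k := le_of_max_le_left k1
    have k4 : (4 + 4 * B * Γ T) / γ ≤ k := Nat.ceil_le.mp (le_of_max_le_right k1)
    have k5 : (k : ℝ) ≤ 2 * W := (Nat.le_floor_iff (by positivity)).mp k2
    have k6 : 1 ≤ k := by omega
    have k0 : (0 : ℝ) < k := by exact_mod_cast k6
    obtain ⟨A, hA⟩ : ∃ A, A = ⌈2 * B * W / Real.log W * (1 / k)⌉₊ := ⟨_, rfl⟩
    have hA1 : 2 * B * W / Real.log W * (1 / k) ≤ A := hA ▸ Nat.le_ceil _
    have hA2 : (A : ℝ) ≤ 2 * B * W / Real.log W * (1 / k) + 1 :=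
      hA ▸ (Nat.ceil_lt_add_one (by positivity)).le
    have hA3 : W ^ A = Real.exp (A * Real.log W) := by
      rw [Real.exp_nat_mul, Real.exp_log hW0]
    have hA4 : 2 * B * W / Real.log W * (1 / k) * Real.log W = B * (2 * W / k) := by field_simp
    have hm : ∀ n : ℕ, ∃ m : ℤ, n ∈ ({n ∈ N | ∃ m : ℤ,
        |(P n : ℝ) - (m : ℝ) ^ k| ≤ d * (P n : ℝ) ^ θ} : Finset ℕ) →
        |(P n : ℝ) - (m : ℝ) ^ k| ≤ d * (P n : ℝ) ^ θ := fun n => by
      by_cases hn : n ∈ ({n ∈ N | ∃ m : ℤ,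
        |(P n : ℝ) - (m : ℝ) ^ k| ≤ d * (P n : ℝ) ^ θ} : Finset ℕ)
      · obtain ⟨m, hm⟩ := (mem_filter.mp hn).2
        exact ⟨m, fun _ => hm⟩
      · exact ⟨0, fun h => absurd h hn⟩
    choose m hm using hm
    have hball : ∀ z ∈ ball (W : ℂ) (3 * W / 4), 1 < z.re := fun z hz => by
      have := abs_lt.mp ((Complex.abs_re_le_norm _).trans_lt (mem_ball_iff_norm.mp hz))
      simp only [Complex.sub_re, Complex.ofReal_re] at this
      linarith
    have e := window (T := T) (by omega) (W := W) (h := W ^ (1 - 1 / T : ℝ) / 16)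
      (α := 3 / (2 * π ^ 2)) (V := Real.exp (2 * W / k))
      (ε := Real.exp (2 * W / k) * Real.exp (-(γ * W))) (k := k) (A := A) (f := fk c k)
      (f' := fun z => fk c k z * ((1 + 1 / (z - 1) - 3 * (1 / z)) / k))
      (hB ▸ h2) (by rw [← hB]; linarith)
      (by
        rw [mul_div_cancel₀ _ (by norm_num), Real.rpow_sub hW0, Real.rpow_one,
          div_div_cancel_left' hW0.ne', inv_pow, one_div, Real.rpow_inv_natCast_pow hW0.le
          (by omega), inv_mul_cancel₀ hW0.ne'])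
      (hB ▸ k3) k5 (hA ▸ Nat.ceil_pos.mpr (by positivity))
      (by
        rw [div_le_div_iff₀ (by norm_num) (by positivity)]
        nlinarith [Real.pi_lt_d2])
      (by
        rw [div_le_div_iff₀ (by positivity) (by norm_num)]
        nlinarith [Real.pi_gt_three])
      (fun z hz => fk_deriv c k (hball z hz))
      (fun z hz => by
        have e1 := hball z hz
        have e2 : z ≠ 0 := fun e => by
          rw [e, Complex.zero_re] at e1
          linarith
        have e3 : z - 1 ≠ 0 := fun e => by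
          rw [sub_eq_zero.mp e, Complex.one_re] at e1
          linarith
        have e4 : (k : ℂ) ≠ 0 := by exact_mod_cast k0.ne'
        field_simp
        ring)
      (h5 k k6)
      (by
        rw [← hB, hA3, ← Real.exp_nat_mul, Real.exp_le_exp, ← hA4]
        gcongr)
      (by positivity)
      (by
        have e1 : W ^ A ≤ Real.exp (B * (2 * W / k)) * W := by
          rw [hA3, ← hA4]
          calc _ ≤ Real.exp ((2 * B * W / Real.log W * (1 / k) + 1) * Real.log W) := by gcongr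
            _ = _ := by rw [add_mul, one_mul, Real.exp_add, Real.exp_log hW0]
        have e2 : (2 + 2 * B * Γ T) * (W / k) ≤ γ / 2 * W := by
          rw [div_le_iff₀ hγ] at k4
          rw [← mul_div_assoc, div_le_iff₀ k0]
          nlinarith
        calc _ ≤ 4 * (Real.exp (2 * W / k) * Real.exp (-(γ * W))) *
              (Real.exp (B * (2 * W / k)) * W) ^ Γ T := by gcongr
          _ = 4 * W ^ Γ T * Real.exp ((2 + 2 * B * Γ T) * (W / k) - γ * W) := by
              rw [mul_pow, ← Real.exp_nat_mul, ← Real.exp_add,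
                show (2 + 2 * B * Γ T) * (W / k) - γ * W =
                  (2 * W / k + -(γ * W)) + Γ T * (B * (2 * W / k)) by ring, Real.exp_add _ (_ * _)]
              ring
          _ ≤ Real.exp (γ / 2 * W) * Real.exp (γ / 2 * W - γ * W) := by gcongr
          _ = 1 := by
              rw [← Real.exp_add, Real.exp_eq_one_iff]
              ring)
      {n ∈ N | ∃ m : ℤ, |(P n : ℝ) - (m : ℝ) ^ k| ≤ d * (P n : ℝ) ^ θ} w (fun n => |m n|)
      (fun n hn => by
        obtain ⟨e1, e2, e3, -⟩ := hw n (mem_filter.mp hn).1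
        refine ⟨e1, e2, ?_, ?_⟩
        · rw [e3]
          field_simp
          ring
        · obtain ⟨r, r0, r1, r2⟩ := fk_real hc k6 (μ := w n) (by linarith)
          have e4 := (hμ₁ (w n) (by linarith) n e3 k k6 (m n) (hm n hn)).2
          rw [← r2] at e4
          have e5 := root_close k6 (abs_nonneg _) r0 e4
          have e6 := (h5 k k6 (w n) (by
            rw [mem_closedBall_iff_norm, ← Complex.ofReal_sub, Complex.norm_real,
              Real.norm_of_nonneg (by linarith)]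
            linarith)).2
          rw [r1, Complex.norm_real, Real.norm_of_nonneg r0.le] at e6
          rw [r1, ← Complex.ofReal_intCast, ← Complex.ofReal_sub, Complex.norm_real,
            Real.norm_eq_abs, Int.cast_abs]
          refine e5.trans ?_
          gcongr)
    calc _ ≤ ((A * T * j₁ T : ℕ) : ℝ) := by exact_mod_cast e.le
      _ = A * (T * j₁ T) := by
          push_cast
          ring
      _ ≤ _ := by gcongr
  have hsub : N ⊆ (Icc (max B ⌈(4 + 4 * B * Γ T) / γ⌉₊) ⌊2 * W⌋₊).biUnion fun k =>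
      {n ∈ N | ∃ m : ℤ, |(P n : ℝ) - (m : ℝ) ^ k| ≤ d * (P n : ℝ) ^ θ} := fun n hn => by
    obtain ⟨e1, e2, e3, k, hk, m, hm⟩ := hw n hn
    refine mem_biUnion.mpr ⟨k, mem_Icc.mpr ⟨hk, Nat.le_floor ?_⟩, mem_filter.mpr ⟨hn, m, hm⟩⟩
    have := (hμ₁ (w n) (by linarith) n e3 k (by have := le_of_max_le_left hk; omega) m hm).1
    linarith
  have hs := sum_inv_le (K := max B ⌈(4 + 4 * B * Γ T) / γ⌉₊) (W := W)
    (le_max_of_le_left (by omega)) (by linarith)
  have hcard : (#(Icc (max B ⌈(4 + 4 * B * Γ T) / γ⌉₊) ⌊2 * W⌋₊) : ℝ) ≤ 2 * W := by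
    refine le_trans ?_ (Nat.floor_le (a := 2 * W) (by positivity))
    rw [Nat.card_Icc]
    have : 1 ≤ max B ⌈(4 + 4 * B * Γ T) / γ⌉₊ := le_max_of_le_left (by omega)
    exact_mod_cast (by omega)
  calc (#N : ℝ) ≤ _ := by exact_mod_cast (card_le_card hsub).trans card_biUnion_le
    _ ≤ _ := sum_le_sum key
    _ ≤ (2 * B * W / Real.log W * (3 * Real.log W) + 2 * W) * (T * j₁ T) := by
        rw [← sum_mul, sum_add_distrib, ← mul_sum, sum_const, nsmul_eq_mul, mul_one]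
        gcongr
    _ = _ := by
        field_simp
        ring

end Pool.Agent.MP_ed4d7b_nt

end MrgPart3

-- marker of a merged file
example : 731051 + 121049 = 731051 + 121049 := rfl
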