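import Pool.Agent.MP_ed4d7b_nt.Count

set_option autoImplicit false

/-! Summation over the windows. -/

namespace Pool.Agent.MP_ed4d7b_nt

open Finset Filter
open scoped Real

lemma telescope {η C : ℝ} (hη : 0 < η) (hη2 : η ≤ 1 / 2) (G : ℕ → ℝ) (h0 : ∀ X, G X ≤ X + 1)
    (h1 : ∀ᶠ X : ℕ in atTop, G X ≤ G (X - ⌊(X : ℝ) ^ (1 - η) / 64⌋₊) + C * √X) :
    ∃ C' : ℝ, ∀ X : ℕ, 1 ≤ X → G X ≤ C' * (X : ℝ) ^ (1 / 2 + η) := by
  have h2 : ∀ᶠ X : ℕ in atTop, 128 ≤ (X : ℝ) ^ (1 - η) :=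
    ((tendsto_rpow_atTop (by linarith)).comp tendsto_natCast_atTop_atTop).eventually_ge_atTop 128
  obtain ⟨X₀, hX₀⟩ := eventually_atTop.mp (h1.and h2)
  obtain ⟨C', hC1, hC2⟩ : ∃ C' : ℝ, 256 * C ≤ C' ∧ X₀ + 1 ≤ C' :=
    ⟨max _ _, le_max_left _ _, le_max_right _ _⟩
  have hC0 : 0 ≤ C' := le_trans (by positivity) hC2
  refine ⟨C', fun X => ?_⟩
  induction X using Nat.strong_induction_on with
  | _ X ih =>
    intro hX
    have hX1 : (1 : ℝ) ≤ X := by exact_mod_cast hX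
    have hX0 : (0 : ℝ) < X := by linarith
    rcases lt_or_ge X X₀ with h | h
    · have e1 : (X : ℝ) ≤ X₀ := by exact_mod_cast h.le
      exact ((h0 X).trans (by linarith)).trans
        (le_mul_of_one_le_right hC0 (Real.one_le_rpow hX1 (by linarith)))
    · obtain ⟨e1, e2⟩ := hX₀ X h
      obtain ⟨H, hH⟩ : ∃ H, H = ⌊(X : ℝ) ^ (1 - η) / 64⌋₊ := ⟨_, rfl⟩
      have e3 : (H : ℝ) ≤ (X : ℝ) ^ (1 - η) / 64 := hH ▸ Nat.floor_le (by positivity)
      have e4 : (X : ℝ) ^ (1 - η) / 64 < H + 1 := hH ▸ Nat.lt_floor_add_one _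
      have e5 : (X : ℝ) ^ (1 - η) ≤ X := Real.rpow_le_self_of_one_le hX1 (by linarith)
      have e6 : H < X := by exact_mod_cast (by linarith : (H : ℝ) < X)
      have e7 : 0 < H := by exact_mod_cast (by linarith : (0 : ℝ) < H)
      rw [← hH] at e1
      have e8 := ih (X - H) (by omega) (by omega)
      have e9 : ((X - H : ℕ) : ℝ) = X * (1 + -(H / X)) := by
        rw [Nat.cast_sub e6.le]
        field_simp
        ring
      have e10 : (H : ℝ) / X ≤ 1 := by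
        rw [div_le_one hX0]
        linarith
      have e11 := rpow_one_add_le_one_add_mul_self (s := -(H / X : ℝ)) (by linarith)
        (p := 1 / 2 + η) (by linarith) (by linarith)
      rw [e9, Real.mul_rpow hX0.le (by linarith)] at e8
      have e12 : (X : ℝ) ^ (1 / 2 + η) * ((X : ℝ) ^ (1 - η) / X) = √X := by
        rw [← mul_div_assoc, ← Real.rpow_add hX0, ← Real.rpow_sub_one hX0.ne', Real.sqrt_eq_rpow]
        congr 1
        ring
      have e13 : √X / 256 ≤ (X : ℝ) ^ (1 / 2 + η) * ((1 / 2 + η) * (H / X)) := by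
        calc _ = (X : ℝ) ^ (1 / 2 + η) * (1 / 2 * ((X : ℝ) ^ (1 - η) / 128 / X)) := by
              rw [← e12]
              ring
          _ ≤ _ := by
              gcongr
              · linarith
              · linarith
      have e14 := mul_le_mul_of_nonneg_left (mul_le_mul_of_nonneg_left e11
        (Real.rpow_nonneg hX0.le (1 / 2 + η))) hC0
      have e15 := mul_le_mul_of_nonneg_left e13 hC0
      have e16 := mul_le_mul_of_nonneg_right hC1 (Real.sqrt_nonneg X)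
      nlinarith

open Classical in
theorem final {ε θ : ℝ} (hε : 0 < ε) (hθ : θ < 1) : ∃ K : ℕ, ∀ d : ℝ, ∃ C : ℝ, ∀ X : ℕ, 1 ≤ X →
    (#{n ∈ range (X + 1) | ∃ k : ℕ, K ≤ k ∧ ∃ m : ℤ,
      |(P n : ℝ) - (m : ℝ) ^ k| ≤ d * (P n : ℝ) ^ θ} : ℝ) ≤ C * (X : ℝ) ^ (1 / 2 + ε) := by
  obtain ⟨T, hT, hT'⟩ : ∃ T : ℕ, 2 ≤ T ∧ 1 / (2 * ε) ≤ T :=
    ⟨max 2 ⌈1 / (2 * ε)⌉₊, le_max_left _ _, Nat.ceil_le.mp (le_max_right _ _)⟩
  have hT0 : (2 : ℝ) ≤ T := by exact_mod_cast hT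
  obtain ⟨K, C, h⟩ := window_count hθ hT
  refine ⟨K, fun d => ?_⟩
  obtain ⟨W₀, hW₀⟩ := eventually_atTop.mp (h d)
  obtain ⟨B, hB⟩ : ∃ B : ℕ → Prop, ∀ n, B n ↔ ∃ k : ℕ, K ≤ k ∧ ∃ m : ℤ,
      |(P n : ℝ) - (m : ℝ) ^ k| ≤ d * (P n : ℝ) ^ θ := ⟨_, fun _ => Iff.rfl⟩
  simp only [← hB] at hW₀ ⊢
  have hη : (0 : ℝ) < 1 / (2 * T) := by positivity
  have hη2 : (1 : ℝ) / (2 * T) ≤ 1 / 2 := one_div_le_one_div_of_le (by norm_num) (by linarith)
  have hη3 : (1 : ℝ) / (2 * T) ≤ ε := by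
    rw [div_le_iff₀ (by positivity)] at hT' ⊢
    linarith
  obtain ⟨C', hC'⟩ := telescope (C := 3 * |C|) hη hη2
    (fun X => (#{n ∈ range (X + 1) | B n} : ℝ))
    (fun X => by exact_mod_cast (card_filter_le _ _).trans (card_range _).le) (by
      filter_upwards [eventually_ge_atTop 1, tendsto_natCast_atTop_atTop.eventually_ge_atTop
        (W₀ ^ 2)] with X hX hX'
      have hX1 : (1 : ℝ) ≤ X := by exact_mod_cast hX
      obtain ⟨H, hH⟩ : ∃ H, H = ⌊(X : ℝ) ^ (1 - 1 / (2 * T) : ℝ) / 64⌋₊ := ⟨_, rfl⟩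
      have e3 : (H : ℝ) ≤ (X : ℝ) ^ (1 - 1 / (2 * T) : ℝ) / 64 :=
        hH ▸ Nat.floor_le (by positivity)
      have e5 : (X : ℝ) ^ (1 - 1 / (2 * T) : ℝ) ≤ X :=
        Real.rpow_le_self_of_one_le hX1 (by linarith)
      have e6 : H ≤ X := by exact_mod_cast (by linarith : (H : ℝ) ≤ X)
      rw [← hH]
      have p1 : 9 ≤ π ^ 2 := by nlinarith [Real.pi_gt_three]
      have p2 : π ^ 2 ≤ 10 := by nlinarith [Real.pi_lt_d2, Real.pi_pos]
      obtain ⟨W, hW⟩ : ∃ W, W = √(2 * π ^ 2 / 3 * ((X - H : ℝ) - 1 / 24)) := ⟨_, rfl⟩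
      have w0 : 0 ≤ W := hW ▸ Real.sqrt_nonneg _
      have w1 : W ^ 2 = 2 * π ^ 2 / 3 * ((X - H : ℝ) - 1 / 24) :=
        hW ▸ Real.sq_sqrt (mul_nonneg (by positivity) (by linarith))
      have w2 : (X : ℝ) ≤ W ^ 2 := by nlinarith
      have w3 : W ≤ 3 * √X := by
        refine le_of_sq_le_sq ?_ (by positivity)
        rw [mul_pow, Real.sq_sqrt (by linarith)]
        nlinarith [Nat.cast_nonneg (α := ℝ) H]
      have w4 : W₀ ≤ W := le_of_sq_le_sq (hX'.trans w2) w0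
      have w5 : 0 < W := by
        refine lt_of_le_of_ne w0 fun e => ?_
        rw [← e] at w2
        linarith
      have w6 : 64 * H ≤ W * W ^ (1 - 1 / T : ℝ) := by
        calc 64 * (H : ℝ) ≤ (X : ℝ) ^ (1 - 1 / (2 * T) : ℝ) := by linarith
          _ ≤ (W ^ 2) ^ (1 - 1 / (2 * T) : ℝ) := by
              gcongr
              linarith
          _ = _ := by
              rw [← Real.rpow_natCast, ← Real.rpow_mul w0, ← Real.rpow_one_add' w0]
              · congr 1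
                push_cast
                field_simp
                ring
              · have : (1 : ℝ) / T ≤ 1 / 2 := one_div_le_one_div_of_le (by norm_num) hT0
                linarith
      have key := hW₀ W w4 {n ∈ Ioc (X - H) X | B n}
        (fun n => √(2 * π ^ 2 / 3 * ((n : ℝ) - 1 / 24))) fun n hn => by
          obtain ⟨n1, n2⟩ := mem_filter.mp hn
          obtain ⟨n3, n4⟩ := mem_Ioc.mp n1
          have n5 : (X - H : ℝ) ≤ n := by exact_mod_cast (Nat.cast_sub (R := ℝ) e6 ▸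
            (Nat.cast_le (α := ℝ)).mpr n3.le)
          have n6 : (n : ℝ) ≤ X := by exact_mod_cast n4
          refine ⟨hW ▸ Real.sqrt_le_sqrt (by gcongr), ?_,
            Real.sq_sqrt (mul_nonneg (by positivity) (by linarith)), n2⟩
          have n7 : 0 ≤ W ^ (1 - 1 / T : ℝ) := by positivity
          rw [Real.sqrt_le_iff]
          refine ⟨by positivity, ?_⟩
          have n8 : 2 * π ^ 2 / 3 * ((n : ℝ) - 1 / 24) ≤ W ^ 2 + 2 * π ^ 2 / 3 * H := by
            rw [w1, ← mul_add]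
            gcongr
            linarith
          nlinarith [Nat.cast_nonneg (α := ℝ) H, sq_nonneg (W ^ (1 - 1 / T : ℝ))]
      have hsub : {n ∈ range (X + 1) | B n} ⊆
          {n ∈ range (X - H + 1) | B n} ∪ {n ∈ Ioc (X - H) X | B n} := fun n hn => by
        simp only [mem_union, mem_filter, mem_range, mem_Ioc] at hn ⊢
        rcases le_or_gt n (X - H) with e | e
        · exact Or.inl ⟨by omega, hn.2⟩
        · exact Or.inr ⟨⟨e, by omega⟩, hn.2⟩
      have e7 : (#{n ∈ range (X + 1) | B n} : ℝ) ≤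
          #{n ∈ range (X - H + 1) | B n} + #{n ∈ Ioc (X - H) X | B n} := by
        exact_mod_cast (card_le_card hsub).trans (card_union_le _ _)
      have e8 : C * W ≤ |C| * (3 * √X) := mul_le_mul (le_abs_self _) w3 w0 (abs_nonneg _)
      linarith)
  refine ⟨|C'|, fun X hX => (hC' X hX).trans ?_⟩
  have hX1 : (1 : ℝ) ≤ X := by exact_mod_cast hX
  exact mul_le_mul (le_abs_self _) (Real.rpow_le_rpow_of_exponent_le hX1 (by linarith))
    (by positivity) (abs_nonneg _)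

end Pool.Agent.MP_ed4d7b_nt
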