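import Pool.Agent.MP_ed4d7b_nt.Count

/-! The Hardy-Ramanujan formula with two terms. -/

namespace Pool.Agent.MP_ed4d7b_nt

namespace HR2

open Finset Complex Filter Topology MeasureTheory
open scoped Real

lemma EN_neg (q : ℂ) (N : ℕ) :
    EN (2 * N) (-q) * EN (2 * N) q * EN N (q ^ 4) = EN (2 * N) (q ^ 2) * EN N (q ^ 2) ^ 2 := by
  induction N with
  | zero => simp [EN]
  | succ N ih =>
    unfold EN at ih ⊢
    rw [show 2 * (N + 1) = 2 * N + 1 + 1 by ring]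
    simp only [prod_range_succ]
    have e1 : (-q) ^ (2 * N + 1) = -q ^ (2 * N + 1) := Odd.neg_pow ⟨N, rfl⟩ q
    have e2 : (-q) ^ (2 * N + 1 + 1) = q ^ (2 * N + 1 + 1) := Even.neg_pow ⟨N + 1, by ring⟩ q
    rw [e1, e2]
    linear_combination ((1 - q ^ (4 * N + 2)) * (1 - q ^ (4 * N + 4)) *
      (1 - q ^ (2 * N + 2)) ^ 2) * ih

lemma norm_pow_lt {q : ℂ} (hq : ‖q‖ < 1) (j : ℕ) : ‖q ^ (j + 1)‖ < 1 := by
  rw [norm_pow]
  exact pow_lt_one₀ (norm_nonneg _) hq (by omega)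

lemma E_neg {q : ℂ} (hq : ‖q‖ < 1) :
    (E (-q))⁻¹ * ((E q)⁻¹ * (E (q ^ 4))⁻¹) = (E (q ^ 2))⁻¹ ^ 3 := by
  have h2 : Tendsto (fun N : ℕ => 2 * N) atTop atTop :=
    tendsto_id.const_mul_atTop' (by norm_num)
  have q2 := norm_pow_lt hq 1
  have q4 := norm_pow_lt hq 3
  have a := (((EN_tendsto (q := -q) (by simpa using hq)).comp h2).mul
    ((EN_tendsto hq).comp h2)).mul (EN_tendsto q4)
  have b := ((EN_tendsto q2).comp h2).mul ((EN_tendsto q2).pow 2)
  have h : E (-q) * E q * E (q ^ 4) = E (q ^ 2) * E (q ^ 2) ^ 2 :=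
    tendsto_nhds_unique a (b.congr fun N => (EN_neg q N).symm)
  rw [← mul_inv, ← mul_inv, ← mul_assoc, h, inv_pow]
  congr 1
  ring

/-- The transformation law at a cusp. -/
def Tr (ε : ℂ) (c B : ℝ) : Prop := ∀ ρ θ : ℝ, 0 < ρ → |θ| < π / 2 →
  (E (ε * cexp (-(ρ * cexp (θ * I)))))⁻¹ = (c * √(ρ / (2 * π)) : ℝ) * cexp (θ / 2 * I) *
    cexp ((B : ℂ) / (ρ * cexp (θ * I)) - ρ * cexp (θ * I) / 24) *
    (E (ε * cexp (-(((24 * B : ℝ) : ℂ) / (ρ * cexp (θ * I))))))⁻¹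

lemma tr1 : Tr 1 1 (π ^ 2 / 6) := by
  intro ρ θ hρ hθ
  rw [one_mul, one_mul, one_mul, show 24 * (π ^ 2 / 6) = 4 * π ^ 2 by ring]
  exact E_trans hρ hθ

lemma tr2 : Tr (-1) √2 (π ^ 2 / 24) := by
  intro ρ θ hρ hθ
  have h1 := E_trans hρ hθ
  have h2 := E_trans (t := 2 * ρ) (by positivity) hθ
  have h4 := E_trans (t := 4 * ρ) (by positivity) hθ
  have hc : 0 < Real.cos θ := Real.cos_pos_of_mem_Ioo (abs_lt.mp hθ)
  have hπ := Real.pi_pos
  have hz : 0 < ((ρ : ℂ) * cexp (θ * I)).re := by rw [re_polar]; positivity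
  have hw : 0 < (((π ^ 2 : ℝ) : ℂ) / (ρ * cexp (θ * I))).re := by
    rw [re_div_polar _ hρ, re_polar, Real.cos_neg]; positivity
  have s2 : √(2 * ρ / (2 * π)) = √2 * √(ρ / (2 * π)) := by
    rw [mul_div_assoc, Real.sqrt_mul (by norm_num)]
  have s4 : √(4 * ρ / (2 * π)) = 2 * √(ρ / (2 * π)) := by
    rw [mul_div_assoc, Real.sqrt_mul (by norm_num), show (4 : ℝ) = 2 ^ 2 by norm_num,
      Real.sqrt_sq (by norm_num)]
  have z2 : ((2 * ρ : ℝ) : ℂ) * cexp (θ * I) = 2 * (ρ * cexp (θ * I)) := by push_cast; ring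
  have z4 : ((4 * ρ : ℝ) : ℂ) * cexp (θ * I) = 4 * (ρ * cexp (θ * I)) := by push_cast; ring
  rw [s2, z2] at h2
  rw [s4, z4] at h4
  rw [show 24 * (π ^ 2 / 24) = π ^ 2 by ring, neg_one_mul, neg_one_mul]
  generalize (ρ : ℂ) * cexp (θ * I) = z at *
  have hz0 : z ≠ 0 := fun h => by simp [h] at hz
  have hq := norm_exp_neg_lt hz
  have hp := norm_exp_neg_lt hw
  have pw : ∀ (j : ℕ) (x y : ℂ), y = j * x → cexp y = cexp x ^ j := fun j x y h => by
    rw [h, exp_nat_mul]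
  rw [pw 4 (-(((π ^ 2 : ℝ) : ℂ) / z)) (-(((4 * π ^ 2 : ℝ) : ℂ) / z)) (by push_cast; ring)] at h1
  rw [pw 2 (-z) (-(2 * z)) (by push_cast; ring), pw 2 (-(((π ^ 2 : ℝ) : ℂ) / z))
    (-(((4 * π ^ 2 : ℝ) : ℂ) / (2 * z))) (by push_cast; field_simp; ring)] at h2
  rw [pw 4 (-z) (-(4 * z)) (by push_cast; ring), show ((4 * π ^ 2 : ℝ) : ℂ) / (4 * z) =
    ((π ^ 2 : ℝ) : ℂ) / z by push_cast; field_simp] at h4
  have a := E_neg hq
  have b := E_neg hp
  have ex : cexp (((π ^ 2 / 6 : ℝ) : ℂ) / (2 * z) - 2 * z / 24) ^ 3 =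
      cexp (((π ^ 2 / 24 : ℝ) : ℂ) / z - z / 24) * (cexp (((π ^ 2 / 6 : ℝ) : ℂ) / z - z / 24) *
        cexp (((π ^ 2 / 6 : ℝ) : ℂ) / (4 * z) - 4 * z / 24)) := by
    rw [← exp_add, ← exp_add, ← exp_nat_mul]
    congr 1
    push_cast
    field_simp
    ring
  have r2 : ((√2 : ℝ) : ℂ) ^ 2 = 2 := by
    rw [← ofReal_pow, Real.sq_sqrt (by norm_num)]
    simp
  refine mul_right_cancel₀ (mul_ne_zero (inv_ne_zero (E_ne hq))
    (inv_ne_zero (E_ne (norm_pow_lt hq 3)))) ?_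
  rw [a, h1, h2, h4, mul_pow, mul_pow, ex, ← b]
  simp only [ofReal_mul, ofReal_ofNat]
  generalize ((√(ρ / (2 * π)) : ℝ) : ℂ) = x
  generalize ((√2 : ℝ) : ℂ) = r at *
  generalize cexp (θ / 2 * I) = w
  generalize cexp (((π ^ 2 / 24 : ℝ) : ℂ) / z - z / 24) = u₁
  generalize cexp (((π ^ 2 / 6 : ℝ) : ℂ) / z - z / 24) = u₂
  generalize cexp (((π ^ 2 / 6 : ℝ) : ℂ) / (4 * z) - 4 * z / 24) = u₃
  generalize cexp (-(((π ^ 2 : ℝ) : ℂ) / z)) = p
  linear_combination (r * x ^ 3 * w ^ 3 * u₁ * u₂ * u₃ * (E (-p))⁻¹ * (E p)⁻¹ * (E (p ^ 4))⁻¹) * r2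

/-- The integrand near a cusp. -/
noncomputable def G (ε : ℂ) (n : ℕ) (z : ℂ) : ℂ := cexp (n * z) / E (ε * cexp (-z))

lemma G_diff {ε : ℂ} (hε : ‖ε‖ = 1) (n : ℕ) {z : ℂ} (hz : 0 < z.re) :
    DifferentiableAt ℂ (G ε n) z := by
  have h0 : ‖ε * cexp (-z)‖ < 1 := by
    rw [norm_mul, hε, one_mul]
    exact norm_exp_neg_lt hz
  have h1 : DifferentiableAt ℂ E (ε * cexp (-z)) :=
    E_diff.differentiableAt (Metric.isOpen_ball.mem_nhds (by simpa using h0))
  have h2 : DifferentiableAt ℂ (fun z => E (ε * cexp (-z))) z :=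
    h1.comp z (f := fun z => ε * cexp (-z)) (by fun_prop)
  exact DifferentiableAt.div (by fun_prop) h2 (E_ne h0)

lemma cos_ge {α θ : ℝ} (hα : α < π / 2) (h : |θ| ≤ α) : Real.cos α ≤ Real.cos θ := by
  rw [← Real.cos_abs θ]
  exact Real.cos_le_cos_of_nonneg_of_le_pi (abs_nonneg _) (by linarith [Real.pi_pos]) h

lemma shift {g : ℂ → ℂ} (hg : ∀ z : ℂ, 0 < z.re → DifferentiableAt ℂ g z) {t α : ℝ} (ht : 0 < t)
    (h0 : 0 < α) (hα : α < π / 2) :
    ∫ y in (-(t * Real.sin α))..(t * Real.sin α), g (((t * Real.cos α : ℝ) : ℂ) + y * I) =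
      ∫ θ in (-α)..α, g (t * cexp (θ * I)) * (t * cexp (θ * I)) := by
  have hc : 0 < Real.cos α := Real.cos_pos_of_mem_Ioo ⟨by linarith, hα⟩
  have hs : 0 < Real.sin α := Real.sin_pos_of_pos_of_lt_pi h0 (by linarith)
  obtain ⟨c, hc0, hcc⟩ : ∃ c : ℝ, 0 < c ∧ c * Real.cos α = t :=
    ⟨t / Real.cos α, by positivity, by field_simp⟩
  have hb : ∀ z ∈ Metric.ball (c : ℂ) c, 0 < z.re := fun z hz => by
    have h1 := abs_re_le_norm (z - (c : ℂ))
    rw [mem_ball_iff_norm] at hz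
    have h2 := (abs_lt.mp (h1.trans_lt hz)).1
    simp only [sub_re, ofReal_re] at h2
    linarith
  have hd : DifferentiableOn ℂ g (Metric.ball (c : ℂ) c) :=
    fun z hz => (hg z (hb z hz)).differentiableWithinAt
  obtain ⟨Φ, hΦ⟩ := hd.isExactOn_ball
  have hmem : ∀ z : ℂ, z.re ^ 2 + z.im ^ 2 ≤ t ^ 2 → t * Real.cos α ≤ z.re →
      z ∈ Metric.ball (c : ℂ) c := fun z hz hz' => by
    rw [mem_ball_iff_norm, ← sq_lt_sq₀ (norm_nonneg _) hc0.le, Complex.sq_norm, normSq_apply]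
    simp only [sub_re, ofReal_re, sub_im, ofReal_im]
    have h1 := mul_le_mul_of_nonneg_left hz' hc0.le
    have h2 : c * (t * Real.cos α) = t ^ 2 := by linear_combination t * hcc
    nlinarith [mul_pos ht ht]
  have hFc : ∀ {f : ℝ → ℂ} {a b : ℝ}, Continuous f → (∀ x ∈ Set.uIcc a b, 0 < (f x).re) →
      ContinuousOn (fun x => g (f x)) (Set.uIcc a b) := fun hf h x hx =>
    ((hg _ (h x hx)).continuousAt.comp hf.continuousAt).continuousWithinAt
  have habs : ∀ θ ∈ Set.uIcc (-α) α, |θ| ≤ α := fun θ h => by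
    rw [Set.uIcc_of_le (by linarith)] at h
    exact abs_le.mpr h
  have hsc : (t * Real.cos α) ^ 2 + (t * Real.sin α) ^ 2 = t ^ 2 := by
    linear_combination t ^ 2 * Real.sin_sq_add_cos_sq α
  rw [intervalIntegral.integral_eq_sub_of_hasDerivAt
      (f := fun y : ℝ => -I * Φ (((t * Real.cos α : ℝ) : ℂ) + y * I)),
    intervalIntegral.integral_eq_sub_of_hasDerivAt
      (f := fun θ : ℝ => -I * Φ (t * cexp (θ * I)))]
  · rw [exp_mul_I, exp_mul_I, ← ofReal_cos, ← ofReal_cos, ← ofReal_sin, ← ofReal_sin, Real.cos_neg,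
      Real.sin_neg]
    simp only [ofReal_mul, ofReal_neg]
    congr 3 <;> ring
  · intro θ hθ
    have h1 : HasDerivAt (fun w : ℂ => t * cexp (w * I)) (t * (cexp (θ * I) * I)) θ := by
      simpa using (((hasDerivAt_id (θ : ℂ)).mul_const I).cexp).const_mul (t : ℂ)
    have hm : (t : ℂ) * cexp (θ * I) ∈ Metric.ball (c : ℂ) c := by
      have e1 : ((t : ℂ) * cexp (θ * I)).im = t * Real.sin θ := by simp [exp_ofReal_mul_I_im]
      refine hmem _ ?_ ?_
      · rw [re_polar, e1]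
        exact le_of_eq (by linear_combination t ^ 2 * Real.sin_sq_add_cos_sq θ)
      · rw [re_polar]
        exact mul_le_mul_of_nonneg_left (cos_ge hα (habs θ hθ)) ht.le
    have h2 := (((hΦ _ hm).comp (θ : ℂ) h1).const_mul (-I)).comp_ofReal
    refine h2.congr_deriv ?_
    linear_combination (-(g (t * cexp (θ * I)) * (t * cexp (θ * I)))) * I_mul_I
  · refine ContinuousOn.intervalIntegrable (ContinuousOn.mul (hFc (by fun_prop) fun θ hθ => ?_)
      (by fun_prop))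
    rw [re_polar]
    exact mul_pos ht (hc.trans_le (cos_ge hα (habs θ hθ)))
  · intro y hy
    rw [Set.uIcc_of_le (by nlinarith)] at hy
    have h1 : HasDerivAt (fun w : ℂ => ((t * Real.cos α : ℝ) : ℂ) + w * I) I y := by
      simpa using ((hasDerivAt_id (y : ℂ)).mul_const I).const_add ((t * Real.cos α : ℝ) : ℂ)
    have hm : ((t * Real.cos α : ℝ) : ℂ) + y * I ∈ Metric.ball (c : ℂ) c := by
      refine hmem _ ?_ ?_ <;>
        simp only [add_re, ofReal_re, mul_re, I_re, mul_zero, ofReal_im, I_im, mul_one, sub_self,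
          add_zero, add_im, mul_im, zero_add]
      · nlinarith [hy.1, hy.2]
      · exact le_rfl
    have h2 := (((hΦ _ hm).comp (y : ℂ) h1).const_mul (-I)).comp_ofReal
    refine h2.congr_deriv ?_
    linear_combination (-(g (((t * Real.cos α : ℝ) : ℂ) + y * I))) * I_mul_I
  · refine ContinuousOn.intervalIntegrable (hFc (by fun_prop) fun y _ => ?_)
    simp only [add_re, ofReal_re, mul_re, I_re, mul_zero, ofReal_im, I_im, mul_one, sub_self,
      add_zero]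
    positivity

lemma gauss_tail {b s : ℝ} (hb : 0 < b) (hs : 0 ≤ s) :
    |(∫ x in (-s)..s, Real.exp (-b * x ^ 2)) - √(π / b)| ≤
      Real.exp (-(39 / 40 * b) * s ^ 2) * √(π / (b / 40)) := by
  have hi := integrable_exp_neg_mul_sq hb
  have hi2 := (integrable_exp_neg_mul_sq (b := b / 40) (by positivity)).const_mul
    (Real.exp (-(39 / 40 * b) * s ^ 2))
  have h1 := integral_add_compl (s := Set.Ioc (-s) s) measurableSet_Ioc hi
  rw [integral_gaussian, ← intervalIntegral.integral_of_le (by linarith)] at h1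
  have h2 : 0 ≤ ∫ x in (Set.Ioc (-s) s)ᶜ, Real.exp (-b * x ^ 2) :=
    integral_nonneg fun x => (Real.exp_pos _).le
  have h3 : ∫ x in (Set.Ioc (-s) s)ᶜ, Real.exp (-b * x ^ 2) ≤ ∫ x in (Set.Ioc (-s) s)ᶜ,
      Real.exp (-(39 / 40 * b) * s ^ 2) * Real.exp (-(b / 40) * x ^ 2) := by
    refine setIntegral_mono_on hi.integrableOn hi2.integrableOn measurableSet_Ioc.compl
      fun x hx => ?_
    rw [← Real.exp_add, Real.exp_le_exp]
    have : s ^ 2 ≤ x ^ 2 := by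
      simp only [Set.mem_compl_iff, Set.mem_Ioc, not_and_or, not_lt, not_le] at hx
      rcases hx with h | h <;> nlinarith
    nlinarith
  have h4 := setIntegral_le_integral (s := (Set.Ioc (-s) s)ᶜ) hi2
    (Eventually.of_forall fun x => by positivity)
  rw [integral_const_mul (μ := volume), integral_gaussian] at h4
  rw [abs_sub_comm, abs_of_nonneg (by linarith)]
  linarith

lemma gauss_part {μ α : ℝ} (hμ : 1 ≤ μ) (h0 : 0 < α) (hα : α < π / 2) :
    |(∫ θ in (-α)..α, Real.cos (3 * (θ / 2)) * Real.exp (μ * Real.cos θ)) -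
      2 * Real.exp μ * (1 - 1 / μ) * √(π / (2 * μ))| ≤
      20 * Real.exp (μ * (1 - 39 / 40 * (1 - Real.cos α))) := by
  have hμ0 : 0 < μ := by linarith
  set s := Real.sin (α / 2) with hs
  have hs2 : s ^ 2 = 1 / 2 - Real.cos α / 2 := by rw [hs, sin_sq_half]
  have hs0 : 0 ≤ s := Real.sin_nonneg_of_nonneg_of_le_pi (by linarith) (by linarith)
  have hs1 : s ≤ 1 := Real.sin_le_one _
  have h1 := intervalIntegral.integral_comp_mul_deriv (a := -α) (b := α)
    (f := fun θ => Real.sin (θ / 2)) (f' := fun θ => Real.cos (θ / 2) * (1 / 2))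
    (g := fun x => 2 * Real.exp μ * ((1 - 4 * x ^ 2) * Real.exp (-(2 * μ) * x ^ 2)))
    (fun θ _ => ((hasDerivAt_id θ).div_const 2).sin) (by fun_prop) (by fun_prop)
  have h2 : ∀ θ : ℝ, Real.cos (3 * (θ / 2)) * Real.exp (μ * Real.cos θ) =
      ((fun x => 2 * Real.exp μ * ((1 - 4 * x ^ 2) * Real.exp (-(2 * μ) * x ^ 2))) ∘
        fun θ => Real.sin (θ / 2)) θ * (Real.cos (θ / 2) * (1 / 2)) := by
    intro θ
    have e1 : μ * Real.cos θ = μ + -(2 * μ) * Real.sin (θ / 2) ^ 2 := by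
      rw [sin_sq_half]
      ring
    have e2 := Real.sin_sq_add_cos_sq (θ / 2)
    simp only [Function.comp_apply]
    rw [e1, Real.exp_add, Real.cos_three_mul]
    linear_combination (4 * Real.cos (θ / 2) * Real.exp μ *
      Real.exp (-(2 * μ) * Real.sin (θ / 2) ^ 2)) * e2
  simp_rw [h2]
  rw [h1, neg_div, Real.sin_neg, ← hs, intervalIntegral.integral_const_mul]
  have h3 : ∫ x in (-s)..s, (1 - 4 * μ * x ^ 2) * Real.exp (-(2 * μ) * x ^ 2) =
      2 * s * Real.exp (-(2 * μ) * s ^ 2) := by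
    rw [intervalIntegral.integral_eq_sub_of_hasDerivAt
      (f := fun x => x * Real.exp (-(2 * μ) * x ^ 2))]
    · rw [neg_sq]
      ring
    · intro x _
      have := (hasDerivAt_id x).mul (((hasDerivAt_pow 2 x).const_mul (-(2 * μ))).exp)
      refine this.congr_deriv ?_
      simp
      ring
    · exact Continuous.intervalIntegrable (by fun_prop) _ _
  have h4 : ∫ x in (-s)..s, (1 - 4 * x ^ 2) * Real.exp (-(2 * μ) * x ^ 2) =
      (1 - 1 / μ) * (∫ x in (-s)..s, Real.exp (-(2 * μ) * x ^ 2)) +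
        1 / μ * (2 * s * Real.exp (-(2 * μ) * s ^ 2)) := by
    rw [← h3, ← intervalIntegral.integral_const_mul, ← intervalIntegral.integral_const_mul,
      ← intervalIntegral.integral_add (Continuous.intervalIntegrable (by fun_prop) _ _)
        (Continuous.intervalIntegrable (by fun_prop) _ _)]
    refine intervalIntegral.integral_congr fun x _ => ?_
    field_simp
    ring
  have h5 := gauss_tail (b := 2 * μ) (by linarith) hs0
  rw [h4]
  generalize (∫ x in (-s)..s, Real.exp (-(2 * μ) * x ^ 2)) = J at *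
  have h6 : √(π / (2 * μ / 40)) ≤ 8 := by
    rw [Real.sqrt_le_iff, div_le_iff₀ (by positivity)]
    exact ⟨by norm_num, by nlinarith [Real.pi_lt_d2]⟩
  have h7 : Real.exp (-(2 * μ) * s ^ 2) ≤ Real.exp (-(39 / 40 * (2 * μ)) * s ^ 2) :=
    Real.exp_le_exp.mpr (by nlinarith [mul_nonneg hμ0.le (sq_nonneg s)])
  have h8 : Real.exp (μ * (1 - 39 / 40 * (1 - Real.cos α))) =
      Real.exp μ * Real.exp (-(39 / 40 * (2 * μ)) * s ^ 2) := by
    rw [← Real.exp_add, hs2]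
    congr 1
    ring
  have h9 : 1 / μ ≤ 1 := by rw [div_le_one hμ0]; exact hμ
  have h10 : 0 < 1 / μ := by positivity
  have hA := Real.exp_pos (-(2 * μ) * s ^ 2)
  have hB := Real.exp_pos (-(39 / 40 * (2 * μ)) * s ^ 2)
  rw [h8]
  generalize Real.exp (-(2 * μ) * s ^ 2) = A at *
  generalize Real.exp (-(39 / 40 * (2 * μ)) * s ^ 2) = B at *
  generalize 1 / μ = ι at *
  have e : 2 * Real.exp μ * ((1 - ι) * J + ι * (2 * s * A)) -
      2 * Real.exp μ * (1 - ι) * √(π / (2 * μ)) =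
      2 * Real.exp μ * ((1 - ι) * (J - √(π / (2 * μ))) + ι * (2 * s * A)) := by ring
  rw [e, abs_mul, abs_of_pos (by positivity)]
  have h11 : |(1 - ι) * (J - √(π / (2 * μ))) + ι * (2 * s * A)| ≤ 10 * B := by
    refine (abs_add_le _ _).trans ?_
    rw [abs_mul, abs_of_nonneg (by linarith), abs_of_nonneg (a := ι * _) (by positivity)]
    have k1 : |J - √(π / (2 * μ))| ≤ 8 * B := by nlinarith
    have k2 : (1 - ι) * |J - √(π / (2 * μ))| ≤ 1 * (8 * B) := by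
      gcongr
      linarith
    have k3 : ι * (2 * s * A) ≤ 1 * (2 * 1 * B) := by gcongr
    linarith
  nlinarith [Real.exp_pos μ]

lemma norm_dual {ε : ℂ} (hε : ‖ε‖ = 1) (β : ℝ) {t : ℝ} (ht : 0 < t) (θ : ℝ) :
    ‖ε * cexp (-((β : ℂ) / (t * cexp (θ * I))))‖ = Real.exp (-(β / t * Real.cos θ)) := by
  rw [norm_mul, hε, one_mul, norm_exp, neg_re, re_div_polar _ ht, re_polar, Real.cos_neg]

lemma G_polar {ε : ℂ} {c B : ℝ} (hT : Tr ε c B) {n : ℕ} {μ t θ : ℝ} (ht : 0 < t)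
    (hθ : |θ| < π / 2) (h1 : B / t = μ / 2) (h2 : (n - 1 / 24) * t = μ / 2) :
    G ε n (t * cexp (θ * I)) * (t * cexp (θ * I)) =
      ((c * t * √(t / (2 * π)) * Real.exp (μ * Real.cos θ) : ℝ) : ℂ) *
      cexp ((3 * (θ / 2) : ℝ) * I) *
      (E (ε * cexp (-(((24 * B : ℝ) : ℂ) / (t * cexp (θ * I))))))⁻¹ := by
  unfold G
  rw [div_eq_mul_inv, hT t θ ht hθ, re_div_polar _ ht, h1]
  have e1 : cexp (n * (t * cexp (θ * I))) *
      cexp (((μ / 2 : ℝ) : ℂ) * cexp ((-θ : ℝ) * I) - t * cexp (θ * I) / 24) =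
      (Real.exp (μ * Real.cos θ) : ℝ) := by
    have h3 : ((n : ℂ) - 1 / 24) * t = μ / 2 := by
      have := congrArg (fun x : ℝ => (x : ℂ)) h2
      simpa using this
    rw [← exp_add, ofReal_exp]
    congr 1
    push_cast
    linear_combination cexp (θ * I) * h3 - μ / 2 * two_cos (θ : ℂ)
  have e2 : cexp ((3 * (θ / 2) : ℝ) * I) = cexp (θ / 2 * I) * cexp (θ * I) := by
    rw [← exp_add]
    congr 1
    push_cast
    ring
  rw [e2, ofReal_mul (c * t * √(t / (2 * π))), ofReal_mul (c * t), ofReal_mul c, ofReal_mul c, ← e1]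
  ring

lemma arc_bound {C δ : ℝ} (hC : 0 < C) (hE : ∀ q : ℂ, ‖q‖ < δ → ‖(E q)⁻¹ - 1‖ ≤ C * ‖q‖)
    {ε : ℂ} (hε : ‖ε‖ = 1) {c B : ℝ} (hc0 : 0 < c) (hc : c ≤ 2) (hT : Tr ε c B)
    {n : ℕ} {μ t α : ℝ} (ht : 0 < t) (ht1 : t ≤ 1 / 100) (hμ : 0 < μ) (h0 : 0 < α)
    (hα : α < π / 2) (ha : 1 / 12 ≤ Real.cos α) (h1 : B / t = μ / 2)
    (h2 : (n - 1 / 24) * t = μ / 2) (h3 : Real.exp (-(μ / 100)) < δ) :
    ‖(∫ θ in (-α)..α, G ε n (t * cexp (θ * I)) * (t * cexp (θ * I))) -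
      ∫ θ in (-α)..α, ((c * t * √(t / (2 * π)) * Real.exp (μ * Real.cos θ) : ℝ) : ℂ) *
        cexp ((3 * (θ / 2) : ℝ) * I)‖ ≤ C * π := by
  have habs : ∀ θ ∈ Set.uIcc (-α) α, |θ| ≤ α := fun θ h => by
    rw [Set.uIcc_of_le (by linarith)] at h
    exact abs_le.mpr h
  rw [← intervalIntegral.integral_sub ?_ (Continuous.intervalIntegrable (by fun_prop) _ _)]
  · refine (intervalIntegral.norm_integral_le_of_norm_le_const (C := C) fun θ hθ => ?_).trans ?_
    · have hθ' := habs θ (Set.uIoc_subset_uIcc hθ)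
      have hc := ha.trans (cos_ge hα hθ')
      have g4 := norm_dual hε (24 * B) ht θ
      have g5 : Real.exp (-(24 * B / t * Real.cos θ)) ≤ Real.exp (-μ) := by
        rw [Real.exp_le_exp, neg_le_neg_iff, mul_div_assoc, h1]
        nlinarith
      have g5' : Real.exp (-μ) ≤ Real.exp (-(μ / 100)) := Real.exp_le_exp.mpr (by linarith)
      have g6 := hE _ (g4 ▸ (g5.trans g5').trans_lt h3)
      rw [g4] at g6
      rw [G_polar hT ht (hθ'.trans_lt hα) h1 h2, ← mul_sub_one, norm_mul, norm_mul,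
        norm_exp_ofReal_mul_I, mul_one, norm_real, Real.norm_of_nonneg (by positivity)]
      have g7 : c * t ≤ 1 := by nlinarith
      calc _ ≤ 1 * 1 * Real.exp μ * (C * Real.exp (-μ)) := by
            gcongr
            · exact sqrt_le_one' (by linarith)
            · nlinarith [Real.cos_le_one θ]
            · exact g6.trans (by gcongr)
        _ = C := by
            rw [Real.exp_neg]
            field_simp
    · rw [abs_of_nonneg (by linarith)]
      gcongr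
      linarith
  · refine ContinuousOn.intervalIntegrable (ContinuousOn.mul (fun θ hθ => ?_) (by fun_prop))
    refine ((G_diff hε n ?_).continuousAt.comp (f := fun θ : ℝ => (t : ℂ) * cexp (θ * I))
      (by fun_prop)).continuousWithinAt
    rw [re_polar]
    have := ha.trans (cos_ge hα (habs θ hθ))
    positivity

lemma side_bound {C δ : ℝ} (hC : 0 < C) (hE : ∀ q : ℂ, ‖q‖ < δ → ‖(E q)⁻¹ - 1‖ ≤ C * ‖q‖)
    {ε : ℂ} (hε : ‖ε‖ = 1) {c B : ℝ} (hc0 : 0 < c) (hc : c ≤ 2) (hT : Tr ε c B)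
    {n : ℕ} {μ t a y : ℝ} (ht : 0 < t) (ht1 : t ≤ 1 / 100) (hμ : 0 < μ) (ha : 0 < a) (ha1 : a ≤ 1)
    (h1 : B / t = μ / 2) (h2 : (n - 1 / 24) * t = μ / 2) (h3 : Real.exp (-(μ / 100)) < δ)
    (h4 : C * Real.exp (-(μ / 100)) ≤ 1) (hy : t ^ 2 ≤ (t * a) ^ 2 + y ^ 2)
    (hy' : y ^ 2 ≤ (30 * (t * a)) ^ 2) :
    ‖G ε n (((t * a : ℝ) : ℂ) + y * I)‖ ≤ 4 * Real.exp (μ * a) := by
  have hre : (((t * a : ℝ) : ℂ) + y * I).re = t * a := by simp
  have hsq : ‖((t * a : ℝ) : ℂ) + y * I‖ ^ 2 = (t * a) ^ 2 + y ^ 2 := by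
    rw [Complex.sq_norm, normSq_add_mul_I]
  generalize ((t * a : ℝ) : ℂ) + y * I = z at *
  have hta : 0 < t * a := by positivity
  have hθ : |arg z| < π / 2 := abs_arg_lt_pi_div_two_iff.mpr (Or.inl (by rw [hre]; exact hta))
  have hz := norm_mul_exp_arg_mul_I z
  have hρ : 0 < ‖z‖ := lt_of_lt_of_le (by rw [hre]; exact hta) (re_le_norm z)
  generalize arg z = θ at *
  generalize ‖z‖ = ρ at *
  subst hz
  have hn : ((n : ℂ) * (ρ * cexp (θ * I))).re = n * (t * a) := by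
    rw [← hre]
    simp
  have hx : ((B : ℂ) / (ρ * cexp (θ * I)) - ρ * cexp (θ * I) / 24).re =
      B / ρ * Real.cos θ - t * a / 24 := by
    rw [sub_re, re_div_polar _ hρ, re_polar, Real.cos_neg, ← hre]
    simp
  rw [re_polar] at hre
  have hB : B = μ / 2 * t := by
    rw [← h1]
    field_simp
  have hk : B / ρ * Real.cos θ = μ / 2 * a * (t ^ 2 / ρ ^ 2) := by
    rw [hB]
    field_simp
    linear_combination hre
  have k1 : t ^ 2 / ρ ^ 2 ≤ 1 := by
    rw [div_le_one (by positivity)]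
    linarith
  have k2 : 1 / 901 ≤ a * (t ^ 2 / ρ ^ 2) := by
    rw [← mul_div_assoc, div_le_div_iff₀ (by norm_num) (by positivity)]
    have : (t * a) ^ 2 ≤ a * t ^ 2 := by nlinarith [mul_pos ha (mul_pos ht ht)]
    nlinarith
  have k3 : ρ ≤ 1 := by
    have : (t * a) ^ 2 ≤ (1 / 100) ^ 2 := by
      gcongr
      nlinarith
    nlinarith
  have g4 := norm_dual hε (24 * B) hρ θ
  have g5 : Real.exp (-(24 * B / ρ * Real.cos θ)) ≤ Real.exp (-(μ / 100)) := by
    rw [Real.exp_le_exp, neg_le_neg_iff, mul_div_assoc, mul_assoc, hk]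
    nlinarith
  have g6 := hE _ (g4 ▸ g5.trans_lt h3)
  rw [g4] at g6
  have g7 : ‖(E (ε * cexp (-(((24 * B : ℝ) : ℂ) / (ρ * cexp (θ * I))))))⁻¹‖ ≤ 2 := by
    have := norm_add_le ((E (ε * cexp (-(((24 * B : ℝ) : ℂ) / (ρ * cexp (θ * I))))))⁻¹ - 1) 1
    rw [sub_add_cancel, norm_one] at this
    nlinarith
  have g8 : ‖cexp (θ / 2 * I)‖ = 1 := by simp [norm_exp]
  unfold G
  rw [div_eq_mul_inv, hT ρ θ hρ hθ, norm_mul, norm_mul, norm_mul, norm_mul, g8, norm_exp, norm_exp,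
    hn, hx, norm_real, Real.norm_of_nonneg (by positivity), hk]
  calc _ ≤ Real.exp (n * (t * a)) * (2 * 1 * 1 * Real.exp (μ / 2 * a * 1 - t * a / 24) * 2) := by
        gcongr
        exact sqrt_le_one' k3
    _ = 4 * Real.exp (n * (t * a) + (μ / 2 * a * 1 - t * a / 24)) := by
        rw [Real.exp_add]
        ring
    _ = _ := by
        congr 2
        linear_combination a * h2

lemma G_int {ε : ℂ} (hε : ‖ε‖ = 1) (n : ℕ) {σ : ℝ} (hσ : 0 < σ) (a b : ℝ) :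
    IntervalIntegrable (fun y : ℝ => G ε n ((σ : ℂ) + y * I)) volume a b := by
  refine Continuous.intervalIntegrable (continuous_iff_continuousAt.mpr fun y => ?_) _ _
  exact (G_diff hε n (by simpa using hσ)).continuousAt.comp
    (f := fun y : ℝ => (σ : ℂ) + y * I) (by fun_prop)

lemma cusp {C δ : ℝ} (hC : 0 < C) (hE : ∀ q : ℂ, ‖q‖ < δ → ‖(E q)⁻¹ - 1‖ ≤ C * ‖q‖)
    {ε : ℂ} (hε : ‖ε‖ = 1) {c B : ℝ} (hc0 : 0 < c) (hc : c ≤ 2) (hT : Tr ε c B)
    {n : ℕ} {μ t a : ℝ} (ht : 0 < t) (ht1 : t ≤ 1 / 100) (hμ : 1 ≤ μ) (ha : 1 / 12 ≤ a)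
    (ha1 : a < 1) (h1 : B / t = μ / 2) (h2 : (n - 1 / 24) * t = μ / 2)
    (h3 : Real.exp (-(μ / 100)) < δ) (h4 : C * Real.exp (-(μ / 100)) ≤ 1) :
    |(∫ y in (-(30 * (t * a)))..(30 * (t * a)), G ε n (((t * a : ℝ) : ℂ) + y * I)).re -
      c * (2 * B * √(2 * B)) * (μ - 1) / μ ^ 3 * Real.exp μ| ≤
      (C * π + 28) * Real.exp (μ * (1 - 39 / 40 * (1 - a))) := by
  have hπ := Real.pi_pos
  have hμ0 : 0 < μ := by linarith
  have ha0 : 0 < a := by linarith
  obtain ⟨α, h0, hα, rfl⟩ : ∃ α : ℝ, 0 < α ∧ α < π / 2 ∧ a = Real.cos α :=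
    ⟨Real.arccos a, Real.arccos_pos.mpr ha1, Real.arccos_lt_pi_div_two.mpr ha0,
      (Real.cos_arccos (by linarith) ha1.le).symm⟩
  have hs : 0 < Real.sin α := Real.sin_pos_of_pos_of_lt_pi h0 (by linarith)
  have hs1 := Real.sin_le_one α
  have hta : 0 < t * Real.cos α := by positivity
  have hts : 0 < t * Real.sin α := by positivity
  have hI := G_int hε n hta
  have hY : t * Real.sin α ≤ 30 * (t * Real.cos α) := by nlinarith
  have hY1 : 30 * (t * Real.cos α) ≤ 1 := by nlinarith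
  have hsc : (t * Real.cos α) ^ 2 + (t * Real.sin α) ^ 2 = t ^ 2 := by
    linear_combination t ^ 2 * Real.sin_sq_add_cos_sq α
  rw [← intervalIntegral.integral_add_adjacent_intervals (hI _ (-(t * Real.sin α))) (hI _ _),
    ← intervalIntegral.integral_add_adjacent_intervals (hI (-(t * Real.sin α)) (t * Real.sin α))
      (hI _ _), shift (fun z hz => G_diff hε n hz) ht h0 hα]
  have k1 : ‖∫ y in (-(30 * (t * Real.cos α)))..(-(t * Real.sin α)),
      G ε n (((t * Real.cos α : ℝ) : ℂ) + y * I)‖ ≤ 4 * Real.exp (μ * Real.cos α) * 1 := by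
    refine (intervalIntegral.norm_integral_le_of_norm_le_const
      (C := 4 * Real.exp (μ * Real.cos α)) fun y hy => ?_).trans ?_
    · rw [Set.uIoc_of_le (by linarith)] at hy
      exact side_bound hC hE hε hc0 hc hT ht ht1 hμ0 ha0 ha1.le h1 h2 h3 h4
        (by nlinarith [hy.2]) (by nlinarith [hy.1, hy.2])
    · rw [abs_of_nonneg (by linarith)]
      gcongr
      linarith
  have k2 : ‖∫ y in (t * Real.sin α)..(30 * (t * Real.cos α)),
      G ε n (((t * Real.cos α : ℝ) : ℂ) + y * I)‖ ≤ 4 * Real.exp (μ * Real.cos α) * 1 := by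
    refine (intervalIntegral.norm_integral_le_of_norm_le_const
      (C := 4 * Real.exp (μ * Real.cos α)) fun y hy => ?_).trans ?_
    · rw [Set.uIoc_of_le (by linarith)] at hy
      exact side_bound hC hE hε hc0 hc hT ht ht1 hμ0 ha0 ha1.le h1 h2 h3 h4
        (by nlinarith [hy.1]) (by nlinarith [hy.1, hy.2])
    · rw [abs_of_nonneg (by linarith)]
      gcongr
      linarith
  have k3 := arc_bound hC hE hε hc0 hc hT ht ht1 hμ0 h0 hα ha h1 h2 h3
  have k4 : (∫ θ in (-α)..α, ((c * t * √(t / (2 * π)) * Real.exp (μ * Real.cos θ) : ℝ) : ℂ) *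
      cexp ((3 * (θ / 2) : ℝ) * I)).re = c * t * √(t / (2 * π)) *
      ∫ θ in (-α)..α, Real.cos (3 * (θ / 2)) * Real.exp (μ * Real.cos θ) := by
    rw [← reCLM_apply, ← ContinuousLinearMap.intervalIntegral_comp_comm _
      (Continuous.intervalIntegrable (by fun_prop) _ _), ← intervalIntegral.integral_const_mul]
    refine intervalIntegral.integral_congr fun θ _ => ?_
    simp only [reCLM_apply, re_polar]
    ring
  have k5 := gauss_part hμ h0 hα
  have k11 : Real.exp (μ * Real.cos α) ≤ Real.exp (μ * (1 - 39 / 40 * (1 - Real.cos α))) :=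
    Real.exp_le_exp.mpr (by nlinarith)
  have k12 : 1 ≤ Real.exp (μ * Real.cos α) := Real.one_le_exp (by positivity)
  generalize (∫ θ in (-α)..α, Real.cos (3 * (θ / 2)) * Real.exp (μ * Real.cos θ)) = J at *
  generalize (∫ θ in (-α)..α, ((c * t * √(t / (2 * π)) * Real.exp (μ * Real.cos θ) : ℝ) : ℂ) *
      cexp ((3 * (θ / 2) : ℝ) * I)) = M at *
  generalize (∫ θ in (-α)..α, G ε n (t * cexp (θ * I)) * (t * cexp (θ * I))) = A at *
  generalize (∫ y in (t * Real.sin α)..(30 * (t * Real.cos α)),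
      G ε n (((t * Real.cos α : ℝ) : ℂ) + y * I)) = V₂ at *
  generalize (∫ y in (-(30 * (t * Real.cos α)))..(-(t * Real.sin α)),
      G ε n (((t * Real.cos α : ℝ) : ℂ) + y * I)) = V₁ at *
  generalize Real.exp (μ * (1 - 39 / 40 * (1 - Real.cos α))) = X at *
  generalize Real.exp (μ * Real.cos α) = X' at *
  have k6 : |(V₁ + (A + V₂)).re - c * t * √(t / (2 * π)) * J| ≤ 4 * X' * 1 + C * π + 4 * X' * 1 := by
    have e : (V₁ + (A + V₂)).re - c * t * √(t / (2 * π)) * J = (V₁ + (A - M) + V₂).re := by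
      simp only [add_re, sub_re]
      linarith
    rw [e]
    exact (abs_re_le_norm _).trans (norm_add₃_le.trans (by linarith))
  have hB : B = μ / 2 * t := by
    rw [← h1]
    field_simp
  have k7 : √(t / (2 * π)) * √(π / (2 * μ)) = √(2 * B) / (2 * μ) := by
    have e : t / (2 * π) * (π / (2 * μ)) = 2 * B / (2 * μ) ^ 2 := by
      rw [hB]
      field_simp
    rw [← Real.sqrt_mul (by positivity), e, Real.sqrt_div (by rw [hB]; positivity),
      Real.sqrt_sq (by positivity)]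
  have k8 : c * (2 * B * √(2 * B)) * (μ - 1) / μ ^ 3 * Real.exp μ =
      c * t * √(t / (2 * π)) * (2 * Real.exp μ * (1 - 1 / μ) * √(π / (2 * μ))) := by
    have : c * t * √(t / (2 * π)) * (2 * Real.exp μ * (1 - 1 / μ) * √(π / (2 * μ))) =
        c * t * (2 * Real.exp μ * (1 - 1 / μ)) * (√(t / (2 * π)) * √(π / (2 * μ))) := by ring
    rw [this, k7]
    generalize √(2 * B) = w
    rw [hB]
    field_simp
  have k9 : |c * t * √(t / (2 * π)) * J - c * t * √(t / (2 * π)) *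
      (2 * Real.exp μ * (1 - 1 / μ) * √(π / (2 * μ)))| ≤ 1 * 1 * (20 * X) := by
    have g7 : c * t ≤ 1 := by nlinarith
    rw [← mul_sub, abs_mul, abs_of_nonneg (by positivity)]
    gcongr
    exact sqrt_le_one' (by linarith)
  have k10 := (abs_sub_le _ _ _).trans (add_le_add k6 k9)
  rw [k8]
  refine k10.trans ?_
  have k13 : C * π * 1 ≤ C * π * X := by
    gcongr
    linarith
  linarith

lemma factor_le {u : ℂ} (hu : ‖u‖ < 1) :
    1 - ‖u‖ ≤ ‖1 - u‖ * Real.exp (u.re - ‖u‖ + ((u ^ 2).re - ‖u‖ ^ 2) / 2) := by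
  have h1 := (Complex.hasSum_taylorSeries_neg_log hu).mapL Complex.reCLM
  have h2 := (Complex.hasSum_taylorSeries_neg_log (z := (‖u‖ : ℂ)) (by simpa using hu)).mapL
    Complex.reCLM
  have e0 : ∀ j : ℕ, ((‖u‖ : ℂ) ^ j / j).re = ‖u‖ ^ j / j := fun j => by
    rw [← ofReal_pow, ← ofReal_natCast, ← ofReal_div, ofReal_re]
  have h3 := sum_le_hasSum {1, 2} (fun j _ => by
    have : (u ^ j / j).re ≤ ‖u‖ ^ j / j := by
      refine (re_le_norm _).trans (le_of_eq ?_)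
      simp
    simp only [reCLM_apply, e0]
    linarith) (h2.sub h1)
  have hp : 0 < 1 - ‖u‖ := by linarith
  have hn : 0 < ‖1 - u‖ := by
    have := one_sub_pow_ne hu 0
    simpa using this
  have e : ‖1 - (‖u‖ : ℂ)‖ = 1 - ‖u‖ := by
    rw [← ofReal_one, ← ofReal_sub, norm_real, Real.norm_of_nonneg hp.le]
  rw [sum_pair (by norm_num)] at h3
  simp only [reCLM_apply, neg_re, log_re, e, pow_one, Nat.cast_one, div_one, Nat.cast_ofNat,
    div_ofNat_re, ofReal_re, ← ofReal_pow] at h3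
  calc 1 - ‖u‖ = Real.exp (Real.log (1 - ‖u‖)) := (Real.exp_log hp).symm
    _ ≤ Real.exp (Real.log ‖1 - u‖ + (u.re - ‖u‖ + ((u ^ 2).re - ‖u‖ ^ 2) / 2)) :=
        Real.exp_le_exp.mpr (by linarith)
    _ = _ := by rw [Real.exp_add, Real.exp_log hn]

lemma EN_le {q : ℂ} (hq : ‖q‖ < 1) (N : ℕ) :
    ‖EN N (‖q‖ : ℂ)‖ ≤ ‖EN N q‖ * Real.exp (∑ i ∈ range N, ((q ^ (i + 1)).re - ‖q‖ ^ (i + 1) +
      (((q ^ 2) ^ (i + 1)).re - (‖q‖ ^ 2) ^ (i + 1)) / 2)) := by
  unfold EN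
  rw [norm_prod, norm_prod, Real.exp_sum, ← prod_mul_distrib]
  refine prod_le_prod (fun _ _ => norm_nonneg _) fun i _ => ?_
  have h1 := norm_pow_lt hq i
  have h2 := factor_le h1
  rw [norm_pow] at h1 h2
  rw [← ofReal_pow, ← ofReal_one, ← ofReal_sub, norm_real, Real.norm_of_nonneg (by linarith),
    ← pow_mul q, ← pow_mul ‖q‖, mul_comm 2, pow_mul, pow_mul]
  exact h2

lemma E_le {q : ℂ} (hq : ‖q‖ < 1) :
    ‖E (‖q‖ : ℂ)‖ ≤ ‖E q‖ * Real.exp ((q / (1 - q)).re - ‖q‖ / (1 - ‖q‖) +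
      ((q ^ 2 / (1 - q ^ 2)).re - ‖q‖ ^ 2 / (1 - ‖q‖ ^ 2)) / 2) := by
  have a : ∀ q : ℂ, ‖q‖ < 1 → HasSum (fun i : ℕ => (q ^ (i + 1)).re) (q / (1 - q)).re := by
    intro q hq
    have h1 : HasSum (fun i : ℕ => q ^ (i + 1)) (q / (1 - q)) := by
      have := (hasSum_geometric_of_norm_lt_one hq).mul_left q
      simpa [pow_succ', div_eq_mul_inv] using this
    exact h1.mapL Complex.reCLM
  have b : ∀ r : ℝ, 0 ≤ r → r < 1 → HasSum (fun i : ℕ => r ^ (i + 1)) (r / (1 - r)) := by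
    intro r h0 h1
    have := (hasSum_geometric_of_lt_one h0 h1).mul_left r
    simpa [pow_succ', div_eq_mul_inv] using this
  have q2 := norm_pow_lt hq 1
  have h3 := (((a q hq).sub (b _ (norm_nonneg q) hq)).add (((a _ q2).sub
    (b (‖q‖ ^ 2) (by positivity) (by rwa [norm_pow] at q2))).div_const 2)).tendsto_sum_nat
  refine le_of_tendsto_of_tendsto' (EN_tendsto (q := (‖q‖ : ℂ)) (by simpa using hq)).norm
    ((EN_tendsto hq).norm.mul ((Real.continuous_exp.tendsto _).comp h3)) fun N => EN_le hq N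

lemma gain {σ y v : ℝ} (hσ : 0 < σ) (hv : 0 < v) (hy : v ≤ 1 - Real.cos y) :
    (cexp (-(σ + y * I)) / (1 - cexp (-(σ + y * I)))).re -
      Real.exp (-σ) / (1 - Real.exp (-σ)) ≤ σ / (2 * v) - 1 / σ + 1 := by
  have hn := norm_exp_neg σ y
  have hre : (cexp (-(σ + y * I))).re = Real.exp (-σ) * Real.cos y := by
    rw [exp_re]
    simp
  generalize cexp (-(σ + y * I)) = q at *
  have hr1 : Real.exp (-σ) < 1 := by
    rw [Real.exp_lt_one_iff]
    linarith
  have hr2 := Real.add_one_le_exp (-σ)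
  have hr0 := Real.exp_pos (-σ)
  generalize Real.exp (-σ) = r at *
  have hsq : q.re ^ 2 + q.im ^ 2 = r ^ 2 := by
    rw [← hn, Complex.sq_norm, normSq_apply]
    ring
  obtain ⟨w, hw⟩ : ∃ w, w = 1 - Real.cos y := ⟨_, rfl⟩
  have hu0 : 0 < 1 - r := by linarith
  have hw0 : 0 < w := by linarith
  have e1 : (q / (1 - q)).re = (r * (1 - r) - r * w) / ((1 - r) ^ 2 + 2 * r * w) := by
    have e : normSq (1 - q) = (1 - r) ^ 2 + 2 * r * w := by
      rw [normSq_apply, hw]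
      simp
      linear_combination hsq - 2 * hre
    rw [div_re, e, ← add_div, hw]
    congr 1
    simp
    linear_combination hre - hsq
  have e2 : (r * (1 - r) - r * w) / ((1 - r) ^ 2 + 2 * r * w) ≤ σ / (2 * v) := by
    calc _ ≤ r * σ / (2 * r * v) := by
          refine div_le_div₀ (by positivity) ?_ (by positivity) ?_
          · nlinarith
          · nlinarith [sq_nonneg (1 - r)]
      _ = _ := by field_simp
  have e3 : 1 / σ ≤ r / (1 - r) + 1 := by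
    rw [div_add_one hu0.ne', add_sub_cancel]
    exact one_div_le_one_div_of_le hu0 (by linarith)
  rw [e1]
  linarith

lemma minor {C δ : ℝ} (hC : 0 < C) (hE : ∀ q : ℂ, ‖q‖ < δ → ‖(E q)⁻¹ - 1‖ ≤ C * ‖q‖)
    {n : ℕ} {μ t y : ℝ} (ht : 0 < t) (ht1 : t ≤ 1 / 100) (hμ : 1000 ≤ μ)
    (h1 : π ^ 2 / 6 / t = μ / 2) (h2 : (n - 1 / 24) * t = μ / 2)
    (h3 : Real.exp (-(μ / 100)) < δ) (h4 : C * Real.exp (-(μ / 100)) ≤ 1)
    (hy : 19 * (t * (12 / 25)) ≤ |Real.sin y|) :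
    ‖F n (((t * (12 / 25) : ℝ) : ℂ) + y * I)‖ ≤ 2 * Real.exp (0.495 * μ) := by
  have hπ : π ^ 2 = 3 * μ * t := by
    field_simp at h1
    linarith
  obtain ⟨σ, hσt⟩ : ∃ σ : ℝ, σ = t * (12 / 25) := ⟨_, rfl⟩
  rw [← hσt] at hy ⊢
  have hσ : 0 < σ := by rw [hσt]; positivity
  have hμ0 : 0 < μ := by linarith
  have hq := norm_exp_neg_lt (z := (σ : ℂ) + y * I) (by simpa using hσ)
  have g1 := E_le hq
  have hy2 : (19 * σ) ^ 2 ≤ Real.sin y ^ 2 := by
    rw [← sq_abs (Real.sin y)]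
    gcongr
  have hsc := Real.sin_sq_add_cos_sq y
  have g2 := gain (σ := σ) (y := y) (v := (19 * σ) ^ 2 / 2) hσ (by positivity)
    (by nlinarith [sq_nonneg (1 - Real.cos y)])
  have g2' := gain (σ := 2 * σ) (y := 2 * y) (v := 2 * (19 * σ) ^ 2) (by positivity)
    (by positivity) (by rw [Real.cos_two_mul]; linarith)
  rw [show cexp (-(((2 * σ : ℝ) : ℂ) + ((2 * y : ℝ) : ℂ) * I)) = cexp (-(σ + y * I)) ^ 2 by
      rw [← exp_nat_mul]; congr 1; push_cast; ring,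
    show Real.exp (-(2 * σ)) = Real.exp (-σ) ^ 2 by
      rw [← Real.exp_nat_mul]; congr 1; push_cast; ring] at g2'
  rw [norm_exp_neg] at g1 hq
  have g3 := E_trans (θ := 0) hσ (by simpa using Real.pi_pos)
  have g4 := Pool.Agent.MP_ed4d7b_nt.norm_dual hσ 0
  simp only [ofReal_zero, zero_mul, exp_zero, mul_one, zero_div, Real.cos_zero] at g3 g4
  have hpi : π ^ 2 ≤ 9.87 := by nlinarith [Real.pi_lt_d4, Real.pi_pos]
  have g5 : Real.exp (-(4 * π ^ 2 / σ)) ≤ Real.exp (-(μ / 100)) := by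
    rw [Real.exp_le_exp, neg_le_neg_iff, le_div_iff₀ hσ, hπ, hσt]
    nlinarith [mul_pos hμ0 ht]
  have g6 := hE _ (g4 ▸ g5.trans_lt h3)
  rw [g4] at g6
  have g7 : ‖(E (cexp (-(((4 * π ^ 2 : ℝ) : ℂ) / (σ : ℂ)))))⁻¹‖ ≤ 2 := by
    have := norm_add_le ((E (cexp (-(((4 * π ^ 2 : ℝ) : ℂ) / (σ : ℂ)))))⁻¹ - 1) 1
    rw [sub_add_cancel, norm_one] at this
    nlinarith
  have g8 : ‖E (Real.exp (-σ) : ℝ)‖⁻¹ ≤ 1 * Real.exp (25 / 24 * μ - σ / 24) * 2 := by
    rw [← norm_inv, ofReal_exp, ofReal_neg, g3, norm_mul, norm_mul, norm_exp, norm_real,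
      Real.norm_of_nonneg (Real.sqrt_nonneg _)]
    have e : (((π ^ 2 / 6 : ℝ) : ℂ) / (σ : ℂ) - (σ : ℂ) / 24).re = 25 / 24 * μ - σ / 24 := by
      rw [← ofReal_div, ← ofReal_ofNat 24, ← ofReal_div, ← ofReal_sub, ofReal_re, hπ, hσt]
      field_simp
      ring
    rw [e]
    gcongr
    exact sqrt_le_one' (by linarith)
  have hEr : 0 < ‖E (Real.exp (-σ) : ℝ)‖ := norm_pos_iff.mpr (E_ne (by
    rwa [norm_real, Real.norm_of_nonneg (Real.exp_pos _).le]))
  have hEq : 0 < ‖E (cexp (-((σ : ℂ) + y * I)))‖ :=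
    norm_pos_iff.mpr (E_ne (by rwa [norm_exp_neg]))
  have e4 : σ / (2 * ((19 * σ) ^ 2 / 2)) = 1 / 361 * (1 / σ) := by
    field_simp
    norm_num
  have e5 : 2 * σ / (2 * (2 * (19 * σ) ^ 2)) = 1 / 722 * (1 / σ) := by
    field_simp
    norm_num
  have e6 : 1 / (2 * σ) = 1 / 2 * (1 / σ) := by field_simp
  rw [e4] at g2
  rw [e5, e6] at g2'
  have g10 : 0.6332 * μ ≤ 1 / σ := by
    rw [le_div_iff₀ hσ, hσt]
    linarith
  have g9 : ‖E (cexp (-((σ : ℂ) + y * I)))‖⁻¹ ≤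
      ‖E (Real.exp (-σ) : ℝ)‖⁻¹ * Real.exp (-(0.787 * μ)) := by
    rw [inv_mul_eq_div, inv_eq_one_div, div_le_div_iff₀ hEq hEr, one_mul]
    exact g1.trans ((mul_le_mul_of_nonneg_left (Real.exp_le_exp.mpr (by linarith)) hEq.le).trans_eq
      (mul_comm _ _))
  unfold F
  rw [norm_div, norm_exp, div_eq_mul_inv]
  have e : ((n : ℂ) * ((σ : ℂ) + y * I)).re = n * σ := by simp
  rw [e]
  calc _ ≤ Real.exp (n * σ) * (1 * Real.exp (25 / 24 * μ - σ / 24) * 2 *
        Real.exp (-(0.787 * μ))) := by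
        gcongr
        exact g9.trans (by gcongr)
    _ = 2 * Real.exp (n * σ + (25 / 24 * μ - σ / 24) + -(0.787 * μ)) := by
        rw [Real.exp_add, Real.exp_add]
        ring
    _ ≤ _ := by
        gcongr
        rw [hσt]
        linarith

lemma sin_ge {Y y : ℝ} (hY : 0 ≤ Y) (h1 : 30 * Y ≤ y) (h2 : y ≤ π - 30 * Y) :
    19 * Y ≤ Real.sin y := by
  have hp : 19 / 30 ≤ 2 / π := by
    rw [div_le_div_iff₀ (by norm_num) Real.pi_pos]
    linarith [Real.pi_lt_d2]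
  have key : ∀ x, 30 * Y ≤ x → x ≤ π / 2 → 19 * Y ≤ Real.sin x := fun x a b => by
    refine le_trans ?_ (Real.mul_le_sin (by linarith) b)
    nlinarith
  rcases le_total y (π / 2) with h | h
  · exact key y h1 h
  · rw [← Real.sin_pi_sub]
    exact key _ (by linarith) (by linarith)

lemma F_eq (n : ℕ) (z : ℂ) : F n z = G 1 n z := by simp [F, G]

lemma F_pi (n : ℕ) (σ y : ℝ) :
    F n (σ + ((y + π : ℝ) : ℂ) * I) = (((-1) ^ n : ℝ) : ℂ) * G (-1) n (σ + y * I) := by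
  have e1 : cexp (-(σ + ((y + π : ℝ) : ℂ) * I)) = -1 * cexp (-(σ + y * I)) := by
    rw [← exp_neg_pi_mul_I, ← exp_add]
    congr 1
    push_cast
    ring
  have e2 : cexp (n * (σ + ((y + π : ℝ) : ℂ) * I)) = (-1) ^ n * cexp (n * (σ + y * I)) := by
    rw [← exp_pi_mul_I, ← exp_nat_mul, ← exp_add]
    congr 1
    push_cast
    ring
  unfold F G
  rw [e1, e2]
  push_cast
  ring

lemma F_per (n : ℕ) (σ : ℝ) : Function.Periodic (fun y : ℝ => F n (σ + y * I)) (2 * π) := by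
  intro y
  have e1 : cexp (-(σ + ((y + 2 * π : ℝ) : ℂ) * I)) = cexp (-(σ + y * I)) := by
    rw [← exp_periodic]
    congr 1
    push_cast
    ring
  have e2 : cexp (n * (σ + ((y + 2 * π : ℝ) : ℂ) * I)) = cexp (n * (σ + y * I)) := by
    rw [← exp_periodic.nat_mul n (n * (σ + y * I))]
    congr 1
    push_cast
    ring
  simp only [F, e1, e2]

end HR2

open Complex Filter Topology MeasureTheory HR2 in
open scoped Real in
theorem hr2 : ∃ c₀ c₁ K μ₀ : ℝ, 0 < c₀ ∧ 0 < K ∧ ∀ (n : ℕ) (μ : ℝ), μ₀ ≤ μ →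
    μ ^ 2 = 2 * π ^ 2 / 3 * (n - 1 / 24) →
    |(P n : ℝ) - c₀ * (μ - 1) / μ ^ 3 * Real.exp μ -
      (-1) ^ n * c₁ * (μ - 2) / μ ^ 3 * Real.exp (μ / 2)| ≤ K * Real.exp (0.495 * μ) := by
  obtain ⟨C, δ, hC, hδ, hE⟩ := inv_E_near
  have hπ := Real.pi_pos
  have ev : ∀ᶠ μ : ℝ in atTop, Real.exp (-μ) < min δ C⁻¹ :=
    Real.tendsto_exp_neg_atTop_nhds_zero.eventually (gt_mem_nhds (by positivity))
  obtain ⟨μ₁, hμ₁⟩ := eventually_atTop.mp ev
  refine ⟨2 * (π ^ 2 / 6) * √(2 * (π ^ 2 / 6)) / (2 * π),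
    4 * (√2 * (2 * (π ^ 2 / 24) * √(2 * (π ^ 2 / 24)))) / (2 * π), C + 12,
    200 * max μ₁ 5, by positivity, by positivity, fun n μ hμ hn => ?_⟩
  have hm1 := le_max_left μ₁ 5
  have hm2 := le_max_right μ₁ 5
  have h34 : ∀ x : ℝ, μ / 200 ≤ x → Real.exp (-x) < δ ∧ C * Real.exp (-x) ≤ 1 := fun x hx => by
    obtain ⟨h3, h4⟩ := lt_min_iff.mp (hμ₁ x (by linarith))
    refine ⟨h3, ?_⟩
    rw [← le_div_iff₀' hC, one_div]
    exact h4.le
  have h40 : 1000 ≤ μ := by linarith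
  have hμ0 : 0 < μ := by linarith
  obtain ⟨h3, h4⟩ := h34 (μ / 100) (by linarith)
  obtain ⟨h3', h4'⟩ := h34 (μ / 2 / 100) (by linarith)
  have hpi : π ^ 2 ≤ 10 := by nlinarith [Real.pi_lt_d2]
  obtain ⟨t, ht⟩ : ∃ t : ℝ, t = π ^ 2 / (3 * μ) := ⟨_, rfl⟩
  have ht0 : 0 < t := by rw [ht]; positivity
  have ht1 : t ≤ 1 / 100 := by
    rw [ht, div_le_iff₀ (by positivity)]
    linarith
  have h1 : π ^ 2 / 6 / t = μ / 2 := by
    rw [ht]
    field_simp
    ring
  have h1' : π ^ 2 / 24 / (t / 2) = μ / 2 / 2 := by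
    rw [ht]
    field_simp
    ring
  have h2 : (n - 1 / 24) * t = μ / 2 := by
    rw [ht]
    field_simp
    linarith
  have r2 : √2 ≤ 2 := Real.sqrt_le_iff.mpr ⟨by norm_num, by norm_num⟩
  have k1 := cusp hC hE (ε := 1) (by simp) one_pos (by norm_num) tr1 (n := n) (a := 12 / 25) ht0 ht1
    (by linarith) (by norm_num) (by norm_num) h1 h2 h3 h4
  have k2 := cusp hC hE (ε := -1) (by simp) (by positivity) r2 tr2 (n := n) (μ := μ / 2)
    (t := t / 2) (a := 24 / 25) (by positivity) (by linarith) (by linarith) (by norm_num)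
    (by norm_num) h1' (by linarith) h3' h4'
  have k3 := fun y => minor hC hE (y := y) ht0 ht1 h40 h1 h2 h3 h4
  rw [show t / 2 * (24 / 25) = t * (12 / 25) by ring] at k2
  obtain ⟨σ, hσt⟩ : ∃ σ : ℝ, σ = t * (12 / 25) := ⟨_, rfl⟩
  rw [← hσt] at k1 k2 k3
  have hσ : 0 < σ := by rw [hσt]; positivity
  have hσ1 : 30 * σ ≤ 1 := by linarith
  have hπ3 := Real.pi_gt_three
  have hI : ∀ a b : ℝ, IntervalIntegrable (fun y : ℝ => F n ((σ : ℂ) + y * I)) volume a b :=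
    fun a b => by simpa only [F_eq] using G_int (ε := 1) (by simp) n hσ a b
  have k0 := int_F n hσ
  have k4 := (F_per n σ).intervalIntegral_add_eq (-π) (-(30 * σ))
  rw [show -π + 2 * π = π by ring, k0,
    ← intervalIntegral.integral_add_adjacent_intervals (hI _ (30 * σ)) (hI _ _),
    ← intervalIntegral.integral_add_adjacent_intervals (hI (30 * σ) (-(30 * σ) + π)) (hI _ _),
    ← intervalIntegral.integral_add_adjacent_intervals (hI (-(30 * σ) + π) (30 * σ + π)) (hI _ _),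
    ← intervalIntegral.integral_comp_add_right (fun y : ℝ => F n ((σ : ℂ) + y * I))
      (a := -(30 * σ)) (b := 30 * σ) π] at k4
  simp only [F_pi, intervalIntegral.integral_const_mul] at k4
  have k5 : ‖∫ y in (30 * σ)..(-(30 * σ) + π), F n ((σ : ℂ) + y * I)‖ ≤
      2 * Real.exp (0.495 * μ) * π := by
    refine (intervalIntegral.norm_integral_le_of_norm_le_const (C := 2 * Real.exp (0.495 * μ))
      fun y hy => ?_).trans ?_
    · rw [Set.uIoc_of_le (by linarith)] at hy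
      exact k3 y ((sin_ge hσ.le hy.1.le (by linarith [hy.2])).trans (le_abs_self _))
    · rw [abs_of_nonneg (by linarith)]
      gcongr
      linarith
  have k6 : ‖∫ y in (30 * σ + π)..(-(30 * σ) + 2 * π), F n ((σ : ℂ) + y * I)‖ ≤
      2 * Real.exp (0.495 * μ) * π := by
    refine (intervalIntegral.norm_integral_le_of_norm_le_const (C := 2 * Real.exp (0.495 * μ))
      fun y hy => ?_).trans ?_
    · rw [Set.uIoc_of_le (by linarith)] at hy
      have := sin_ge (y := y - π) hσ.le (by linarith [hy.1]) (by linarith [hy.2])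
      rw [Real.sin_sub_pi] at this
      exact k3 y (this.trans (neg_le_abs _))
    · rw [abs_of_nonneg (by linarith)]
      gcongr
      linarith
  simp only [← F_eq] at k1
  generalize (∫ y in (30 * σ)..(-(30 * σ) + π), F n ((σ : ℂ) + y * I)) = V₁ at *
  generalize (∫ y in (30 * σ + π)..(-(30 * σ) + 2 * π), F n ((σ : ℂ) + y * I)) = V₂ at *
  generalize (∫ y in (-(30 * σ))..(30 * σ), F n ((σ : ℂ) + y * I)) = A₁ at *
  generalize (∫ y in (-(30 * σ))..(30 * σ), G (-1) n ((σ : ℂ) + y * I)) = A₂ at *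
  have k7 : 2 * π * P n = A₁.re + (V₁.re + ((-1) ^ n * A₂.re + V₂.re)) := by
    have := congrArg re k4
    rw [add_re, add_re, add_re, re_ofReal_mul] at this
    rw [← this]
    simp
  have k8 : Real.exp (μ * (1 - 39 / 40 * (1 - 12 / 25))) ≤ Real.exp (0.495 * μ) :=
    Real.exp_le_exp.mpr (by linarith)
  have k9 : Real.exp (μ / 2 * (1 - 39 / 40 * (1 - 24 / 25))) ≤ Real.exp (0.495 * μ) :=
    Real.exp_le_exp.mpr (by linarith)
  have k10 := k1.trans (mul_le_mul_of_nonneg_left k8 (by positivity))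
  have k11 := k2.trans (mul_le_mul_of_nonneg_left k9 (by positivity))
  have k12 := (abs_re_le_norm V₁).trans k5
  have k13 := (abs_re_le_norm V₂).trans k6
  generalize 2 * (π ^ 2 / 6) * √(2 * (π ^ 2 / 6)) = d₀ at *
  generalize √2 * (2 * (π ^ 2 / 24) * √(2 * (π ^ 2 / 24))) = d₁ at *
  have e : (P n : ℝ) - d₀ / (2 * π) * (μ - 1) / μ ^ 3 * Real.exp μ -
      (-1) ^ n * (4 * d₁ / (2 * π)) * (μ - 2) / μ ^ 3 * Real.exp (μ / 2) =
      ((A₁.re - 1 * d₀ * (μ - 1) / μ ^ 3 * Real.exp μ) + V₁.re + V₂.re +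
        (-1) ^ n * (A₂.re - d₁ * (μ / 2 - 1) / (μ / 2) ^ 3 * Real.exp (μ / 2))) / (2 * π) := by
    rw [eq_div_iff (by positivity)]
    field_simp
    field_simp at k7
    linear_combination μ ^ 3 * k7
  rw [e, abs_div, abs_of_pos (by positivity : 0 < 2 * π), div_le_iff₀ (by positivity)]
  refine ((abs_add_le _ _).trans (add_le_add (abs_add_three _ _ _) le_rfl)).trans ?_
  rw [abs_mul, abs_neg_one_pow]
  have k14 := Real.exp_pos (0.495 * μ)
  have k15 := mul_le_mul_of_nonneg_left hπ3.le k14.le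
  linarith

end Pool.Agent.MP_ed4d7b_nt
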